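import Pool.Agent.W_MP_416086_gt.Mfd

set_option autoImplicit false
set_option linter.unusedSectionVars false

open scoped ContDiff Topology
open MeasureTheory Real

namespace Pool.Agent.W_MP_416086_gt

/-- `e(mt) = exp(2πi m t)`. -/
noncomputable def ee (t : ℝ) : ℂ := Complex.exp (2 * π * Complex.I * t)

theorem ee_add (s t : ℝ) : ee (s + t) = ee s * ee t := by
  unfold ee
  rw [← Complex.exp_add]
  congr 1
  push_cast
  ring

theorem ee_int (m : ℤ) : ee m = 1 := by
  unfold ee
  rw [Complex.exp_eq_one_iff]
  exact ⟨m, by push_cast; ring⟩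

theorem ee_zero : ee 0 = 1 := by
  have := ee_int 0
  simpa using this

theorem norm_ee (t : ℝ) : ‖ee t‖ = 1 := by
  unfold ee
  rw [Complex.norm_exp]
  simp

theorem continuous_ee : Continuous ee := by
  unfold ee
  fun_prop

theorem ee_ne_zero (t : ℝ) : ee t ≠ 0 := by
  unfold ee
  exact Complex.exp_ne_zero _

theorem ee_hasDerivAt (a t : ℝ) : HasDerivAt (fun t : ℝ => ee (a * t)) ((2 * π * Complex.I * a) * ee (a * t)) t := by
  unfold ee
  have h1 : HasDerivAt (fun t : ℝ => (2 * π * Complex.I * ((a * t : ℝ) : ℂ))) (2 * π * Complex.I * a) t := by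
    have h2 : HasDerivAt (fun t : ℝ => ((a * t : ℝ) : ℂ)) (a : ℂ) t := by
      have h3 : HasDerivAt (fun t : ℝ => a * t) a t := by simpa using (hasDerivAt_id t).const_mul a
      exact h3.ofReal_comp
    exact h2.const_mul _
  have := h1.cexp
  convert this using 1
  ring

section av
variable {G : Type} [NormedAddCommGroup G] [NormedSpace ℂ G] [NormedSpace ℝ G]
  [IsScalarTower ℝ ℂ G] {n : ℕ}

/-- Average of `F` against the character `m` along the direction `v`. -/
noncomputable def av (m : ℤ) (v : E n) (F : E n → G) (p : E n) : G :=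
  ∫ t in (0 : ℝ)..1, ee (-(m * t)) • F (p + t • v)

theorem av_integrand_continuous (m : ℤ) (v : E n) {F : E n → G} (hF : Continuous F) (p : E n) :
    Continuous (fun t : ℝ => ee (-(m * t)) • F (p + t • v)) := by
  have := continuous_ee
  fun_prop

theorem av_continuous (m : ℤ) (v : E n) {F : E n → G} (hF : Continuous F) :
    Continuous (av m v F) := by
  unfold av
  apply intervalIntegral.continuous_parametric_intervalIntegral_of_continuous'
  have := continuous_ee
  simp only [Function.uncurry_def]
  fun_prop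

theorem av_norm_le (m : ℤ) (v : E n) {F : E n → G} {b : ℝ} (p : E n)
    (hb : ∀ t : ℝ, ‖F (p + t • v)‖ ≤ b) : ‖av m v F p‖ ≤ b := by
  unfold av
  have := intervalIntegral.norm_integral_le_of_norm_le_const (a := (0 : ℝ)) (b := 1) (C := b)
    (f := fun t : ℝ => ee (-(m * t)) • F (p + t • v)) (fun t _ => by
      rw [norm_smul, norm_ee, one_mul]; exact hb t)
  simpa using this

theorem av_equivar (m : ℤ) (v : E n) {F : E n → G} (w : E n) (χ : ℂ)
    (h : ∀ p, F (p + w) = χ • F p) (p : E n) : av m v F (p + w) = χ • av m v F p := by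
  unfold av
  rw [← intervalIntegral.integral_smul]
  congr 1
  funext t
  have : p + w + t • v = (p + t • v) + w := by abel
  rw [this, h, smul_comm]

theorem av_shift (m : ℤ) (v : E n) {F : E n → G} (h : ∀ p, F (p + v) = F p) (s : ℝ) (p : E n) :
    av m v F (p + s • v) = ee (m * s) • av m v F p := by
  unfold av
  have hper : Function.Periodic (fun t : ℝ => ee (-(m * t)) • F (p + t • v)) 1 := by
    intro t
    show ee (-(m * (t + 1))) • F (p + (t + 1) • v) = ee (-(m * t)) • F (p + t • v)
    have e1 : p + (t + 1) • v = (p + t • v) + v := by rw [add_smul, one_smul]; abel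
    have e2 : -((m : ℝ) * (t + 1)) = -(m * t) + ((-m : ℤ) : ℝ) := by push_cast; ring
    rw [e1, h, e2, ee_add, ee_int, mul_one]
  have h1 : ∀ t : ℝ, ee (-(m * t)) • F (p + s • v + t • v) =
      ee (m * s) • (fun t : ℝ => ee (-(m * t)) • F (p + t • v)) (t + s) := by
    intro t
    simp only
    rw [smul_smul, ← ee_add]
    congr 2
    · ring
    · rw [add_smul]; abel
  simp only [h1]
  rw [intervalIntegral.integral_smul]
  congr 1
  rw [intervalIntegral.integral_comp_add_right (fun t : ℝ => ee (-(m * t)) • F (p + t • v))]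
  rw [zero_add, add_comm 1 s]
  exact hper.intervalIntegral_add_eq s 0 |>.trans (by simp)

variable [CompleteSpace G]

theorem av_hasFDerivAt (m : ℤ) (v : E n) {F : E n → G} (hF : ContDiff ℝ 1 F) (p : E n) :
    HasFDerivAt (av m v F) (av m v (fderiv ℝ F) p) p := by
  unfold av
  have hcF : Continuous F := hF.continuous
  have hcF' : Continuous (fderiv ℝ F) := hF.continuous_fderiv one_ne_zero
  have hdF : Differentiable ℝ F := hF.differentiable (by norm_num)
  -- bound on a compact set
  have hK : IsCompact (Metric.closedBall p (1 + ‖v‖)) := isCompact_closedBall _ _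
  obtain ⟨C, hC⟩ := hK.exists_bound_of_continuousOn hcF'.continuousOn
  apply intervalIntegral.hasFDerivAt_integral_of_dominated_of_fderiv_le (s := Metric.ball p 1)
    (bound := fun _ => C) (Metric.ball_mem_nhds p one_pos)
  · exact Filter.Eventually.of_forall fun q =>
      (av_integrand_continuous m v hcF q).aestronglyMeasurable
  · exact (av_integrand_continuous m v hcF p).intervalIntegrable _ _
  · exact (av_integrand_continuous m v hcF' p).aestronglyMeasurable
  · refine Filter.Eventually.of_forall fun t ht q hq => ?_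
    rw [norm_smul, norm_ee, one_mul]
    apply hC
    rw [Metric.mem_closedBall, dist_eq_norm]
    rw [Set.uIoc_of_le zero_le_one] at ht
    rw [Metric.mem_ball, dist_eq_norm] at hq
    have e : q + t • v - p = (q - p) + t • v := by abel
    rw [e]
    refine (norm_add_le _ _).trans ?_
    rw [norm_smul, Real.norm_eq_abs, abs_of_pos ht.1]
    have := mul_le_mul_of_nonneg_right ht.2 (norm_nonneg v)
    linarith
  · exact intervalIntegrable_const
  · refine Filter.Eventually.of_forall fun t _ q _ => ?_
    have h1 : HasFDerivAt (fun q : E n => F (q + t • v)) (fderiv ℝ F (q + t • v)) q := by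
      have h2 : HasFDerivAt F (fderiv ℝ F (q + t • v)) (q + t • v) := (hdF _).hasFDerivAt
      exact (hasFDerivAt_comp_add_right (t • v)).2 h2
    exact h1.const_smul _

theorem av_fderiv (m : ℤ) (v : E n) {F : E n → G} (hF : ContDiff ℝ 1 F) :
    fderiv ℝ (av m v F) = av m v (fderiv ℝ F) := by
  funext p
  exact (av_hasFDerivAt m v hF p).fderiv

theorem av_fderiv_apply (m : ℤ) (v : E n) {F : E n → G} (hF : ContDiff ℝ 1 F) (p w : E n) :
    fderiv ℝ (av m v F) p w = av m v (fun q => fderiv ℝ F q w) p := by
  rw [av_fderiv m v hF]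
  unfold av
  have hc := av_integrand_continuous m v (hF.continuous_fderiv one_ne_zero) p
  have := ContinuousLinearMap.intervalIntegral_comp_comm (μ := volume) (a := 0) (b := 1)
    (ContinuousLinearMap.apply ℝ G w) (hc.intervalIntegrable _ _)
  simp only [ContinuousLinearMap.apply_apply] at this
  rw [← this]
  rfl

theorem av_contDiff_one (m : ℤ) (v : E n) {F : E n → G} (hF : ContDiff ℝ 1 F) :
    ContDiff ℝ 1 (av m v F) := by
  rw [contDiff_one_iff_fderiv]
  refine ⟨fun p => (av_hasFDerivAt m v hF p).differentiableAt, ?_⟩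
  rw [av_fderiv m v hF]
  exact av_continuous m v (hF.continuous_fderiv one_ne_zero)

theorem av_contDiff_two (m : ℤ) (v : E n) {F : E n → G} (hF : ContDiff ℝ 2 F) :
    ContDiff ℝ 2 (av m v F) := by
  have h1 : ContDiff ℝ 1 F := hF.of_le (by norm_num)
  have h2 : ContDiff ℝ 1 (fderiv ℝ F) := hF.fderiv_right (by norm_num)
  rw [show (2 : WithTop ℕ∞) = 1 + 1 by norm_num, contDiff_succ_iff_fderiv]
  refine ⟨fun p => (av_hasFDerivAt m v h1 p).differentiableAt, by simp, ?_⟩
  rw [av_fderiv m v h1]
  exact av_contDiff_one m v h2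

/-- Second derivative in direction `w`. -/
noncomputable def D2 (w : E n) (F : E n → G) (p : E n) : G :=
  fderiv ℝ (fun q => fderiv ℝ F q w) p w

omit [CompleteSpace G] [NormedSpace ℂ G] [IsScalarTower ℝ ℂ G] in
theorem contDiff_fderiv_apply {F : E n → G} (hF : ContDiff ℝ 2 F) (w : E n) :
    ContDiff ℝ 1 (fun q => fderiv ℝ F q w) := by
  have h2 : ContDiff ℝ 1 (fderiv ℝ F) := hF.fderiv_right (by norm_num)
  exact h2.clm_apply contDiff_const

theorem av_D2 (m : ℤ) (v : E n) {F : E n → G} (hF : ContDiff ℝ 2 F) (w p : E n) :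
    D2 w (av m v F) p = av m v (D2 w F) p := by
  unfold D2
  have h1 : ContDiff ℝ 1 F := hF.of_le (by norm_num)
  have e : (fun q => fderiv ℝ (av m v F) q w) = av m v (fun q => fderiv ℝ F q w) := by
    funext q
    exact av_fderiv_apply m v h1 q w
  rw [e, av_fderiv_apply m v (contDiff_fderiv_apply hF w)]

omit [CompleteSpace G] [NormedSpace ℂ G] [IsScalarTower ℝ ℂ G] in
theorem D2_continuous {F : E n → G} (hF : ContDiff ℝ 2 F) (w : E n) : Continuous (D2 w F) := by
  unfold D2
  have := (contDiff_fderiv_apply hF w).continuous_fderiv one_ne_zero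
  exact this.clm_apply continuous_const

omit [CompleteSpace G] [NormedSpace ℂ G] [IsScalarTower ℝ ℂ G] in
theorem hasDerivAt_line {F : E n → G} (hF : ContDiff ℝ 1 F) (p w : E n) (t : ℝ) :
    HasDerivAt (fun t : ℝ => F (p + t • w)) (fderiv ℝ F (p + t • w) w) t := by
  have h1 : HasFDerivAt F (fderiv ℝ F (p + t • w)) (p + t • w) :=
    (hF.differentiable (by norm_num) _).hasFDerivAt
  have h2 : HasDerivAt (fun t : ℝ => p + t • w) w t := by
    simpa using ((hasDerivAt_id t).smul_const w).const_add p
  exact h1.comp_hasDerivAt t h2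

end av

/-- Uniqueness of Fourier coefficients. -/
theorem av_zero {n : ℕ} (v : E n) {F : E n → ℂ} (hF : Continuous F) (h : ∀ p, F (p + v) = F p)
    (p : E n) (h0 : ∀ m : ℤ, av m v F p = 0) : F p = 0 := by
  have : Fact ((0 : ℝ) < 1) := ⟨one_pos⟩
  have hper : Function.Periodic (fun t : ℝ => F (p + t • v)) 1 := by
    intro t
    show F (p + (t + 1) • v) = F (p + t • v)
    have e1 : p + (t + 1) • v = (p + t • v) + v := by rw [add_smul, one_smul]; abel
    rw [e1, h]
  let f : AddCircle (1 : ℝ) → ℂ := hper.lift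
  have hf : Continuous f := by
    have hc : Continuous (fun t : ℝ => F (p + t • v)) := by fun_prop
    exact continuous_coinduced_dom.2 hc
  let fc : C(AddCircle (1 : ℝ), ℂ) := ⟨f, hf⟩
  have hcoef : ∀ m : ℤ, fourierCoeff fc m = 0 := by
    intro m
    rw [fourierCoeff_eq_intervalIntegral _ m 0]
    have h1 : ∫ x in (0 : ℝ)..0 + 1, (fourier (T := 1) (-m)) (x : AddCircle (1 : ℝ)) • fc x = av m v F p := by
      unfold av
      rw [zero_add]
      congr 1
      funext t
      have e1 : (fourier (T := 1) (-m)) (t : AddCircle (1 : ℝ)) = ee (-(m * t)) := by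
        rw [fourier_coe_apply]
        unfold ee
        congr 1
        push_cast
        ring
      rw [e1]
      rfl
    rw [h1, h0 m, smul_zero]
  have hs : Summable (fourierCoeff fc) := by
    have : fourierCoeff fc = fun _ => 0 := funext hcoef
    rw [this]
    exact summable_zero
  have := has_pointwise_sum_fourier_series_of_summable hs ((0 : ℝ) : AddCircle (1 : ℝ))
  simp only [hcoef, zero_smul] at this
  have h2 : fc ((0 : ℝ) : AddCircle (1 : ℝ)) = 0 := this.unique hasSum_zero
  have h3 : fc ((0 : ℝ) : AddCircle (1 : ℝ)) = F (p + (0 : ℝ) • v) := rfl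
  rw [h3] at h2
  simpa using h2

theorem av_hasSum {n : ℕ} (m : ℤ) (v : E n) {ι : Type} [Countable ι] {w : ι → E n → ℂ} {b : ι → ℝ}
    (hb : Summable b) (hw : ∀ k, Continuous (w k)) (p : E n)
    (hbd : ∀ k (t : ℝ), ‖w k (p + t • v)‖ ≤ b k) :
    HasSum (fun k => av m v (w k) p) (av m v (fun q => ∑' k, w k q) p) := by
  unfold av
  apply intervalIntegral.hasSum_integral_of_dominated_convergence (fun k _ => b k)
  · intro k
    exact (av_integrand_continuous m v (hw k) p).aestronglyMeasurable
  · intro k
    refine Filter.Eventually.of_forall fun t _ => ?_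
    rw [norm_smul, norm_ee, one_mul]
    exact hbd k t
  · exact Filter.Eventually.of_forall fun t _ => hb
  · exact intervalIntegrable_const
  · refine Filter.Eventually.of_forall fun t _ => ?_
    apply HasSum.const_smul
    exact (Summable.of_norm_bounded hb (fun k => hbd k t)).hasSum

end Pool.Agent.W_MP_416086_gt
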