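import Mathlib

set_option autoImplicit false

open Set Filter Topology

namespace Pool.Agent.W_MP_416086_gt

private lemma key (q μ ν : ℝ) (hq : 0 < q) (u u' : ℝ → ℝ) (hpos : ∀ x, 0 < u x)
    (hu : ∀ x, HasDerivAt u (u' x) x)
    (hu' : ∀ x, HasDerivAt u' ((2 * q * Real.cosh (2 * x) - μ) * u x) x)
    (hdec : ∀ M : ℝ, ∃ C : ℝ, ∀ x, |u x| ≤ C * Real.exp (-M * |x|) ∧ |u' x| ≤ C * Real.exp (-M * |x|))
    (hν : ν < μ) (W c c' : ℝ → ℝ) (hW : ∀ x, 2 * q * Real.cosh (2 * x) ≤ W x)
    (hc : ∀ x, HasDerivAt c (c' x) x) (hc' : ∀ x, HasDerivAt c' ((W x - ν) * c x) x)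
    (B : ℝ) (hB : ∀ x, |c x| ≤ B) (x₀ : ℝ) (hx₀ : 0 < c x₀) :
    c' x₀ * u x₀ - c x₀ * u' x₀ < 0 := by
  set w : ℝ → ℝ := fun x => c' x * u x - c x * u' x with hw
  have hwd : ∀ x, HasDerivAt w ((W x - 2 * q * Real.cosh (2 * x) + (μ - ν)) * (c x * u x)) x := by
    intro x
    have h := ((hc' x).mul (hu x)).sub ((hc x).mul (hu' x))
    refine h.congr_deriv ?_
    ring
  have hwc : Continuous w := continuous_iff_continuousAt.2 fun x => (hwd x).continuousAt
  have hcc : Continuous c := continuous_iff_continuousAt.2 fun x => (hc x).continuousAt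
  have hc'c : Continuous c' := continuous_iff_continuousAt.2 fun x => (hc' x).continuousAt
  have hfac : ∀ x, 0 < W x - 2 * q * Real.cosh (2 * x) + (μ - ν) := fun x => by
    have := hW x; linarith
  change w x₀ < 0
  by_cases hcase : ∀ x ≥ x₀, 0 < c x
  · -- positive up to infinity
    have hmono : StrictMonoOn w (Ici x₀) := by
      refine strictMonoOn_of_deriv_pos (convex_Ici x₀) hwc.continuousOn fun x hx => ?_
      rw [interior_Ici] at hx
      rw [(hwd x).deriv]
      exact mul_pos (hfac x) (mul_pos (hcase x hx.le) (hpos x))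
    obtain ⟨X, hX0, hX⟩ : ∃ X ≥ x₀, ∀ x ≥ X, ν < 2 * q * Real.cosh (2 * x) := by
      refine ⟨max x₀ (|ν| / q + 1), le_max_left _ _, fun x hx => ?_⟩
      have h1 : |ν| / q + 1 ≤ x := le_trans (le_max_right _ _) hx
      have h2 : 0 ≤ |ν| / q := by positivity
      have h3 : Real.exp (2 * x) ≤ 2 * Real.cosh (2 * x) := by
        rw [Real.cosh_eq]
        have := Real.exp_pos (-(2 * x))
        linarith
      have h4 : 2 * x + 1 ≤ Real.exp (2 * x) := Real.add_one_le_exp _
      have h5 : |ν| + q ≤ q * x := by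
        have := mul_le_mul_of_nonneg_left h1 hq.le
        have e : q * (|ν| / q + 1) = |ν| + q := by field_simp
        linarith
      have h6 : q * (2 * x + 1) ≤ q * (2 * Real.cosh (2 * x)) := by
        apply mul_le_mul_of_nonneg_left _ hq.le
        linarith
      have h7 := le_abs_self ν
      have h8 := abs_nonneg ν
      nlinarith
    have hB0 : 0 ≤ B := le_trans (abs_nonneg _) (hB x₀)
    have hmono' : StrictMonoOn c' (Ici X) := by
      refine strictMonoOn_of_deriv_pos (convex_Ici X) hc'c.continuousOn fun x hx => ?_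
      rw [interior_Ici] at hx
      rw [(hc' x).deriv]
      have h1 := hX x hx.le
      have h2 := hW x
      exact mul_pos (by linarith) (hcase x (hX0.trans hx.le))
    have hc'neg : ∀ x ≥ X, c' x ≤ 0 := by
      intro x₁ hx₁
      by_contra hcon
      push Not at hcon
      set δ := c' x₁ with hδ
      have hx1 : 0 < c x₁ := hcase x₁ (hX0.trans hx₁)
      set y := x₁ + (B + 1) / δ with hy
      have hyx : x₁ ≤ y := by
        rw [hy]; have : 0 ≤ (B + 1) / δ := by positivity
        linarith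
      have h1 : δ * (y - x₁) ≤ c y - c x₁ := by
        refine (convex_Icc x₁ y).mul_sub_le_image_sub_of_le_deriv hcc.continuousOn
          (fun x _ => (hc x).differentiableAt.differentiableWithinAt) (fun x hx => ?_)
          x₁ (left_mem_Icc.2 hyx) y (right_mem_Icc.2 hyx) hyx
        rw [interior_Icc] at hx
        rw [(hc x).deriv]
        exact (hmono' hx₁ (hx₁.le.trans hx.1.le : X ≤ x) hx.1).le
      have h2 : δ * (y - x₁) = B + 1 := by
        rw [hy]; field_simp; ring
      have h3 := (abs_le.1 (hB y)).2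
      linarith
    obtain ⟨C, hC⟩ := hdec 1
    have hbound : ∀ x ≥ X, w x ≤ B * (C * Real.exp (-1 * |x|)) := by
      intro x hx
      have h1 := hc'neg x hx
      have h2 := (hC x).2
      have h3 : c' x * u x ≤ 0 := mul_nonpos_of_nonpos_of_nonneg h1 (hpos x).le
      have h4 : -(c x * u' x) ≤ |c x| * |u' x| := by
        rw [← abs_mul]; exact neg_le_abs _
      have h5 : |c x| * |u' x| ≤ B * (C * Real.exp (-1 * |x|)) :=
        mul_le_mul (hB x) h2 (abs_nonneg _) hB0
      change c' x * u x - c x * u' x ≤ _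
      linarith
    have hlim : Tendsto (fun x : ℝ => B * (C * Real.exp (-1 * |x|))) atTop (𝓝 0) := by
      have h1 : Tendsto (fun x : ℝ => Real.exp (-x)) atTop (𝓝 0) :=
        Real.tendsto_exp_neg_atTop_nhds_zero
      have h2 : Tendsto (fun x : ℝ => B * (C * Real.exp (-x))) atTop (𝓝 (B * (C * 0))) :=
        (h1.const_mul C).const_mul B
      rw [mul_zero, mul_zero] at h2
      refine h2.congr' ?_
      filter_upwards [eventually_ge_atTop 0] with x hx
      rw [abs_of_nonneg hx, neg_one_mul]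
    have hw1 : w (x₀ + 1) ≤ 0 := by
      refine ge_of_tendsto hlim ?_
      filter_upwards [eventually_ge_atTop (max X (x₀ + 1))] with x hx
      have h1 : X ≤ x := le_trans (le_max_left _ _) hx
      have h2 : x₀ + 1 ≤ x := le_trans (le_max_right _ _) hx
      refine le_trans ?_ (hbound x h1)
      exact hmono.monotoneOn (by simp : x₀ + 1 ∈ Ici x₀) (hX0.le.trans h1 : x₀ ≤ x) h2
    have hw2 : w x₀ < w (x₀ + 1) :=
      hmono (self_mem_Ici) (by simp : x₀ + 1 ∈ Ici x₀) (by linarith)
    linarith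
  · push Not at hcase
    obtain ⟨x₁, hx₁, hcx₁⟩ := hcase
    have hS : IsCompact (Icc x₀ x₁ ∩ {x | c x ≤ 0}) :=
      isCompact_Icc.inter_right (isClosed_le hcc continuous_const)
    obtain ⟨b, hb, hbl⟩ := hS.exists_isLeast ⟨x₁, ⟨hx₁, le_rfl⟩, hcx₁⟩
    have hb0 : c b ≤ 0 := hb.2
    have hx₀b : x₀ < b := lt_of_le_of_ne hb.1.1 (fun h => by rw [h] at hx₀; linarith)
    have hpos' : ∀ x ∈ Ico x₀ b, 0 < c x := by
      intro x hx
      by_contra hcon
      push Not at hcon
      have := hbl ⟨⟨hx.1, hx.2.le.trans hb.1.2⟩, hcon⟩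
      exact absurd hx.2 (not_lt.2 this)
    have hcb : c b = 0 := by
      refine le_antisymm hb0 ?_
      have h1 : Tendsto c (𝓝[<] b) (𝓝 (c b)) := hcc.continuousAt.tendsto.mono_left nhdsWithin_le_nhds
      refine ge_of_tendsto h1 ?_
      filter_upwards [Ico_mem_nhdsLT hx₀b] with x hx
      exact (hpos' x hx).le
    have hc'b : c' b ≤ 0 := by
      have h1 := hasDerivAt_iff_tendsto_slope.1 (hc b)
      have h2 : Tendsto (slope c b) (𝓝[<] b) (𝓝 (c' b)) :=
        h1.mono_left (nhdsWithin_mono b (fun x hx => (ne_of_lt hx)))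
      refine le_of_tendsto h2 ?_
      filter_upwards [Ico_mem_nhdsLT hx₀b] with x hx
      rw [slope_def_field, hcb, sub_zero]
      exact div_nonpos_of_nonneg_of_nonpos (hpos' x hx).le (by linarith [hx.2])
    have hmono : StrictMonoOn w (Icc x₀ b) := by
      refine strictMonoOn_of_deriv_pos (convex_Icc x₀ b) hwc.continuousOn fun x hx => ?_
      rw [interior_Icc] at hx
      rw [(hwd x).deriv]
      exact mul_pos (hfac x) (mul_pos (hpos' x ⟨hx.1.le, hx.2⟩) (hpos x))
    have h1 : w x₀ < w b := hmono (left_mem_Icc.2 hx₀b.le) (right_mem_Icc.2 hx₀b.le) hx₀b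
    have h2 : w b ≤ 0 := by
      change c' b * u b - c b * u' b ≤ 0
      rw [hcb, zero_mul, sub_zero]
      exact mul_nonpos_of_nonpos_of_nonneg hc'b (hpos b).le
    linarith

private lemma nonpos (q μ ν : ℝ) (hq : 0 < q) (u u' : ℝ → ℝ) (hpos : ∀ x, 0 < u x)
    (hu : ∀ x, HasDerivAt u (u' x) x)
    (hu' : ∀ x, HasDerivAt u' ((2 * q * Real.cosh (2 * x) - μ) * u x) x)
    (hdec : ∀ M : ℝ, ∃ C : ℝ, ∀ x, |u x| ≤ C * Real.exp (-M * |x|) ∧ |u' x| ≤ C * Real.exp (-M * |x|))
    (hν : ν < μ) (W c c' : ℝ → ℝ) (hW : ∀ x, 2 * q * Real.cosh (2 * x) ≤ W x)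
    (hc : ∀ x, HasDerivAt c (c' x) x) (hc' : ∀ x, HasDerivAt c' ((W x - ν) * c x) x)
    (B : ℝ) (hB : ∀ x, |c x| ≤ B) : ∀ x, c x ≤ 0 := by
  intro x₀
  by_contra hcon
  push Not at hcon
  have h1 := key q μ ν hq u u' hpos hu hu' hdec hν W c c' hW hc hc' B hB x₀ hcon
  have hneg : ∀ x : ℝ, HasDerivAt (fun y : ℝ => -y) (-1) x := fun x => (hasDerivAt_id x).neg
  have h2 := key q μ ν hq (fun x => u (-x)) (fun x => -u' (-x)) (fun x => hpos (-x))
    (fun x => by
      have := (hu (-x)).comp x (hneg x)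
      refine this.congr_deriv ?_
      ring)
    (fun x => by
      have := ((hu' (-x)).comp x (hneg x)).neg
      refine this.congr_deriv ?_
      have e : 2 * -x = -(2 * x) := by ring
      rw [e, Real.cosh_neg]
      ring)
    (fun M => by
      obtain ⟨C, hC⟩ := hdec M
      refine ⟨C, fun x => ?_⟩
      have := hC (-x)
      rw [abs_neg x] at this
      refine ⟨this.1, ?_⟩
      rw [abs_neg]; exact this.2)
    hν (fun x => W (-x)) (fun x => c (-x)) (fun x => -c' (-x))
    (fun x => by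
      have := hW (-x)
      have e : 2 * -x = -(2 * x) := by ring
      rw [e, Real.cosh_neg] at this
      exact this)
    (fun x => by
      have := (hc (-x)).comp x (hneg x)
      refine this.congr_deriv ?_
      ring)
    (fun x => by
      have := ((hc' (-x)).comp x (hneg x)).neg
      refine this.congr_deriv ?_
      ring)
    B (fun x => hB (-x)) (-x₀) (by simpa using hcon)
  simp only [neg_neg] at h2
  linarith

/-- Bounded solutions below the ground state energy vanish. -/
theorem bounded_zero (q μ ν : ℝ) (hq : 0 < q) (u u' : ℝ → ℝ) (hpos : ∀ x, 0 < u x)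
    (hu : ∀ x, HasDerivAt u (u' x) x)
    (hu' : ∀ x, HasDerivAt u' ((2 * q * Real.cosh (2 * x) - μ) * u x) x)
    (hdec : ∀ M : ℝ, ∃ C : ℝ, ∀ x, |u x| ≤ C * Real.exp (-M * |x|) ∧ |u' x| ≤ C * Real.exp (-M * |x|))
    (hν : ν < μ) (W c c' : ℝ → ℝ) (hW : ∀ x, 2 * q * Real.cosh (2 * x) ≤ W x)
    (hc : ∀ x, HasDerivAt c (c' x) x) (hc' : ∀ x, HasDerivAt c' ((W x - ν) * c x) x)
    (B : ℝ) (hB : ∀ x, |c x| ≤ B) : ∀ x, c x = 0 := by
  intro x
  refine le_antisymm (nonpos q μ ν hq u u' hpos hu hu' hdec hν W c c' hW hc hc' B hB x) ?_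
  have := nonpos q μ ν hq u u' hpos hu hu' hdec hν W (fun x => -c x) (fun x => -c' x) hW
    (fun x => (hc x).neg)
    (fun x => by
      refine (hc' x).neg.congr_deriv ?_
      ring) B (fun x => by rw [abs_neg]; exact hB x) x
  linarith

end Pool.Agent.W_MP_416086_gt
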