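import Mathlib

set_option autoImplicit false

open scoped ContDiff
open MeasureTheory

namespace Pool.Agent.W_MP_416086_gt

/-- The model space `ℝⁿ`. -/
abbrev E (n : ℕ) := Fin n → ℝ

/-- The `i`-th partial derivative of `f` at `p`. -/
noncomputable def pd {n : ℕ} (i : Fin n) (f : E n → ℝ) (p : E n) : ℝ :=
  fderiv ℝ f p (Pi.single i 1)

/-- A closed (compact, without boundary) connected smooth Riemannian manifold of dimension `n`,
presented as a quotient `M = Γ \ ℝⁿ` by a group `Γ` of diffeomorphisms of `ℝⁿ` acting freely,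
properly discontinuously and cocompactly, with a smooth `Γ`-invariant Riemannian metric `g`
on `ℝⁿ`. -/
structure ClosedManifold (n : ℕ) where
  /-- The deck group. -/
  Γ : Subgroup (Equiv.Perm (E n))
  smooth : ∀ γ ∈ Γ, ContDiff ℝ ∞ (γ : E n → E n)
  free : ∀ γ ∈ Γ, ∀ p, γ p = p → γ = 1
  proper : ∀ C : Set (E n), IsCompact C →
    {γ : Equiv.Perm (E n) | γ ∈ Γ ∧ ((γ '' C) ∩ C).Nonempty}.Finite
  cocompact : ∃ C : Set (E n), IsCompact C ∧ ∀ p, ∃ γ ∈ Γ, γ p ∈ C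
  /-- The metric tensor. -/
  g : E n → Matrix (Fin n) (Fin n) ℝ
  g_smooth : ∀ i j, ContDiff ℝ ∞ (fun p => g p i j)
  g_posDef : ∀ p, (g p).PosDef
  g_inv : ∀ γ ∈ Γ, ∀ p i j,
    ∑ k, ∑ l, g (γ p) k l * pd i (fun q => γ q k) p * pd j (fun q => γ q l) p = g p i j

/-- Christoffel symbols `Γ^k_{ij}` of a metric tensor `g` on `ℝⁿ`. -/
noncomputable def chr {n : ℕ} (g : E n → Matrix (Fin n) (Fin n) ℝ) (k i j : Fin n) (p : E n) : ℝ :=
  (1 / 2) * ∑ l, (g p)⁻¹ k l *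
    (pd i (fun q => g q j l) p + pd j (fun q => g q i l) p - pd l (fun q => g q i j) p)

/-- Ricci tensor `R_{ij}` of a metric tensor `g` on `ℝⁿ`. -/
noncomputable def ricci {n : ℕ} (g : E n → Matrix (Fin n) (Fin n) ℝ) (i j : Fin n) (p : E n) : ℝ :=
  ∑ k, pd k (chr g k i j) p - ∑ k, pd j (chr g k i k) p +
    ∑ k, ∑ l, (chr g k k l p * chr g l i j p - chr g k j l p * chr g l i k p)

/-- Laplace–Beltrami operator of a metric tensor `g` on `ℝⁿ` (nonpositive sign convention: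
`Δ = div grad`). -/
noncomputable def lap {n : ℕ} (g : E n → Matrix (Fin n) (Fin n) ℝ) (f : E n → ℝ) (p : E n) : ℝ :=
  (Real.sqrt (g p).det)⁻¹ *
    ∑ i, pd i (fun q => Real.sqrt (g q).det * ∑ j, (g q)⁻¹ i j * pd j f q) p

namespace ClosedManifold
variable {n : ℕ} (M : ClosedManifold n)

/-- `Ric ≥ -(n-1) κ g`. -/
def RicciLowerBound (κ : ℝ) : Prop :=
  ∀ (p : E n) (v : Fin n → ℝ),
    -((n : ℝ) - 1) * κ * (∑ i, ∑ j, M.g p i j * v i * v j) ≤ ∑ i, ∑ j, ricci M.g i j p * v i * v j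

/-- `M` has Riemannian volume `V`: integral of `√(det g)` over a Borel set containing exactly one
point of every `Γ`-orbit. -/
def HasVolume (V : ℝ) : Prop :=
  ∃ D : Set (E n), MeasurableSet D ∧ (∀ p, ∃! γ : Equiv.Perm (E n), γ ∈ M.Γ ∧ γ p ∈ D) ∧
    ∫⁻ p in D, ENNReal.ofReal (Real.sqrt (M.g p).det) = ENNReal.ofReal V

/-- `f` is a (real, classical) solution of `-Δ f = ν f` on `M`; functions on `M` are the
`Γ`-invariant functions on `ℝⁿ`. -/
def IsEigenfunction (ν : ℝ) (f : E n → ℝ) : Prop :=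
  ContDiff ℝ 2 f ∧ (∀ γ ∈ M.Γ, ∀ p, f (γ p) = f p) ∧ ∀ p, -lap M.g f p = ν * f p

/-- The eigenspace of the value `ν`. -/
def eigenspace (ν : ℝ) : Submodule ℝ (E n → ℝ) :=
  Submodule.span ℝ {f | M.IsEigenfunction ν f}

/-- Sum of the eigenspaces of the values `< ν`. -/
def eigBelow (ν : ℝ) : Submodule ℝ (E n → ℝ) :=
  Submodule.span ℝ {f | ∃ ν' < ν, M.IsEigenfunction ν' f}

/-- Sum of the eigenspaces of the values `≤ ν`. -/
def eigUpTo (ν : ℝ) : Submodule ℝ (E n → ℝ) :=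
  Submodule.span ℝ {f | ∃ ν' ≤ ν, M.IsEigenfunction ν' f}

/-- `ν = λ_k(M)`, where the eigenvalues are listed with multiplicity as
`λ_0 ≤ λ_1 ≤ λ_2 ≤ …`: the number of eigenvalues `< ν` is at most `k` and the number of
eigenvalues `≤ ν` is more than `k` (counted with multiplicity). -/
def IsLambda (k : ℕ) (ν : ℝ) : Prop :=
  Module.rank ℝ (M.eigBelow ν) ≤ k ∧ (k : Cardinal) < Module.rank ℝ (M.eigUpTo ν)

end ClosedManifold

end Pool.Agent.W_MP_416086_gt
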