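import Pool.Agent.W_MP_416086_gt.Series

set_option autoImplicit false
set_option linter.unusedSectionVars false

open scoped ContDiff Topology
open MeasureTheory Real

namespace Pool.Agent.W_MP_416086_gt

/-- Second derivative of the ground state. -/
noncomputable def upp (q μ : ℝ) (u : ℝ → ℝ) (x : ℝ) : ℝ := (2 * q * Real.cosh (2 * x) - μ) * u x

theorem p0_norm : ‖p0‖ ≤ 1 := by
  apply ContinuousLinearMap.opNorm_le_bound _ zero_le_one
  intro v
  rw [one_mul]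
  exact norm_le_pi_norm v 0

theorem proj_norm (i : Fin 4) : ‖(ContinuousLinearMap.proj i : E 4 →L[ℝ] ℝ)‖ ≤ 1 := by
  apply ContinuousLinearMap.opNorm_le_bound _ zero_le_one
  intro v
  rw [one_mul]
  exact norm_le_pi_norm v i

/-- Bound for the frequencies. -/
noncomputable def Lam (j : ℤ) : ℝ := 2 * π * exp (|(j : ℝ)| * tau)

theorem Lam_ge_one (j : ℤ) : 1 ≤ Lam j := by
  unfold Lam
  have h1 : 1 ≤ exp (|(j : ℝ)| * tau) := by
    apply Real.one_le_exp
    have := tau_pos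
    positivity
  have h2 := Real.pi_gt_three
  nlinarith

theorem lj_norm (j : ℤ) : ‖lj j‖ ≤ Lam j := by
  unfold lj
  have hpi := Real.pi_pos
  have s5 : 2 ≤ √5 := by
    rw [Real.le_sqrt' (by norm_num)]; norm_num
  have hA : |Aj j| ≤ exp (|(j : ℝ)| * tau) / 2 := by
    unfold Aj
    rw [abs_div, abs_of_pos (Real.exp_pos _), abs_of_pos sqrt5_pos]
    have h1 : exp (j * tau) ≤ exp (|(j : ℝ)| * tau) := by
      apply Real.exp_le_exp.2
      exact mul_le_mul_of_nonneg_right (le_abs_self _) tau_pos.le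
    exact div_le_div₀ (by positivity) h1 (by norm_num) s5
  have hB : |Bj j| ≤ exp (|(j : ℝ)| * tau) / 2 := by
    unfold Bj
    rw [abs_neg, abs_div, abs_of_pos (Real.exp_pos _), abs_of_pos sqrt5_pos]
    have h1 : exp (-(j * tau)) ≤ exp (|(j : ℝ)| * tau) := by
      apply Real.exp_le_exp.2
      rw [← neg_mul]
      exact mul_le_mul_of_nonneg_right (neg_le_abs _) tau_pos.le
    exact div_le_div₀ (by positivity) h1 (by norm_num) s5
  refine (norm_add_le _ _).trans ?_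
  have e1 : |2 * π * Aj j| = 2 * π * |Aj j| := by rw [abs_mul, abs_of_pos (by positivity)]
  have e2 : |2 * π * Bj j| = 2 * π * |Bj j| := by rw [abs_mul, abs_of_pos (by positivity)]
  rw [norm_smul, norm_smul, Real.norm_eq_abs, Real.norm_eq_abs, e1, e2]
  have h1 := proj_norm 1
  have h2 := proj_norm 2
  calc 2 * π * |Aj j| * ‖(ContinuousLinearMap.proj 1 : E 4 →L[ℝ] ℝ)‖ +
        2 * π * |Bj j| * ‖(ContinuousLinearMap.proj 2 : E 4 →L[ℝ] ℝ)‖
      ≤ 2 * π * (exp (|(j : ℝ)| * tau) / 2) * 1 + 2 * π * (exp (|(j : ℝ)| * tau) / 2) * 1 := by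
        gcongr
    _ = Lam j := by unfold Lam; ring

theorem ww_bounds {q μ : ℝ} {u u' : ℝ → ℝ} (j : ℤ) (p : E 4) {S : ℝ}
    (hS1 : |u (p 0 - j * tau)| ≤ S) (hS2 : |u' (p 0 - j * tau)| ≤ S)
    (hS3 : |upp q μ u (p 0 - j * tau)| ≤ S) :
    ‖ww u j p‖ ≤ 4 * Lam j ^ 2 * S ∧ ‖ww' u u' j p‖ ≤ 4 * Lam j ^ 2 * S ∧
      ‖ww'' u u' (upp q μ u) j p‖ ≤ 4 * Lam j ^ 2 * S := by
  have hS : 0 ≤ S := (abs_nonneg _).trans hS1
  have hL := Lam_ge_one j
  have hl := lj_norm j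
  have hp := p0_norm
  have hc := Real.abs_cos_le_one (th j p)
  have hs := Real.abs_sin_le_one (th j p)
  have hL2 : Lam j ≤ Lam j ^ 2 := by nlinarith
  have hLS : S ≤ Lam j * S := by nlinarith
  have hLS2 : Lam j * S ≤ Lam j ^ 2 * S := mul_le_mul_of_nonneg_right hL2 hS
  have b1 : ∀ a c : ℝ, |a| ≤ S → |c| ≤ 1 → |a * c| ≤ S := by
    intro a c ha hc
    rw [abs_mul]
    calc |a| * |c| ≤ S * 1 := mul_le_mul ha hc (abs_nonneg _) hS
      _ = S := mul_one S
  have n1 : ∀ a : ℝ, |a| ≤ S → ‖a • p0‖ ≤ S := by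
    intro a ha
    rw [norm_smul, Real.norm_eq_abs]
    calc |a| * ‖p0‖ ≤ S * 1 := mul_le_mul ha hp (norm_nonneg _) hS
      _ = S := mul_one S
  have n2 : ∀ a : ℝ, |a| ≤ S → ‖a • lj j‖ ≤ Lam j * S := by
    intro a ha
    rw [norm_smul, Real.norm_eq_abs]
    calc |a| * ‖lj j‖ ≤ S * Lam j := mul_le_mul ha hl (norm_nonneg _) hS
      _ = Lam j * S := mul_comm _ _
  refine ⟨?_, ?_, ?_⟩
  · unfold ww
    rw [Real.norm_eq_abs]
    have := b1 _ _ hS1 hc
    nlinarith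
  · unfold ww'
    refine (norm_sub_le _ _).trans ?_
    have h1 := n1 _ (b1 _ _ hS2 hc)
    have h2 := n2 _ (b1 _ _ hS1 hs)
    nlinarith
  · unfold ww''
    refine (norm_sub_le (E := E 4 →L[ℝ] E 4 →L[ℝ] ℝ) _ _).trans ?_
    rw [ContinuousLinearMap.norm_smulRight_apply, ContinuousLinearMap.norm_smulRight_apply]
    have h1 := n1 _ (b1 _ _ hS3 hc)
    have h2 := n2 _ (b1 _ _ hS2 hs)
    have h3 := n1 _ (b1 _ _ hS2 hs)
    have h4 := n2 _ (b1 _ _ hS1 hc)
    have h5 : ‖(upp q μ u (p 0 - j * tau) * cos (th j p)) • p0 -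
        (u' (p 0 - j * tau) * sin (th j p)) • lj j‖ ≤ S + Lam j * S :=
      (norm_sub_le _ _).trans (add_le_add h1 h2)
    have h6 : ‖(u' (p 0 - j * tau) * sin (th j p)) • p0 +
        (u (p 0 - j * tau) * cos (th j p)) • lj j‖ ≤ S + Lam j * S :=
      (norm_add_le _ _).trans (add_le_add h3 h4)
    have h7 : ‖(upp q μ u (p 0 - j * tau) * cos (th j p)) • p0 -
        (u' (p 0 - j * tau) * sin (th j p)) • lj j‖ * ‖p0‖ ≤ (S + Lam j * S) * 1 :=
      mul_le_mul h5 hp (norm_nonneg _) (by positivity)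
    have h8 : ‖(u' (p 0 - j * tau) * sin (th j p)) • p0 +
        (u (p 0 - j * tau) * cos (th j p)) • lj j‖ * ‖lj j‖ ≤ (S + Lam j * S) * Lam j :=
      mul_le_mul h6 hl (norm_nonneg _) (by positivity)
    have h9 : (S + Lam j * S) * Lam j = Lam j * S + Lam j ^ 2 * S := by ring
    linarith

theorem summable_exp_abs : Summable (fun j : ℤ => exp (-(|(j : ℝ)| * tau))) := by
  have hr : exp (-tau) < 1 := by
    rw [Real.exp_lt_one_iff]
    have := tau_pos
    linarith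
  have hg : Summable (fun n : ℕ => exp (-tau) ^ n) :=
    summable_geometric_of_lt_one (Real.exp_pos _).le hr
  have hg' : Summable (fun n : ℕ => exp (-((n : ℝ) * tau))) := by
    refine hg.congr fun n => ?_
    rw [← Real.exp_nat_mul]
    congr 1
    ring
  apply Summable.of_nat_of_neg
  · refine hg'.congr fun n => ?_
    simp
  · refine hg'.congr fun n => ?_
    simp

theorem upp_bound {q μ : ℝ} (hq : 0 < q) {u u' : ℝ → ℝ} (h : GS q μ u u') :
    ∃ C : ℝ, 0 ≤ C ∧ ∀ x, |u x| ≤ C * exp (-(3 * |x|)) ∧ |u' x| ≤ C * exp (-(3 * |x|)) ∧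
      |upp q μ u x| ≤ C * exp (-(3 * |x|)) := by
  obtain ⟨C, hC⟩ := h.dec 5
  have hC0 : 0 ≤ C := by
    have := (hC 0).1
    simp at this
    exact (abs_nonneg _).trans this
  refine ⟨(1 + 2 * q + |μ|) * C, by positivity, fun x => ?_⟩
  have he : exp (-5 * |x|) = exp (-(2 * |x|)) * exp (-(3 * |x|)) := by
    rw [← Real.exp_add]; congr 1; ring
  have he1 : exp (-(2 * |x|)) ≤ 1 := by
    rw [Real.exp_le_one_iff]
    have := abs_nonneg x
    linarith
  have he2 : exp (-5 * |x|) ≤ exp (-(3 * |x|)) := by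
    rw [he]
    have := mul_le_mul_of_nonneg_right he1 (Real.exp_pos (-(3 * |x|))).le
    linarith
  have hq' : 1 ≤ 1 + 2 * q + |μ| := by
    have := abs_nonneg μ
    linarith
  have hCC : C * exp (-5 * |x|) ≤ (1 + 2 * q + |μ|) * C * exp (-(3 * |x|)) := by
    calc C * exp (-5 * |x|) ≤ C * exp (-(3 * |x|)) := mul_le_mul_of_nonneg_left he2 hC0
      _ = 1 * C * exp (-(3 * |x|)) := by ring
      _ ≤ (1 + 2 * q + |μ|) * C * exp (-(3 * |x|)) := by gcongr
  refine ⟨(hC x).1.trans hCC, (hC x).2.trans hCC, ?_⟩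
  unfold upp
  rw [abs_mul]
  have hcosh : Real.cosh (2 * x) ≤ exp (2 * |x|) := by
    rw [← Real.cosh_abs, abs_mul, abs_two]
    rw [Real.cosh_eq]
    have h1 : exp (-(2 * |x|)) ≤ exp (2 * |x|) := by
      apply Real.exp_le_exp.2
      have := abs_nonneg x
      linarith
    linarith
  have hone : 1 ≤ exp (2 * |x|) := Real.one_le_exp (by positivity)
  have h1 : |2 * q * Real.cosh (2 * x) - μ| ≤ (2 * q + |μ|) * exp (2 * |x|) := by
    refine (abs_sub _ _).trans ?_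
    rw [abs_of_pos (by have := Real.cosh_pos (2 * x); positivity)]
    have h2 : 2 * q * Real.cosh (2 * x) ≤ 2 * q * exp (2 * |x|) :=
      mul_le_mul_of_nonneg_left hcosh (by positivity)
    have h3 : |μ| ≤ |μ| * exp (2 * |x|) := le_mul_of_one_le_right (abs_nonneg _) hone
    linarith
  calc |2 * q * Real.cosh (2 * x) - μ| * |u x|
      ≤ ((2 * q + |μ|) * exp (2 * |x|)) * (C * exp (-5 * |x|)) :=
        mul_le_mul h1 (hC x).1 (abs_nonneg _) (by positivity)
    _ = (2 * q + |μ|) * C * (exp (2 * |x|) * exp (-(2 * |x|))) * exp (-(3 * |x|)) := by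
        rw [he]; ring
    _ = (2 * q + |μ|) * C * exp (-(3 * |x|)) := by
        rw [← Real.exp_add]; simp
    _ ≤ (1 + 2 * q + |μ|) * C * exp (-(3 * |x|)) := by
        gcongr
        linarith

/-- Uniform summable bounds on slabs. -/
theorem ww_summable_bounds {q μ : ℝ} (hq : 0 < q) {u u' : ℝ → ℝ} (h : GS q μ u u') (R : ℝ) :
    ∃ b : ℤ → ℝ, Summable b ∧ ∀ j (p : E 4), |p 0| < R →
      ‖ww u j p‖ ≤ b j ∧ ‖ww' u u' j p‖ ≤ b j ∧ ‖ww'' u u' (upp q μ u) j p‖ ≤ b j := by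
  obtain ⟨C, hC0, hC⟩ := upp_bound hq h
  refine ⟨fun j => (16 * π ^ 2 * C * exp (3 * R)) * exp (-(|(j : ℝ)| * tau)),
    summable_exp_abs.mul_left _, fun j p hp => ?_⟩
  set x := p 0 - j * tau with hx
  have hxa : |(j : ℝ)| * tau - R ≤ |x| := by
    have h1 : |(j : ℝ) * tau| ≤ |p 0| + |x| := by
      have : (j : ℝ) * tau = p 0 - x := by rw [hx]; ring
      rw [this]
      exact abs_sub _ _
    rw [abs_mul, abs_of_pos tau_pos] at h1
    linarith
  have he : exp (-(3 * |x|)) ≤ exp (3 * R) * exp (-(3 * (|(j : ℝ)| * tau))) := by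
    rw [← Real.exp_add]
    apply Real.exp_le_exp.2
    linarith
  have hS : ∀ a : ℝ, a ≤ C * exp (-(3 * |x|)) → a ≤ C * (exp (3 * R) * exp (-(3 * (|(j : ℝ)| * tau)))) :=
    fun a ha => ha.trans (mul_le_mul_of_nonneg_left he hC0)
  have hb := ww_bounds (q := q) (μ := μ) (u := u) (u' := u') j p (hS _ (hC x).1) (hS _ (hC x).2.1)
    (hS _ (hC x).2.2)
  have hfin : 4 * Lam j ^ 2 * (C * (exp (3 * R) * exp (-(3 * (|(j : ℝ)| * tau))))) =
      (16 * π ^ 2 * C * exp (3 * R)) * exp (-(|(j : ℝ)| * tau)) := by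
    unfold Lam
    have e1 : exp (|(j : ℝ)| * tau) ^ 2 * exp (-(3 * (|(j : ℝ)| * tau))) = exp (-(|(j : ℝ)| * tau)) := by
      rw [← Real.exp_nat_mul, ← Real.exp_add]
      congr 1
      push_cast
      ring
    rw [← e1]
    ring
  rw [hfin] at hb
  exact hb

/-- The eigenfunctions. -/
noncomputable def FF (u : ℝ → ℝ) (N : ℕ) (i : ℤ) (p : E 4) : ℝ := ∑' k : ℤ, ww u (i + k * N) p

theorem inj_idx {N : ℕ} (hN : 1 ≤ N) (i : ℤ) : Function.Injective (fun k : ℤ => i + k * N) := by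
  intro a b hab
  have hN' : (N : ℤ) ≠ 0 := by exact_mod_cast (by omega : N ≠ 0)
  have : a * N = b * N := by simpa using hab
  exact mul_right_cancel₀ hN' this

theorem ww_bounds_idx {N : ℕ} (hN : 1 ≤ N) (i : ℤ) {q μ : ℝ} (hq : 0 < q) {u u' : ℝ → ℝ}
    (h : GS q μ u u') (R : ℝ) :
    ∃ b : ℤ → ℝ, Summable b ∧ ∀ k (p : E 4), |p 0| < R →
      ‖ww u (i + k * N) p‖ ≤ b k ∧ ‖ww' u u' (i + k * N) p‖ ≤ b k ∧
      ‖ww'' u u' (upp q μ u) (i + k * N) p‖ ≤ b k := by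
  obtain ⟨b, hb1, hb2⟩ := ww_summable_bounds hq h R
  exact ⟨fun k => b (i + k * N), hb1.comp_injective (inj_idx hN i), fun k p hp => hb2 _ p hp⟩

theorem FF_act (u : ℝ → ℝ) (N : ℕ) (i k m n l : ℤ) (p : E 4) :
    FF u N i (act N k m n l p) = FF u N i p := by
  unfold FF
  simp only [ww_act]
  have h1 : ∀ k' : ℤ, ww u (i + k' * N - k * N) p = ww u (i + ((Equiv.subRight k) k') * N) p := by
    intro k'
    congr 1
    simp only [Equiv.subRight_apply]
    ring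
  simp only [h1]
  exact (Equiv.subRight k).tsum_eq (fun k' => ww u (i + k' * N) p)

theorem ww''_dir {q μ : ℝ} {u u' : ℝ → ℝ} (j : ℤ) (p : E 4) :
    ww'' u u' (upp q μ u) j p (e4 0) (e4 0) = upp q μ u (p 0 - j * tau) * cos (th j p) ∧
    ww'' u u' (upp q μ u) j p (e4 1) (e4 1) = -((2 * π * Aj j) ^ 2 * ww u j p) ∧
    ww'' u u' (upp q μ u) j p (e4 2) (e4 2) = -((2 * π * Bj j) ^ 2 * ww u j p) ∧
    ww'' u u' (upp q μ u) j p (e4 3) (e4 3) = 0 := by
  refine ⟨?_, ?_, ?_, ?_⟩ <;> simp [ww'', lj, ww, e4] <;> ring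

theorem FF_smooth_eq {N : ℕ} (hN : 1 ≤ N) (i : ℤ) {ε r μ : ℝ} (hε : 0 < ε) {u u' : ℝ → ℝ}
    (h : GS (4 * π ^ 2 * ε ^ 2 / 5) μ u u') :
    ContDiff ℝ 2 (FF u N i) ∧ ∀ p, Lop ε r (FF u N i) p = (-μ) * FF u N i p := by
  have hq : 0 < 4 * π ^ 2 * ε ^ 2 / 5 := by positivity
  set q := 4 * π ^ 2 * ε ^ 2 / 5 with hqdef
  have hc : Continuous u := continuous_iff_continuousAt.2 fun x => (h.der x).continuousAt
  have hc' : Continuous u' := continuous_iff_continuousAt.2 fun x => (h.der' x).continuousAt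
  have hc'' : Continuous (upp q μ u) := by
    unfold upp
    have := Real.continuous_cosh
    fun_prop
  obtain ⟨h1, h2, h3⟩ := series_C2 (fun k : ℤ => ww u (i + k * N)) (fun k : ℤ => ww' u u' (i + k * N))
    (fun k : ℤ => ww'' u u' (upp q μ u) (i + k * N)) (fun k p => ww_hasFDerivAt h.der _ p)
    (fun k p => ww'_hasFDerivAt h.der h.der' _ p) (fun k => ww''_continuous hc hc' hc'' _)
    (ww_bounds_idx hN i hq h)
  refine ⟨h1, fun p => ?_⟩
  have s0 := h3 (e4 0) p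
  have s1 := (h3 (e4 1) p).mul_left (ε ^ 2 * exp (-(2 * p 0)))
  have s2 := (h3 (e4 2) p).mul_left (ε ^ 2 * exp (2 * p 0))
  have s3 := (h3 (e4 3) p).mul_left ((r ^ 2)⁻¹)
  have s := ((s0.add s1).add s2).add s3
  have s' := (h2 p).mul_left (-μ)
  have key : ∀ k : ℤ, ww'' u u' (upp q μ u) (i + k * N) p (e4 0) (e4 0) +
      ε ^ 2 * exp (-(2 * p 0)) * ww'' u u' (upp q μ u) (i + k * N) p (e4 1) (e4 1) +
      ε ^ 2 * exp (2 * p 0) * ww'' u u' (upp q μ u) (i + k * N) p (e4 2) (e4 2) +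
      (r ^ 2)⁻¹ * ww'' u u' (upp q μ u) (i + k * N) p (e4 3) (e4 3) = (-μ) * ww u (i + k * N) p := by
    intro k
    obtain ⟨d0, d1, d2, d3⟩ := ww''_dir (q := q) (μ := μ) (u := u) (u' := u') (i + k * N) p
    rw [d0, d1, d2, d3]
    set j := i + k * N with hj
    have hA : Aj j ^ 2 = exp (2 * (j * tau)) / 5 := by
      unfold Aj
      rw [div_pow, Real.sq_sqrt (by norm_num), ← Real.exp_nat_mul]
      norm_num
    have hB : Bj j ^ 2 = exp (-(2 * (j * tau))) / 5 := by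
      unfold Bj
      rw [neg_sq, div_pow, Real.sq_sqrt (by norm_num), ← Real.exp_nat_mul]
      congr 2
      push_cast
      ring
    have hcosh : 2 * Real.cosh (2 * (p 0 - j * tau)) =
        exp (2 * p 0) * exp (-(2 * (j * tau))) + exp (-(2 * p 0)) * exp (2 * (j * tau)) := by
      rw [Real.cosh_eq, ← Real.exp_add, ← Real.exp_add]
      have e1 : 2 * (p 0 - j * tau) = 2 * p 0 + -(2 * (j * tau)) := by ring
      have e2 : -(2 * (p 0 - j * tau)) = -(2 * p 0) + 2 * (j * tau) := by ring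
      rw [e2, e1]
      ring
    have hupp : upp q μ u (p 0 - j * tau) * cos (th j p) =
        (q * (2 * Real.cosh (2 * (p 0 - j * tau))) - μ) * ww u j p := by
      unfold upp ww
      ring
    have eA : (2 * π * Aj j) ^ 2 = 4 * π ^ 2 * (exp (2 * (j * tau)) / 5) := by
      rw [mul_pow, hA]; ring
    have eB : (2 * π * Bj j) ^ 2 = 4 * π ^ 2 * (exp (-(2 * (j * tau))) / 5) := by
      rw [mul_pow, hB]; ring
    rw [hupp, hcosh, eA, eB, hqdef]
    ring
  have s'' : HasSum (fun k : ℤ => (-μ) * ww u (i + k * N) p)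
      (D2 (e4 0) (fun p => ∑' k : ℤ, ww u (i + k * N) p) p +
        ε ^ 2 * exp (-(2 * p 0)) * D2 (e4 1) (fun p => ∑' k : ℤ, ww u (i + k * N) p) p +
        ε ^ 2 * exp (2 * p 0) * D2 (e4 2) (fun p => ∑' k : ℤ, ww u (i + k * N) p) p +
        (r ^ 2)⁻¹ * D2 (e4 3) (fun p => ∑' k : ℤ, ww u (i + k * N) p) p) := by
    refine s.congr_fun ?_
    intro k
    exact (key k).symm
  exact s''.unique s'

end Pool.Agent.W_MP_416086_gt
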