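import Mathlib

open Set Filter Topology MeasureTheory

namespace W416086Ground

/-- Volterra iterates. -/
noncomputable def F (W : ℝ → ℝ) : ℕ → ℝ → ℝ
  | 0 => fun _ => 1
  | n+1 => fun x => ∫ t in (0:ℝ)..x, ∫ s in (0:ℝ)..t, W s * F W n s

noncomputable def G (W : ℝ → ℝ) (n : ℕ) : ℝ → ℝ := fun t => ∫ s in (0:ℝ)..t, W s * F W n s

lemma F_zero (W : ℝ → ℝ) (x : ℝ) : F W 0 x = 1 := rfl

lemma F_succ (W : ℝ → ℝ) (n : ℕ) (x : ℝ) : F W (n+1) x = ∫ t in (0:ℝ)..x, G W n t := rfl

lemma F_continuous {W : ℝ → ℝ} (hW : Continuous W) (n : ℕ) : Continuous (F W n) := by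
  induction n with
  | zero => exact continuous_const
  | succ n ih =>
    have h1 : Continuous (G W n) := by
      rw [continuous_iff_continuousAt]
      intro x
      exact (Continuous.integral_hasStrictDerivAt (hW.mul ih) 0 x).hasDerivAt.continuousAt
    rw [continuous_iff_continuousAt]
    intro x
    exact (Continuous.integral_hasStrictDerivAt h1 0 x).hasDerivAt.continuousAt

lemma G_hasDerivAt {W : ℝ → ℝ} (hW : Continuous W) (n : ℕ) (x : ℝ) :
    HasDerivAt (G W n) (W x * F W n x) x :=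
  (Continuous.integral_hasStrictDerivAt (hW.mul (F_continuous hW n)) 0 x).hasDerivAt

lemma G_continuous {W : ℝ → ℝ} (hW : Continuous W) (n : ℕ) : Continuous (G W n) := by
  rw [continuous_iff_continuousAt]
  intro x
  exact (G_hasDerivAt hW n x).continuousAt

lemma F_hasDerivAt {W : ℝ → ℝ} (hW : Continuous W) (n : ℕ) (x : ℝ) :
    HasDerivAt (F W (n+1)) (G W n x) x :=
  (Continuous.integral_hasStrictDerivAt (G_continuous hW n) 0 x).hasDerivAt

lemma G_at_zero (W : ℝ → ℝ) (n : ℕ) : G W n 0 = 0 := by simp [G]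

lemma F_at_zero (W : ℝ → ℝ) (n : ℕ) : F W (n+1) 0 = 0 := by simp [F_succ]

lemma G_neg_aux {W : ℝ → ℝ} (n : ℕ) (h : ∀ x, F W n (-x) = F (fun s => W (-s)) n x) (x : ℝ) :
    G W n (-x) = - G (fun s => W (-s)) n x := by
  unfold G
  have h1 : ∫ s in (0:ℝ)..x, W (-s) * F (fun s => W (-s)) n s
      = ∫ s in (0:ℝ)..x, (fun y => W y * F W n y) (-s) := by
    congr 1
    funext s
    simp only [h s]
  rw [h1, intervalIntegral.integral_comp_neg (fun y => W y * F W n y)]
  rw [neg_zero, intervalIntegral.integral_symm]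

lemma F_neg (W : ℝ → ℝ) (n : ℕ) : ∀ x, F W n (-x) = F (fun s => W (-s)) n x := by
  induction n with
  | zero => intro x; rfl
  | succ n ih =>
    intro x
    rw [F_succ, F_succ]
    have h1 : ∫ t in (0:ℝ)..x, G (fun s => W (-s)) n t
        = - ∫ t in (0:ℝ)..x, (fun y => G W n y) (-t) := by
      rw [← intervalIntegral.integral_neg]
      congr 1
      funext t
      simp only [G_neg_aux n ih t, neg_neg]
    rw [h1, intervalIntegral.integral_comp_neg (fun y => G W n y)]
    rw [neg_zero, intervalIntegral.integral_symm]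

lemma G_neg (W : ℝ → ℝ) (n : ℕ) (x : ℝ) :
    G W n (-x) = - G (fun s => W (-s)) n x := G_neg_aux n (F_neg W n) x

lemma bounds_pos {W : ℝ → ℝ} (hW : Continuous W) {R K c : ℝ} (hc : 0 < c)
    (hK : ∀ s ∈ Icc (0:ℝ) R, |W s| ≤ K) (hKc : K ≤ c ^ 2 / 2) (n : ℕ) :
    (∀ x ∈ Icc (0:ℝ) R, |F W n x| ≤ (1/2) ^ n * Real.exp (c * x)) ∧
    (∀ x ∈ Icc (0:ℝ) R, |G W n x| ≤ (c / 2) * (1/2) ^ n * Real.exp (c * x)) := by
  have hder : ∀ (A x : ℝ), HasDerivAt (fun y => A * Real.exp (c * y)) (A * c * Real.exp (c * x)) x := by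
    intro A x
    have h1 : HasDerivAt (fun y : ℝ => c * y) c x := by
      simpa using (hasDerivAt_id x).const_mul c
    have h2 := (h1.exp).const_mul A
    exact h2.congr_deriv (by ring)
  have stepG : ∀ n, (∀ x ∈ Icc (0:ℝ) R, |F W n x| ≤ (1/2) ^ n * Real.exp (c * x)) →
      (∀ x ∈ Icc (0:ℝ) R, |G W n x| ≤ (c / 2) * (1/2) ^ n * Real.exp (c * x)) := by
    intro n hn
    have := image_norm_le_of_norm_deriv_right_le_deriv_boundary (f := G W n)
      (f' := fun x => W x * F W n x) (a := 0) (b := R)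
      (B := fun y => (c / 2) * (1/2) ^ n * Real.exp (c * y))
      (B' := fun y => (c / 2) * (1/2) ^ n * c * Real.exp (c * y))
      (G_continuous hW n).continuousOn
      (fun x _ => (G_hasDerivAt hW n x).hasDerivWithinAt)
      (by rw [G_at_zero, norm_zero]; positivity)
      (fun x => hder _ x)
      (by
        intro x hx
        have hx' : x ∈ Icc (0:ℝ) R := ⟨hx.1, hx.2.le⟩
        have e1 := hn x hx'
        have e2 := hK x hx'
        rw [Real.norm_eq_abs, abs_mul]
        calc |W x| * |F W n x| ≤ (c^2/2) * ((1/2) ^ n * Real.exp (c * x)) :=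
              mul_le_mul (e2.trans hKc) e1 (abs_nonneg _) (by positivity)
          _ = _ := by ring)
    intro x hx
    have := this hx
    rwa [Real.norm_eq_abs] at this
  have stepF : ∀ n, (∀ x ∈ Icc (0:ℝ) R, |G W n x| ≤ (c / 2) * (1/2) ^ n * Real.exp (c * x)) →
      (∀ x ∈ Icc (0:ℝ) R, |F W (n+1) x| ≤ (1/2) ^ (n+1) * Real.exp (c * x)) := by
    intro n hn
    have := image_norm_le_of_norm_deriv_right_le_deriv_boundary (f := F W (n+1))
      (f' := fun x => G W n x) (a := 0) (b := R)
      (B := fun y => (1/2) ^ (n+1) * Real.exp (c * y))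
      (B' := fun y => (1/2) ^ (n+1) * c * Real.exp (c * y))
      (F_continuous hW (n+1)).continuousOn
      (fun x _ => (F_hasDerivAt hW n x).hasDerivWithinAt)
      (by rw [F_at_zero, norm_zero]; positivity)
      (fun x => hder _ x)
      (by
        intro x hx
        have hx' : x ∈ Icc (0:ℝ) R := ⟨hx.1, hx.2.le⟩
        have e1 := hn x hx'
        rw [Real.norm_eq_abs]
        refine e1.trans (le_of_eq ?_)
        ring)
    intro x hx
    have := this hx
    rwa [Real.norm_eq_abs] at this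
  induction n with
  | zero =>
    have h0 : ∀ x ∈ Icc (0:ℝ) R, |F W 0 x| ≤ (1/2) ^ 0 * Real.exp (c * x) := by
      intro x hx
      rw [F_zero, abs_one, pow_zero, one_mul]
      exact Real.one_le_exp (mul_nonneg hc.le hx.1)
    exact ⟨h0, stepG 0 h0⟩
  | succ n ih =>
    have h1 := stepF n ih.2
    exact ⟨h1, stepG _ h1⟩

lemma bounds {W : ℝ → ℝ} (hW : Continuous W) (R : ℝ) :
    ∃ c : ℝ, 0 < c ∧ ∀ n : ℕ, ∀ x ∈ Ioo (-R) R,
      |F W n x| ≤ (1/2) ^ n * Real.exp (c * R) ∧
      |G W n x| ≤ (c / 2) * (1/2) ^ n * Real.exp (c * R) := by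
  obtain ⟨K, hK⟩ : ∃ K, ∀ s ∈ Icc (-R) R, |W s| ≤ K := by
    obtain ⟨K, hK⟩ := (isCompact_Icc (a := -R) (b := R)).exists_bound_of_continuousOn hW.continuousOn
    exact ⟨K, fun s hs => by simpa [Real.norm_eq_abs] using hK s hs⟩
  set c : ℝ := |K| + 2 with hc
  have hc0 : 0 < c := by positivity
  have hKc : K ≤ c ^ 2 / 2 := by
    have h1 : K ≤ |K| := le_abs_self K
    have h2 : 0 ≤ |K| := abs_nonneg K
    rw [hc]
    nlinarith
  refine ⟨c, hc0, ?_⟩
  intro n x hx
  rcases le_total 0 x with h0 | h0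
  · have hb := bounds_pos (W := W) hW (R := R) (K := K) (c := c) hc0
      (fun s hs => hK s ⟨by linarith [hs.1, hs.2], hs.2⟩) hKc n
    have hx' : x ∈ Icc (0:ℝ) R := ⟨h0, hx.2.le⟩
    have he : Real.exp (c * x) ≤ Real.exp (c * R) :=
      Real.exp_le_exp.mpr (mul_le_mul_of_nonneg_left hx.2.le hc0.le)
    exact ⟨(hb.1 x hx').trans (mul_le_mul_of_nonneg_left he (by positivity)),
      (hb.2 x hx').trans (mul_le_mul_of_nonneg_left he (by positivity))⟩
  · have hW' : Continuous (fun s => W (-s)) := hW.comp continuous_neg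
    have hb := bounds_pos (W := fun s => W (-s)) hW' (R := R) (K := K) (c := c) hc0
      (fun s hs => hK (-s) ⟨by linarith [hs.1, hs.2], by linarith [hs.1, hs.2]⟩) hKc n
    have hx' : -x ∈ Icc (0:ℝ) R := ⟨by linarith, by linarith [hx.1]⟩
    have he : Real.exp (c * (-x)) ≤ Real.exp (c * R) :=
      Real.exp_le_exp.mpr (mul_le_mul_of_nonneg_left hx'.2 hc0.le)
    have e1 : F W n x = F (fun s => W (-s)) n (-x) := by
      rw [← F_neg W n (-x), neg_neg]
    have e2 : G W n x = - G (fun s => W (-s)) n (-x) := by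
      rw [← G_neg W n (-x), neg_neg]
    rw [e1, e2, abs_neg]
    exact ⟨(hb.1 _ hx').trans (mul_le_mul_of_nonneg_left he (by positivity)),
      (hb.2 _ hx').trans (mul_le_mul_of_nonneg_left he (by positivity))⟩

lemma summable_geo (A : ℝ) : Summable (fun n : ℕ => A * (1/2 : ℝ) ^ n) :=
  (summable_geometric_of_lt_one (by norm_num) (by norm_num)).mul_left A

/-- The solution of `u'' = W u`, `u 0 = 1`, `u' 0 = 0`. -/
noncomputable def sol (W : ℝ → ℝ) (x : ℝ) : ℝ := 1 + ∑' n, F W (n+1) x

noncomputable def sol' (W : ℝ → ℝ) (x : ℝ) : ℝ := ∑' n, G W n x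

lemma summable_F {W : ℝ → ℝ} (hW : Continuous W) (x : ℝ) : Summable (fun n => F W n x) := by
  obtain ⟨c, hc, hb⟩ := bounds hW (|x| + 1)
  refine Summable.of_norm_bounded (summable_geo (Real.exp (c * (|x| + 1)))) (fun n => ?_)
  have hx : x ∈ Ioo (-(|x| + 1)) (|x| + 1) := by
    constructor
    · linarith [neg_abs_le x]
    · linarith [le_abs_self x]
  have := (hb n x hx).1
  rw [Real.norm_eq_abs]
  refine this.trans (le_of_eq ?_)
  ring

lemma summable_G {W : ℝ → ℝ} (hW : Continuous W) (x : ℝ) : Summable (fun n => G W n x) := by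
  obtain ⟨c, hc, hb⟩ := bounds hW (|x| + 1)
  refine Summable.of_norm_bounded (summable_geo ((c/2) * Real.exp (c * (|x| + 1)))) (fun n => ?_)
  have hx : x ∈ Ioo (-(|x| + 1)) (|x| + 1) := by
    constructor
    · linarith [neg_abs_le x]
    · linarith [le_abs_self x]
  have := (hb n x hx).2
  rw [Real.norm_eq_abs]
  refine this.trans (le_of_eq ?_)
  ring

lemma sol_hasDerivAt {W : ℝ → ℝ} (hW : Continuous W) (x : ℝ) :
    HasDerivAt (sol W) (sol' W x) x := by
  obtain ⟨c, hc, hb⟩ := bounds hW (|x| + 1)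
  have hx : x ∈ Ioo (-(|x| + 1)) (|x| + 1) := by
    constructor
    · linarith [neg_abs_le x]
    · linarith [le_abs_self x]
  have h := hasDerivAt_tsum_of_isPreconnected (𝕜 := ℝ)
    (g := fun n => F W (n+1)) (g' := fun n => G W n)
    (u := fun n => ((c/2) * Real.exp (c * (|x| + 1))) * (1/2 : ℝ)^n)
    (summable_geo _) isOpen_Ioo isPreconnected_Ioo (t := Ioo (-(|x| + 1)) (|x| + 1))
    (fun n y _ => F_hasDerivAt hW n y)
    (fun n y hy => by
      have := (hb n y hy).2
      rw [Real.norm_eq_abs]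
      refine this.trans (le_of_eq ?_)
      ring) hx ((summable_nat_add_iff 1).mpr (summable_F hW x)) hx
  exact h.const_add 1

lemma sol'_hasDerivAt {W : ℝ → ℝ} (hW : Continuous W) (x : ℝ) :
    HasDerivAt (sol' W) (W x * sol W x) x := by
  obtain ⟨c, hc, hb⟩ := bounds hW (|x| + 1)
  have hx : x ∈ Ioo (-(|x| + 1)) (|x| + 1) := by
    constructor
    · linarith [neg_abs_le x]
    · linarith [le_abs_self x]
  obtain ⟨K, hK⟩ : ∃ K, ∀ s ∈ Icc (-(|x| + 1)) (|x| + 1), |W s| ≤ K := by
    obtain ⟨K, hK⟩ := (isCompact_Icc (a := -(|x| + 1)) (b := |x| + 1)).exists_bound_of_continuousOn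
      hW.continuousOn
    exact ⟨K, fun s hs => by simpa [Real.norm_eq_abs] using hK s hs⟩
  have h := hasDerivAt_tsum_of_isPreconnected (𝕜 := ℝ)
    (g := fun n => G W n) (g' := fun n y => W y * F W n y)
    (u := fun n => (K * Real.exp (c * (|x| + 1))) * (1/2 : ℝ)^n)
    (summable_geo _) isOpen_Ioo isPreconnected_Ioo (t := Ioo (-(|x| + 1)) (|x| + 1))
    (fun n y _ => G_hasDerivAt hW n y)
    (fun n y hy => by
      have h1 := (hb n y hy).1
      have h2 := hK y ⟨hy.1.le, hy.2.le⟩
      rw [Real.norm_eq_abs, abs_mul]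
      have h3 : |W y| * |F W n y| ≤ K * ((1/2)^n * Real.exp (c * (|x| + 1))) :=
        mul_le_mul h2 h1 (abs_nonneg _) ((abs_nonneg _).trans h2)
      refine h3.trans (le_of_eq ?_)
      ring) hx (summable_G hW x) hx
  have e : W x * sol W x = ∑' n, W x * F W n x := by
    rw [tsum_mul_left]
    congr 1
    rw [sol, (summable_F hW x).tsum_eq_zero_add, F_zero]
  rw [e]
  exact h

lemma sol_zero {W : ℝ → ℝ} : sol W 0 = 1 := by
  simp [sol, F_at_zero]

lemma sol'_zero {W : ℝ → ℝ} : sol' W 0 = 0 := by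
  simp [sol', G_at_zero]

lemma sol_even {W : ℝ → ℝ} (he : ∀ s, W (-s) = W s) (x : ℝ) : sol W (-x) = sol W x := by
  have e : (fun s => W (-s)) = W := funext he
  unfold sol
  congr 1
  apply tsum_congr
  intro n
  rw [F_neg, e]

lemma sol'_odd {W : ℝ → ℝ} (he : ∀ s, W (-s) = W s) (x : ℝ) : sol' W (-x) = - sol' W x := by
  have e : (fun s => W (-s)) = W := funext he
  unfold sol'
  rw [← tsum_neg]
  apply tsum_congr
  intro n
  rw [G_neg, e]

lemma F_nonneg {W : ℝ → ℝ} (h0 : ∀ x, 0 ≤ W x) (n : ℕ) : ∀ x, 0 ≤ x → 0 ≤ F W n x := by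
  induction n with
  | zero => intro x _; rw [F_zero]; norm_num
  | succ n ih =>
    intro x hx
    rw [F_succ]
    apply intervalIntegral.integral_nonneg hx
    intro t ht
    apply intervalIntegral.integral_nonneg ht.1
    intro s hs
    exact mul_nonneg (h0 s) (ih s hs.1)

lemma one_le_sol {W : ℝ → ℝ} (h0 : ∀ x, 0 ≤ W x) (x : ℝ) (hx : 0 ≤ x) :
    1 ≤ sol W x := by
  unfold sol
  have : 0 ≤ ∑' n, F W (n+1) x := tsum_nonneg (fun n => F_nonneg h0 (n+1) x hx)
  linarith


/-! ### Grönwall-type estimate -/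

lemma gron {f1 f2 g : ℝ → ℝ} {K ε X : ℝ} (hK : 1 ≤ K) (hε : 0 ≤ ε)
    (h1 : ∀ x, HasDerivAt f1 (f2 x) x) (h2 : ∀ x, HasDerivAt f2 (g x) x)
    (hg : ∀ x ∈ Icc 0 X, |g x| ≤ K * |f1 x| + ε) (h10 : f1 0 = 0) (h20 : f2 0 = 0) :
    ∀ x ∈ Icc 0 X, |f1 x| ≤ ε * Real.exp (K * X) ∧ |f2 x| ≤ ε * Real.exp (K * X) := by
  have hder : ∀ x, HasDerivAt (fun y => (f1 y, f2 y)) (f2 x, g x) x :=
    fun x => (h1 x).prodMk (h2 x)
  have hcont : Continuous (fun y => (f1 y, f2 y)) := by
    rw [continuous_iff_continuousAt]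
    exact fun x => (hder x).continuousAt
  have key := norm_le_gronwallBound_of_norm_deriv_right_le (f := fun y => (f1 y, f2 y))
    (f' := fun x => (f2 x, g x)) (δ := 0) (K := K) (ε := ε) (a := 0) (b := X)
    hcont.continuousOn (fun x _ => (hder x).hasDerivWithinAt)
    (by simp [h10, h20])
    (by
      intro x hx
      have hx' : x ∈ Icc 0 X := ⟨hx.1, hx.2.le⟩
      have e1 : |f1 x| ≤ ‖(f1 x, f2 x)‖ := by
        exact norm_fst_le (f1 x, f2 x)
      have e2 : |f2 x| ≤ ‖(f1 x, f2 x)‖ := by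
        exact norm_snd_le (f1 x, f2 x)
      have e0 : 0 ≤ ‖(f1 x, f2 x)‖ := norm_nonneg _
      rw [Prod.norm_def]
      simp only [Real.norm_eq_abs]
      apply max_le
      · nlinarith
      · have := hg x hx'
        nlinarith)
  intro x hx
  have hk := key x hx
  have hKpos : 0 < K := by linarith
  rw [gronwallBound_of_K_ne_0 hKpos.ne'] at hk
  simp only [sub_zero, zero_mul, zero_add] at hk
  have hexp : Real.exp (K * x) ≤ Real.exp (K * X) :=
    Real.exp_le_exp.mpr (mul_le_mul_of_nonneg_left hx.2 hKpos.le)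
  have hb : ε / K * (Real.exp (K * x) - 1) ≤ ε * Real.exp (K * X) := by
    have h3 : ε / K ≤ ε := div_le_self hε hK
    have h4 : 0 ≤ Real.exp (K * x) - 1 := by
      have := Real.one_le_exp (mul_nonneg hKpos.le hx.1)
      linarith
    calc ε / K * (Real.exp (K * x) - 1) ≤ ε * (Real.exp (K * x) - 1) :=
          mul_le_mul_of_nonneg_right h3 h4
      _ ≤ ε * Real.exp (K * X) := mul_le_mul_of_nonneg_left (by linarith) hε
  have e1 : |f1 x| ≤ ‖(f1 x, f2 x)‖ := by
    exact norm_fst_le (f1 x, f2 x)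
  have e2 : |f2 x| ≤ ‖(f1 x, f2 x)‖ := by
    exact norm_snd_le (f1 x, f2 x)
  exact ⟨e1.trans (hk.trans hb), e2.trans (hk.trans hb)⟩

lemma mono_aux {f f' : ℝ → ℝ} {a b : ℝ} (hab : a ≤ b) (hf : ∀ x, HasDerivAt f (f' x) x)
    (h : ∀ x ∈ Icc a b, 0 ≤ f' x) : f a ≤ f b := by
  have hm : MonotoneOn f (Icc a b) := by
    apply monotoneOn_of_deriv_nonneg (convex_Icc a b)
    · exact fun x _ => (hf x).continuousAt.continuousWithinAt
    · exact fun x _ => (hf x).differentiableAt.differentiableWithinAt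
    · intro x hx
      rw [(hf x).deriv]
      exact h x (interior_subset hx)
  exact hm (left_mem_Icc.mpr hab) (right_mem_Icc.mpr hab) hab

/-- uniqueness -/
lemma uniq {W u u' : ℝ → ℝ} (hW : Continuous W) (h1 : ∀ x, HasDerivAt u (u' x) x)
    (h2 : ∀ x, HasDerivAt u' (W x * u x) x) {x0 : ℝ} (hx0 : 0 ≤ x0) (hu : u x0 = 0)
    (hu' : u' x0 = 0) : u 0 = 0 := by
  obtain ⟨K, hK⟩ := (isCompact_Icc (a := 0) (b := x0)).exists_bound_of_continuousOn
    hW.continuousOn
  have hsub : ∀ t : ℝ, HasDerivAt (fun t => x0 - t) (-1) t := by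
    intro t
    simpa using (hasDerivAt_id t).const_sub x0
  have d1 : ∀ t, HasDerivAt (fun t => u (x0 - t)) (-(u' (x0 - t))) t := by
    intro t
    have := (h1 (x0 - t)).comp t (hsub t)
    simpa [Function.comp_def] using this
  have d2 : ∀ t, HasDerivAt (fun t => -(u' (x0 - t))) (W (x0 - t) * u (x0 - t)) t := by
    intro t
    have := ((h2 (x0 - t)).comp t (hsub t)).neg
    exact this.congr_deriv (by ring)
  have key := gron (K := max K 1) (ε := 0) (X := x0) (le_max_right _ _) le_rfl d1 d2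
    (by
      intro t ht
      have ht' : x0 - t ∈ Icc 0 x0 := ⟨by linarith [ht.2], by linarith [ht.1]⟩
      have := hK _ ht'
      rw [Real.norm_eq_abs] at this
      rw [abs_mul, add_zero]
      exact mul_le_mul_of_nonneg_right (this.trans (le_max_left _ _)) (abs_nonneg _))
    (by simpa using hu) (by simpa using hu')
  have := (key x0 (right_mem_Icc.mpr hx0)).1
  simp only [sub_self, zero_mul] at this
  exact abs_nonpos_iff.mp this

lemma grow {W u u' : ℝ → ℝ} (h1 : ∀ x, HasDerivAt u (u' x) x)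
    (h2 : ∀ x, HasDerivAt u' (W x * u x) x) {x2 : ℝ} (hu : 0 < u x2) (hu' : 0 < u' x2)
    (hW : ∀ x, x2 ≤ x → 0 ≤ W x) : ∀ x, x2 ≤ x → 0 < u x := by
  have hp : ∀ x, HasDerivAt (fun y => u y * u' y) (u' x * u' x + u x * (W x * u x)) x :=
    fun x => (h1 x).mul (h2 x)
  have hne : ∀ x, x2 ≤ x → u x ≠ 0 := by
    intro x hx h0
    have := mono_aux hx hp (fun y hy => by
      have e1 := hW y hy.1
      have e2 : u y * (W y * u y) = W y * (u y * u y) := by ring
      rw [e2]
      exact add_nonneg (mul_self_nonneg _) (mul_nonneg e1 (mul_self_nonneg _)))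
    simp only [h0, zero_mul] at this
    have h3 := mul_pos hu hu'
    linarith
  intro x hx
  by_contra hneg
  have hneg' : u x ≤ 0 := not_lt.mp hneg
  have hc : ContinuousOn u (Icc x2 x) := fun y _ => (h1 y).continuousAt.continuousWithinAt
  have := intermediate_value_Icc' hx hc
  obtain ⟨y, hy, hy0⟩ := this ⟨hneg', hu.le⟩
  exact hne y hy.1 hy0

/-! ### The family `u_μ` -/

section family

variable (q : ℝ)

noncomputable def V (x : ℝ) : ℝ := 2 * q * Real.cosh (2 * x)

lemma V_continuous : Continuous (V q) := by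
  unfold V
  exact continuous_const.mul (Real.continuous_cosh.comp (continuous_const.mul continuous_id))

noncomputable def U (μ : ℝ) : ℝ → ℝ := sol (fun x => V q x - μ)
noncomputable def U' (μ : ℝ) : ℝ → ℝ := sol' (fun x => V q x - μ)

lemma Wc (μ : ℝ) : Continuous (fun x => V q x - μ) := (V_continuous q).sub continuous_const

lemma U_der (μ x : ℝ) : HasDerivAt (U q μ) (U' q μ x) x := sol_hasDerivAt (Wc q μ) x
lemma U'_der (μ x : ℝ) : HasDerivAt (U' q μ) ((V q x - μ) * U q μ x) x :=
  sol'_hasDerivAt (Wc q μ) x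
lemma U_zero (μ : ℝ) : U q μ 0 = 1 := sol_zero
lemma U'_zero (μ : ℝ) : U' q μ 0 = 0 := sol'_zero
lemma U_cont (μ : ℝ) : Continuous (U q μ) := by
  rw [continuous_iff_continuousAt]; exact fun x => (U_der q μ x).continuousAt
lemma U'_cont (μ : ℝ) : Continuous (U' q μ) := by
  rw [continuous_iff_continuousAt]; exact fun x => (U'_der q μ x).continuousAt

lemma V_even (x : ℝ) : V q (-x) = V q x := by
  unfold V
  rw [mul_neg, Real.cosh_neg]

lemma U_even (μ x : ℝ) : U q μ (-x) = U q μ x :=
  sol_even (fun s => by simp only [V_even]) x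

lemma U'_odd (μ x : ℝ) : U' q μ (-x) = - U' q μ x :=
  sol'_odd (fun s => by simp only [V_even]) x

/-- continuous dependence on `μ`, uniformly on `[0, X]` -/
lemma cont_dep (μ0 X ε : ℝ) (hX : 0 ≤ X) (hε : 0 < ε) :
    ∃ δ > 0, ∀ μ, |μ - μ0| < δ → ∀ x ∈ Icc 0 X,
      |U q μ x - U q μ0 x| ≤ ε ∧ |U' q μ x - U' q μ0 x| ≤ ε := by
  obtain ⟨B, hB⟩ := (isCompact_Icc (a := 0) (b := X)).exists_bound_of_continuousOn
    (U_cont q μ0).continuousOn
  obtain ⟨K0, hK0⟩ := (isCompact_Icc (a := 0) (b := X)).exists_bound_of_continuousOn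
    (Wc q μ0).continuousOn
  have hB0 : 0 ≤ B := (norm_nonneg _).trans (hB 0 (left_mem_Icc.mpr hX))
  set K : ℝ := |K0| + 1 + 1 with hKdef
  have hK1 : 1 ≤ K := by have := abs_nonneg K0; rw [hKdef]; linarith
  set E : ℝ := Real.exp (K * X) with hE
  have hEpos : 0 < E := Real.exp_pos _
  set δ : ℝ := min 1 (ε / ((B + 1) * E)) with hδ
  have hδpos : 0 < δ := lt_min one_pos (by positivity)
  refine ⟨δ, hδpos, ?_⟩
  intro μ hμ
  have hμ1 : |μ - μ0| < 1 := hμ.trans_le (min_le_left _ _)
  have hμ2 : |μ - μ0| ≤ ε / ((B + 1) * E) := (hμ.trans_le (min_le_right _ _)).le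
  have key := gron (f1 := fun x => U q μ x - U q μ0 x) (f2 := fun x => U' q μ x - U' q μ0 x)
    (g := fun x => (V q x - μ) * U q μ x - (V q x - μ0) * U q μ0 x)
    (K := K) (ε := |μ - μ0| * B) (X := X) hK1 (by positivity)
    (fun x => (U_der q μ x).sub (U_der q μ0 x)) (fun x => (U'_der q μ x).sub (U'_der q μ0 x))
    (by
      intro x hx
      have hb := hB x hx
      have hk := hK0 x hx
      rw [Real.norm_eq_abs] at hb hk
      have e : (V q x - μ) * U q μ x - (V q x - μ0) * U q μ0 x
          = (V q x - μ) * (U q μ x - U q μ0 x) - (μ - μ0) * U q μ0 x := by ring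
      rw [e]
      have h1 : |V q x - μ| ≤ K := by
        have : V q x - μ = (V q x - μ0) - (μ - μ0) := by ring
        rw [this]
        refine (abs_sub _ _).trans ?_
        have := le_abs_self K0
        rw [hKdef]
        linarith
      calc |(V q x - μ) * (U q μ x - U q μ0 x) - (μ - μ0) * U q μ0 x|
          ≤ |(V q x - μ) * (U q μ x - U q μ0 x)| + |(μ - μ0) * U q μ0 x| := abs_sub _ _
        _ = |V q x - μ| * |U q μ x - U q μ0 x| + |μ - μ0| * |U q μ0 x| := by
            rw [abs_mul, abs_mul]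
        _ ≤ K * |U q μ x - U q μ0 x| + |μ - μ0| * B := by
            gcongr)
    (by simp [U_zero]) (by simp [U'_zero])
  have hfin : |μ - μ0| * B * Real.exp (K * X) ≤ ε := by
    rw [← hE]
    calc |μ - μ0| * B * E ≤ (ε / ((B + 1) * E)) * (B + 1) * E := by
          gcongr
          linarith
      _ = ε := by
          have : (B + 1) * E ≠ 0 := by positivity
          field_simp
  intro x hx
  have := key x hx
  exact ⟨this.1.trans hfin, this.2.trans hfin⟩

/-- comparison with `cos (π x / L)` -/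
lemma upper {q L μ : ℝ} (hq : 0 < q) (hL : 0 < L)
    (h : 2 * q * Real.cosh L ≤ Real.pi ^ 2 / L ^ 2)
    (hpos : ∀ x, 0 ≤ x → 0 < U q μ x) : μ ≤ 2 * Real.pi ^ 2 / L ^ 2 := by
  by_contra hlt
  have hlt' : 2 * Real.pi ^ 2 / L ^ 2 < μ := not_le.mp hlt
  set a : ℝ := Real.pi / L with ha
  have hapos : 0 < a := div_pos Real.pi_pos hL
  have hcos : ∀ x, HasDerivAt (fun y => Real.cos (a * y)) (-(a * Real.sin (a * x))) x := by
    intro x
    have h1 : HasDerivAt (fun y : ℝ => a * y) a x := by
      simpa using (hasDerivAt_id x).const_mul a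
    have := h1.cos
    exact this.congr_deriv (by ring)
  have hsin : ∀ x, HasDerivAt (fun y => Real.sin (a * y)) (a * Real.cos (a * x)) x := by
    intro x
    have h1 : HasDerivAt (fun y : ℝ => a * y) a x := by
      simpa using (hasDerivAt_id x).const_mul a
    have := h1.sin
    exact this.congr_deriv (by ring)
  have hw : ∀ x, HasDerivAt (fun y => U q μ y * (-(a * Real.sin (a * y))) - U' q μ y * Real.cos (a * y))
      (U q μ x * Real.cos (a * x) * (μ - V q x - a ^ 2)) x := by
    intro x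
    have h1 := (U_der q μ x).mul (((hsin x).const_mul a).neg)
    have h2 := (U'_der q μ x).mul (hcos x)
    have h3 := h1.sub h2
    refine h3.congr_deriv ?_
    rw [Pi.neg_apply]
    ring
  have hle := mono_aux (a := 0) (b := L / 2) (by linarith) hw (by
    intro x hx
    have hc : 0 ≤ Real.cos (a * x) := by
      apply Real.cos_nonneg_of_neg_pi_div_two_le_of_le
      · have := mul_nonneg hapos.le hx.1
        have := Real.pi_pos
        linarith
      · have h4 : a * x ≤ a * (L / 2) := mul_le_mul_of_nonneg_left hx.2 hapos.le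
        have h5 : a * (L / 2) = Real.pi / 2 := by rw [ha]; field_simp
        linarith
    have hV : V q x ≤ Real.pi ^ 2 / L ^ 2 := by
      have h6 : Real.cosh (2 * x) ≤ Real.cosh L := by
        rw [Real.cosh_le_cosh, abs_of_nonneg (by linarith [hx.1]), abs_of_nonneg hL.le]
        linarith [hx.2]
      unfold V
      exact (mul_le_mul_of_nonneg_left h6 (by positivity)).trans h
    have ha2 : a ^ 2 = Real.pi ^ 2 / L ^ 2 := by rw [ha, div_pow]
    have h7 : 0 ≤ μ - V q x - a ^ 2 := by
      rw [ha2]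
      have : 2 * Real.pi ^ 2 / L ^ 2 = Real.pi ^ 2 / L ^ 2 + Real.pi ^ 2 / L ^ 2 := by ring
      linarith
    exact mul_nonneg (mul_nonneg (hpos x hx.1).le hc) h7)
  have e5 : a * (L / 2) = Real.pi / 2 := by rw [ha]; field_simp
  simp only [mul_zero, Real.sin_zero, neg_zero, Real.cos_zero, U'_zero, mul_one, sub_zero, e5,
    Real.sin_pi_div_two, Real.cos_pi_div_two] at hle
  have := hpos (L / 2) (by linarith)
  nlinarith

lemma V_large {q : ℝ} (hq : 0 < q) (B : ℝ) : ∃ X, 0 ≤ X ∧ ∀ x, X ≤ x → B ≤ V q x := by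
  refine ⟨|B| / q, by positivity, ?_⟩
  intro x hx
  have h1 : Real.cosh (2 * x) ≥ (2 * x + 1) / 2 := by
    rw [Real.cosh_eq]
    have h2 := Real.add_one_le_exp (2 * x)
    have h3 := Real.exp_pos (-(2 * x))
    linarith
  have h4 : |B| ≤ q * x := by
    have := (div_le_iff₀ hq).mp hx
    linarith
  have h5 := le_abs_self B
  have h6 : 2 * q * ((2 * x + 1) / 2) ≤ 2 * q * Real.cosh (2 * x) :=
    mul_le_mul_of_nonneg_left h1 (by positivity)
  have h7 : 0 ≤ q * x := (abs_nonneg B).trans h4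
  unfold V
  nlinarith

end family

/-- ground state of the modified Mathieu operator, by shooting. -/
theorem ground_state (q L : ℝ) (hq : 0 < q) (hL : 0 < L)
    (h : 2 * q * Real.cosh L ≤ Real.pi ^ 2 / L ^ 2) :
    ∃ (μ : ℝ) (u u' : ℝ → ℝ), 0 < μ ∧ μ ≤ 2 * Real.pi ^ 2 / L ^ 2 ∧ (∀ x, 0 < u x) ∧
      (∀ x, HasDerivAt u (u' x) x) ∧
      (∀ x, HasDerivAt u' ((2 * q * Real.cosh (2 * x) - μ) * u x) x) ∧
      (∀ M : ℝ, ∃ C : ℝ, ∀ x, |u x| ≤ C * Real.exp (-M * |x|) ∧
        |u' x| ≤ C * Real.exp (-M * |x|)) := by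
  set P : Set ℝ := {μ | ∀ x, 0 ≤ x → 0 < U q μ x} with hP
  have hmem : 2 * q ∈ P := by
    intro x hx
    have h1 : ∀ x, 0 ≤ V q x - 2 * q := by
      intro x
      unfold V
      have := Real.one_le_cosh (2 * x)
      nlinarith
    have := one_le_sol h1 x hx
    exact lt_of_lt_of_le one_pos this
  have hbdd : BddAbove P := ⟨2 * Real.pi ^ 2 / L ^ 2, fun μ hμ => upper hq hL h hμ⟩
  set μ : ℝ := sSup P with hμdef
  have hμge : 2 * q ≤ μ := le_csSup hbdd hmem
  have hμle : μ ≤ 2 * Real.pi ^ 2 / L ^ 2 := csSup_le ⟨_, hmem⟩ (fun μ hμ => upper hq hL h hμ)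
  -- nonneg
  have hnn : ∀ x, 0 ≤ x → 0 ≤ U q μ x := by
    intro x hx
    by_contra hneg
    have hneg' : U q μ x < 0 := not_le.mp hneg
    obtain ⟨δ, hδ, hd⟩ := cont_dep q μ x (-(U q μ x) / 2) hx (by linarith)
    obtain ⟨ν, hν, hν2⟩ := exists_lt_of_lt_csSup ⟨_, hmem⟩ (show μ - δ < sSup P by
      rw [← hμdef]; linarith)
    have hν3 : ν ≤ μ := le_csSup hbdd hν
    have := (hd ν (by rw [abs_lt]; constructor <;> linarith) x (right_mem_Icc.mpr hx)).1
    have h3 := hν x hx
    have h4 := (abs_le.mp this).2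
    linarith
  have hpos : ∀ x, 0 ≤ x → 0 < U q μ x := by
    intro x hx
    rcases (hnn x hx).lt_or_eq with h1 | h1
    · exact h1
    · exfalso
      have hx0 : 0 < x := by
        rcases hx.lt_or_eq with h2 | h2
        · exact h2
        · rw [← h2, U_zero] at h1
          norm_num at h1
      have hmin : IsLocalMin (U q μ) x := by
        filter_upwards [Ioi_mem_nhds hx0] with y hy
        rw [← h1]
        exact hnn y (le_of_lt hy)
      have hd := hmin.hasDerivAt_eq_zero (U_der q μ x)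
      have := uniq (Wc q μ) (U_der q μ) (U'_der q μ) hx h1.symm hd
      rw [U_zero] at this
      norm_num at this
  obtain ⟨x1, hx1, hV1⟩ := V_large hq (μ + 1)
  -- derivative nonpositive
  have hdn : ∀ x, x1 ≤ x → U' q μ x ≤ 0 := by
    intro x2 hx2
    by_contra hcon
    have hcon' : 0 < U' q μ x2 := not_le.mp hcon
    have hx20 : 0 ≤ x2 := hx1.trans hx2
    obtain ⟨y, hy, hymin⟩ := (isCompact_Icc (a := 0) (b := x2)).exists_isMinOn
      ⟨0, left_mem_Icc.mpr hx20⟩ (U_cont q μ).continuousOn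
    have hm : 0 < U q μ y := hpos y hy.1
    obtain ⟨δ, hδ, hd⟩ := cont_dep q μ x2 (min (U q μ y / 2) (U' q μ x2 / 2)) hx20
      (lt_min (by linarith) (by linarith))
    have hδ' : 0 < min (δ / 2) (1 / 2) := lt_min (by linarith) (by norm_num)
    have hδ1 : min (δ / 2) (1 / 2) ≤ δ / 2 := min_le_left _ _
    have hδ2 : min (δ / 2) (1 / 2) ≤ (1 / 2 : ℝ) := min_le_right _ _
    set ν : ℝ := μ + min (δ / 2) (1 / 2) with hν
    have hνd : |ν - μ| < δ := by
      rw [hν, add_sub_cancel_left, abs_of_pos hδ']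
      linarith
    have hd' := hd ν hνd
    have hp1 : ∀ x ∈ Icc 0 x2, 0 < U q ν x := by
      intro x hx
      have h1 := (hd' x hx).1
      have h2 : U q μ y ≤ U q μ x := hymin hx
      have h3 := (abs_le.mp h1).1
      have h4 := min_le_left (U q μ y / 2) (U' q μ x2 / 2)
      linarith
    have hp2 : 0 < U' q ν x2 := by
      have h1 := (hd' x2 (right_mem_Icc.mpr hx20)).2
      have h3 := (abs_le.mp h1).1
      have h4 := min_le_right (U q μ y / 2) (U' q μ x2 / 2)
      linarith
    have hνP : ν ∈ P := by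
      intro x hx
      rcases le_total x x2 with h5 | h5
      · exact hp1 x ⟨hx, h5⟩
      · refine grow (U_der q ν) (U'_der q ν) (hp1 x2 (right_mem_Icc.mpr hx20)) hp2 ?_ x h5
        intro z hz
        have := hV1 z (hx2.trans hz)
        linarith
    have := le_csSup hbdd hνP
    rw [← hμdef] at this
    linarith
  -- decay on the half line, M ≥ 1
  have hdec : ∀ M : ℝ, 1 ≤ M → ∃ C : ℝ, ∀ x, 0 ≤ x → |U q μ x| ≤ C * Real.exp (-M * x) ∧
      |U' q μ x| ≤ C * Real.exp (-M * x) := by
    intro M hM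
    have hM0 : 0 < M := by linarith
    obtain ⟨X0, hX0, hV0⟩ := V_large hq (μ + M ^ 2)
    set X : ℝ := max X0 x1 with hX
    have hXX0 : X0 ≤ X := le_max_left _ _
    have hXx1 : x1 ≤ X := le_max_right _ _
    have hX0' : 0 ≤ X := hX0.trans hXX0
    have hexpd : ∀ (A x : ℝ), HasDerivAt (fun y => Real.exp (A * y)) (A * Real.exp (A * x)) x := by
      intro A x
      have h1 : HasDerivAt (fun y : ℝ => A * y) A x := by
        simpa using (hasDerivAt_id x).const_mul A
      exact h1.exp.congr_deriv (by ring)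
    -- u is antitone beyond x1
    have hanti : ∀ a b, x1 ≤ a → a ≤ b → U q μ b ≤ U q μ a := by
      intro a b ha hab
      have := mono_aux (f := fun x => - U q μ x) (f' := fun x => - U' q μ x) hab
        (fun x => (U_der q μ x).neg) (fun x hx => by
          have := hdn x (ha.trans hx.1)
          linarith)
      linarith
    have hg : ∀ x, X ≤ x → U' q μ x + M * U q μ x ≤ 0 := by
      intro x3 hx3
      by_contra hcon
      have hg3 : 0 < U' q μ x3 + M * U q μ x3 := not_le.mp hcon
      set g3 := U' q μ x3 + M * U q μ x3 with hg3def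
      have hk : ∀ x, HasDerivAt (fun y => (U' q μ y + M * U q μ y) * Real.exp (-M * y))
          (((V q x - μ) - M ^ 2) * U q μ x * Real.exp (-M * x)) x := by
        intro x
        have h1 := ((U'_der q μ x).add ((U_der q μ x).const_mul M)).mul (hexpd (-M) x)
        refine h1.congr_deriv ?_
        simp only [Pi.add_apply]
        ring
      set x4 : ℝ := x3 + U q μ x1 / g3 with hx4
      have hu1 : 0 < U q μ x1 := hpos x1 hx1
      have hx34 : x3 ≤ x4 := by
        have : 0 < U q μ x1 / g3 := div_pos hu1 hg3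
        linarith
      have hmono := mono_aux hx34 hk (by
        intro x hx
        have h1 := hV0 x (hXX0.trans (hx3.trans hx.1))
        have h2 := hpos x (hX0'.trans (hx3.trans hx.1))
        have h3 : 0 ≤ (V q x - μ) - M ^ 2 := by linarith
        exact mul_nonneg (mul_nonneg h3 h2.le) (Real.exp_pos _).le)
      rw [← hg3def] at hmono
      have h5 : U' q μ x4 ≤ 0 := hdn x4 (hXx1.trans (hx3.trans hx34))
      have h6 : U q μ x4 ≤ U q μ x1 := hanti x1 x4 le_rfl (hXx1.trans (hx3.trans hx34))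
      have h7 : g3 * Real.exp (M * (x4 - x3)) ≤ U' q μ x4 + M * U q μ x4 := by
        have e1 : Real.exp (-M * x3) = Real.exp (M * (x4 - x3)) * Real.exp (-M * x4) := by
          rw [← Real.exp_add]
          congr 1
          ring
        rw [e1, ← mul_assoc] at hmono
        exact le_of_mul_le_mul_right hmono (Real.exp_pos _)
      have h8 : 1 + M * (x4 - x3) ≤ Real.exp (M * (x4 - x3)) := by
        have := Real.add_one_le_exp (M * (x4 - x3))
        linarith
      have h9 : g3 * (x4 - x3) = U q μ x1 := by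
        rw [hx4, add_sub_cancel_left, mul_div_cancel₀ _ hg3.ne']
      have h10 : g3 * (1 + M * (x4 - x3)) ≤ g3 * Real.exp (M * (x4 - x3)) :=
        mul_le_mul_of_nonneg_left h8 hg3.le
      have h11 : g3 * (1 + M * (x4 - x3)) = g3 + M * U q μ x1 := by
        rw [← h9]; ring
      have h12 : M * U q μ x4 ≤ M * U q μ x1 := mul_le_mul_of_nonneg_left h6 hM0.le
      linarith
    -- u decays
    set C1 : ℝ := U q μ X * Real.exp (M * X) with hC1
    have hC1pos : 0 < C1 := mul_pos (hpos X hX0') (Real.exp_pos _)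
    have hu : ∀ x, X ≤ x → U q μ x ≤ C1 * Real.exp (-M * x) := by
      intro x hx
      have hk : ∀ x, HasDerivAt (fun y => -(U q μ y * Real.exp (M * y)))
          (-((U' q μ x + M * U q μ x) * Real.exp (M * x))) x := by
        intro x
        have h1 := ((U_der q μ x).mul (hexpd M x)).neg
        refine h1.congr_deriv ?_
        ring
      have hmono := mono_aux hx hk (by
        intro y hy
        have h1 := hg y hy.1
        have h2 := Real.exp_pos (M * y)
        nlinarith)
      have h1 : U q μ x * Real.exp (M * x) ≤ C1 := by rw [hC1]; linarith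
      have h2 : U q μ x = U q μ x * Real.exp (M * x) * Real.exp (-M * x) := by
        rw [mul_assoc, ← Real.exp_add]
        have : M * x + -M * x = 0 := by ring
        rw [this, Real.exp_zero, mul_one]
      rw [h2]
      exact mul_le_mul_of_nonneg_right h1 (Real.exp_pos _).le
    have hu' : ∀ x, X + 1 ≤ x → |U' q μ x| ≤ C1 * Real.exp M * Real.exp (-M * x) := by
      intro x hx
      have hxX : X ≤ x - 1 := by linarith
      obtain ⟨ξ, hξ, hξe⟩ := exists_hasDerivAt_eq_slope (U q μ) (U' q μ)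
        (show x - 1 < x by linarith) (U_cont q μ).continuousOn (fun y _ => U_der q μ y)
      have hmono := mono_aux (f := U' q μ) hξ.2.le (fun y => U'_der q μ y) (by
        intro y hy
        have h1 := hV0 y (by linarith [hy.1, hξ.1])
        have h2 := hpos y (by linarith [hy.1, hξ.1])
        have h3 : 0 ≤ V q y - μ := by nlinarith
        exact mul_nonneg h3 h2.le)
      have h4 : U' q μ ξ = U q μ x - U q μ (x - 1) := by
        rw [hξe]
        have : x - (x - 1) = 1 := by ring
        rw [this, div_one]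
      have h5 := hu (x - 1) hxX
      have h6 := hpos x (by linarith)
      have h7 := hdn x (by linarith)
      rw [abs_of_nonpos h7]
      have h8 : C1 * Real.exp M * Real.exp (-M * x) = C1 * Real.exp (-M * (x - 1)) := by
        rw [mul_assoc, ← Real.exp_add]
        congr 2
        ring
      rw [h8]
      linarith
    obtain ⟨B1, hB1⟩ := (isCompact_Icc (a := 0) (b := X + 1)).exists_bound_of_continuousOn
      (U_cont q μ).continuousOn
    obtain ⟨B2, hB2⟩ := (isCompact_Icc (a := 0) (b := X + 1)).exists_bound_of_continuousOn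
      (U'_cont q μ).continuousOn
    have hB1n : 0 ≤ B1 := (norm_nonneg _).trans (hB1 0 ⟨le_rfl, by linarith⟩)
    have hB2n : 0 ≤ B2 := (norm_nonneg _).trans (hB2 0 ⟨le_rfl, by linarith⟩)
    set C : ℝ := C1 * Real.exp M + (B1 + B2) * Real.exp (M * (X + 1)) with hC
    have hCC1 : C1 * Real.exp M ≤ C := by
      have : 0 ≤ (B1 + B2) * Real.exp (M * (X + 1)) := by positivity
      rw [hC]; linarith
    have hCB : (B1 + B2) * Real.exp (M * (X + 1)) ≤ C := by
      have : 0 ≤ C1 * Real.exp M := by positivity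
      rw [hC]; linarith
    have hsmall : ∀ x, 0 ≤ x → x ≤ X + 1 → B1 + B2 ≤ C * Real.exp (-M * x) := by
      intro x _ hx
      have h1 : 1 ≤ Real.exp (M * (X + 1)) * Real.exp (-M * x) := by
        rw [← Real.exp_add]
        apply Real.one_le_exp
        have : M * (X + 1) + -M * x = M * ((X + 1) - x) := by ring
        rw [this]
        exact mul_nonneg hM0.le (by linarith)
      calc B1 + B2 = (B1 + B2) * 1 := by ring
        _ ≤ (B1 + B2) * (Real.exp (M * (X + 1)) * Real.exp (-M * x)) :=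
            mul_le_mul_of_nonneg_left h1 (by positivity)
        _ = (B1 + B2) * Real.exp (M * (X + 1)) * Real.exp (-M * x) := by ring
        _ ≤ C * Real.exp (-M * x) := mul_le_mul_of_nonneg_right hCB (Real.exp_pos _).le
    refine ⟨C, ?_⟩
    intro x hx
    rcases le_total x (X + 1) with h1 | h1
    · have e1 := hB1 x ⟨hx, h1⟩
      have e2 := hB2 x ⟨hx, h1⟩
      rw [Real.norm_eq_abs] at e1 e2
      have e3 := hsmall x hx h1
      exact ⟨by linarith, by linarith⟩
    · have e0 := hpos x hx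
      have e1 := hu x (by linarith)
      have e2 := hu' x h1
      have h2 : C1 ≤ C := by
        have : C1 * 1 ≤ C1 * Real.exp M :=
          mul_le_mul_of_nonneg_left (Real.one_le_exp hM0.le) hC1pos.le
        linarith
      refine ⟨?_, e2.trans (mul_le_mul_of_nonneg_right hCC1 (Real.exp_pos _).le)⟩
      rw [abs_of_pos e0]
      exact e1.trans (mul_le_mul_of_nonneg_right h2 (Real.exp_pos _).le)
  refine ⟨μ, U q μ, U' q μ, by linarith, hμle, ?_, U_der q μ, U'_der q μ, ?_⟩
  · intro x
    rcases le_total 0 x with h0 | h0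
    · exact hpos x h0
    · rw [← U_even q μ x]
      exact hpos (-x) (by linarith)
  · intro M
    obtain ⟨C, hC⟩ := hdec (max M 1) (le_max_right _ _)
    have hC0 : 0 ≤ C := by
      have := (hC 0 le_rfl).1
      simp only [mul_zero, Real.exp_zero, mul_one] at this
      exact (abs_nonneg _).trans this
    refine ⟨C, ?_⟩
    have hall : ∀ x, |U q μ x| ≤ C * Real.exp (-(max M 1) * |x|) ∧
        |U' q μ x| ≤ C * Real.exp (-(max M 1) * |x|) := by
      intro x
      rcases le_total 0 x with h0 | h0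
      · rw [abs_of_nonneg h0]
        exact hC x h0
      · rw [abs_of_nonpos h0]
        have := hC (-x) (by linarith)
        rw [U_even, U'_odd, abs_neg] at this
        exact this
    intro x
    have hle : Real.exp (-(max M 1) * |x|) ≤ Real.exp (-M * |x|) := by
      apply Real.exp_le_exp.mpr
      have := mul_le_mul_of_nonneg_right (le_max_left M 1) (abs_nonneg x)
      linarith
    have := hall x
    exact ⟨this.1.trans (mul_le_mul_of_nonneg_left hle hC0),
      this.2.trans (mul_le_mul_of_nonneg_left hle hC0)⟩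

end W416086Ground
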