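import Pool.Agent.W_MP_416086_gt.Indep
import Pool.Agent.W_MP_416086_gt.Ground

set_option autoImplicit false
set_option linter.unusedSectionVars false

open scoped ContDiff Topology
open MeasureTheory Real

namespace Pool.Agent.W_MP_416086_gt

theorem act_v1 (N : ℕ) (p : E 4) : act N 0 1 0 0 p = p + v1 := by
  apply ext4 <;> simp [v1]

theorem act_v2 (N : ℕ) (p : E 4) : act N 0 0 1 0 p = p + v2 := by
  apply ext4 <;> simp [v2]

theorem act_v3 (N : ℕ) (p : E 4) : act N 0 0 0 1 p = p + v3 := by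
  apply ext4 <;> simp [v3]

theorem eigenfunction_data {N : ℕ} {ε r ν : ℝ} (hN : 1 ≤ N) (hε : 0 < ε) (hr : 0 < r)
    {f : E 4 → ℝ} (h : (MM N ε r hN hε hr).IsEigenfunction ν f) :
    ∃ B : ℝ, Eg ε r ν B (fun q => (f q : ℂ)) ∧ Per (fun q => (f q : ℂ)) ∧
      ∀ p, (fun q => (f q : ℂ)) (Tm N p) = (fun q => (f q : ℂ)) p := by
  obtain ⟨h1, h2, h3⟩ := h
  have hinv : ∀ k m n l p, f (act N k m n l p) = f p := fun k m n l p =>
    h2 (actEquiv N k m n l) (act_mem N k m n l) p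
  obtain ⟨C, hC, hC'⟩ := act_cocompact hN
  obtain ⟨B, hB⟩ := hC.exists_bound_of_continuousOn h1.continuous.continuousOn
  refine ⟨B, ⟨?_, ?_, ?_⟩, ⟨?_, ?_, ?_⟩, ?_⟩
  · exact Complex.ofRealCLM.contDiff.comp h1
  · intro p
    rw [Lop_ofReal ε r h1]
    have h4 : -lap (gm ε r) f p = ν * f p := h3 p
    rw [lap_gm hε hr h1] at h4
    have h5 : Lop ε r f p = (-ν) * f p := by linarith
    rw [h5]
    push_cast
    simp
  · intro p
    obtain ⟨γ, hγ, hγ'⟩ := hC' p
    have := hB _ hγ'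
    have h4 : f (γ p) = f p := h2 γ hγ p
    rw [h4] at this
    simpa using this
  · intro p; simp only [← act_v1 N, hinv]
  · intro p; simp only [← act_v2 N, hinv]
  · intro p; simp only [← act_v3 N, hinv]
  · intro p
    show ((f (act N 1 0 0 0 p) : ℝ) : ℂ) = (f p : ℂ)
    rw [hinv]

theorem FF_eigenfunction {N : ℕ} {ε r μ : ℝ} (hN : 1 ≤ N) (hε : 0 < ε) (hr : 0 < r) {u u' : ℝ → ℝ}
    (h : GS (4 * π ^ 2 * ε ^ 2 / 5) μ u u') (i : ℤ) :
    (MM N ε r hN hε hr).IsEigenfunction μ (FF u N i) := by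
  obtain ⟨h1, h2⟩ := FF_smooth_eq (r := r) hN i hε h
  refine ⟨h1, ?_, ?_⟩
  · rintro _ ⟨k, m, n, l, rfl⟩ p
    exact FF_act u N i k m n l p
  · intro p
    show -lap (gm ε r) (FF u N i) p = μ * FF u N i p
    rw [lap_gm hε hr h1, h2]
    ring

theorem rank_eigBelow {N : ℕ} {ε r μ : ℝ} (hN : 1 ≤ N) (hε : 0 < ε) (hr : 0 < r) {u u' : ℝ → ℝ}
    (hgs : GS (4 * π ^ 2 * ε ^ 2 / 5) μ u u') (hμ : μ < 4 * π ^ 2 / LL N ^ 2)
    (hμr : μ < 4 * π ^ 2 * (r ^ 2)⁻¹) :
    Module.rank ℝ ((MM N ε r hN hε hr).eigBelow μ) ≤ 1 := by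
  have h1 : (MM N ε r hN hε hr).eigBelow μ ≤ Submodule.span ℝ {(fun _ => 1 : E 4 → ℝ)} := by
    unfold ClosedManifold.eigBelow
    rw [Submodule.span_le]
    rintro f ⟨ν, hν, hf⟩
    obtain ⟨B, hE, hP, hT⟩ := eigenfunction_data hN hε hr hf
    obtain ⟨⟨κ, hκ⟩, -⟩ := rigid hN hε hr hgs hν hμ hμr hE hP hT
    rw [SetLike.mem_coe, Submodule.mem_span_singleton]
    refine ⟨κ.re, ?_⟩
    funext p
    have := congrArg Complex.re (hκ p)
    simp only [Complex.ofReal_re] at this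
    simp [this]
  refine (Submodule.rank_mono h1).trans ?_
  refine (rank_span_le _).trans ?_
  simp

theorem rank_eigenspace {N : ℕ} {ε r μ : ℝ} (hN : 1 ≤ N) (hε : 0 < ε) (hr : 0 < r) {u u' : ℝ → ℝ}
    (hgs : GS (4 * π ^ 2 * ε ^ 2 / 5) μ u u') :
    (N : Cardinal) ≤ Module.rank ℝ ((MM N ε r hN hε hr).eigenspace μ) := by
  have hli := FF_linearIndependent hN hε hgs
  have h1 : Submodule.span ℝ (Set.range (fun i : Fin N => FF u N (i : ℤ))) ≤
      (MM N ε r hN hε hr).eigenspace μ := by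
    unfold ClosedManifold.eigenspace
    apply Submodule.span_mono
    rintro _ ⟨i, rfl⟩
    exact FF_eigenfunction hN hε hr hgs i
  have h2 := rank_span hli
  rw [Cardinal.mk_range_eq _ hli.injective, Cardinal.mk_fin] at h2
  rw [← h2]
  exact Submodule.rank_mono h1

theorem eigenspace_le_eigUpTo {n : ℕ} (M : ClosedManifold n) (ν : ℝ) :
    M.eigenspace ν ≤ M.eigUpTo ν := by
  unfold ClosedManifold.eigenspace ClosedManifold.eigUpTo
  apply Submodule.span_mono
  intro f hf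
  exact ⟨ν, le_rfl, hf⟩

theorem half_le_tau : 1 / 2 ≤ tau := by
  unfold tau
  have h1 : (1.6 : ℝ) ≤ goldenRatio := by
    unfold goldenRatio
    have : (2.2 : ℝ) ≤ √5 := by
      rw [Real.le_sqrt' (by norm_num)]; norm_num
    linarith
  have h2 : exp 1 ≤ goldenRatio ^ 4 := by
    have h3 := Real.exp_one_lt_d9
    have h4 : (1.6 : ℝ) ^ 4 ≤ goldenRatio ^ 4 := by gcongr
    norm_num at h4 h3 ⊢
    linarith
  have h5 : 1 ≤ log (goldenRatio ^ 4) := by
    rw [Real.le_log_iff_exp_le (by have := goldenRatio_pos; positivity)]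
    exact h2
  rw [Real.log_pow] at h5
  push_cast at h5
  linarith

/-- The standard metric `dx² + e^{2x} dy² + e^{-2x} dz² + dt²` of `Sol³ × ℝ`. -/
noncomputable def solMetric (p : E 4) : Matrix (Fin 4) (Fin 4) ℝ :=
  Matrix.diagonal ![1, exp (2 * p 0), exp (-(2 * p 0)), 1]

/-- The universal cover of `M` is isometric to `Sol³ × ℝ`, via a diagonal linear map. -/
def ClosedManifold.IsSol (M : ClosedManifold 4) : Prop :=
  ∃ c : Fin 4 → ℝ, (∀ i, 0 < c i) ∧
    ∀ p i j, M.g p i j = c i * c j * solMetric (fun k => c k * p k) i j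

theorem MM_isSol {N : ℕ} {ε r : ℝ} (hN : 1 ≤ N) (hε : 0 < ε) (hr : 0 < r) :
    (MM N ε r hN hε hr).IsSol := by
  refine ⟨![1, ε⁻¹, ε⁻¹, r], ?_, ?_⟩
  · intro i
    fin_cases i <;> simp <;> positivity
  · intro p i j
    show gm ε r p i j = _
    unfold gm solMetric
    by_cases hij : i = j
    · subst hij
      rw [Matrix.diagonal_apply_eq, Matrix.diagonal_apply_eq]
      fin_cases i
      · simp [dd]
      · simp [dd]; ring
      · simp [dd]; ring
      · simp [dd]; ring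
    · rw [Matrix.diagonal_apply_ne _ hij, Matrix.diagonal_apply_ne _ hij, mul_zero]

theorem main_one (k m : ℕ) (hk : 1 ≤ k) (V : ℝ) (hV : 0 < V) :
    ∃ (M : ClosedManifold 4) (lam : ℝ), 0 < lam ∧ M.RicciLowerBound 1 ∧ M.HasVolume V ∧ M.IsSol ∧
      M.IsLambda k lam ∧ (m : Cardinal) ≤ Module.rank ℝ (M.eigenspace lam) := by
  obtain ⟨v, hv⟩ := exists_nat_ge (2 * V)
  set N := max (max 2 m) (max (k + 1) v) with hNdef
  have hN2 : 2 ≤ N := (le_max_left _ _).trans (le_max_left _ _)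
  have hNm : m ≤ N := (le_max_right _ _).trans (le_max_left _ _)
  have hNk : k + 1 ≤ N := (le_max_left _ _).trans (le_max_right _ _)
  have hNv : v ≤ N := (le_max_right _ _).trans (le_max_right _ _)
  have hN : 1 ≤ N := by omega
  clear_value N
  have hL0 := LL_pos hN
  have htau := half_le_tau
  have hL1 : 1 ≤ LL N := by
    unfold LL
    have : (2 : ℝ) ≤ N := by exact_mod_cast hN2
    nlinarith
  have hLV : V ≤ LL N := by
    unfold LL
    have : (v : ℝ) ≤ N := by exact_mod_cast hNv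
    nlinarith
  set L := LL N with hL
  have hcosh : 1 ≤ Real.cosh L := Real.one_le_cosh L
  set ε := √(5 / (8 * L ^ 2 * Real.cosh L)) with hεdef
  have hε : 0 < ε := by
    rw [hεdef]
    apply Real.sqrt_pos.2
    positivity
  have hε2 : ε ^ 2 = 5 / (8 * L ^ 2 * Real.cosh L) := by
    rw [hεdef, Real.sq_sqrt (by positivity)]
  have s5 := sqrt5_pos
  set r := V * ε ^ 2 / (L * √5) with hrdef
  have hr : 0 < r := by positivity
  have hπ := Real.pi_pos
  -- ground state
  obtain ⟨μ, u, u', hμ0, hμ1, hpos, hder, hder', hdec⟩ :=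
    W416086Ground.ground_state (4 * π ^ 2 * ε ^ 2 / 5) L (by positivity) hL0 (by
      rw [hε2]
      have : 2 * (4 * π ^ 2 * (5 / (8 * L ^ 2 * Real.cosh L)) / 5) * Real.cosh L = π ^ 2 / L ^ 2 := by
        field_simp
        ring
      rw [this])
  have hgs : GS (4 * π ^ 2 * ε ^ 2 / 5) μ u u' := ⟨hpos, hder, hder', hdec⟩
  have hμL : μ < 4 * π ^ 2 / L ^ 2 := by
    refine hμ1.trans_lt ?_
    apply div_lt_div_of_pos_right _ (by positivity)
    nlinarith [sq_nonneg π, pow_pos hπ 2]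
  have hrL : r ≤ L := by
    rw [hrdef, div_le_iff₀ (by positivity), hε2]
    have h1 : 5 / (8 * L ^ 2 * Real.cosh L) ≤ 5 / 8 := by
      apply div_le_div_of_nonneg_left (by norm_num) (by norm_num)
      have h2 : 1 ≤ L ^ 2 := one_le_pow₀ hL1
      nlinarith
    have h3 : (2 : ℝ) ≤ √5 := by
      rw [Real.le_sqrt' (by norm_num)]; norm_num
    calc V * (5 / (8 * L ^ 2 * Real.cosh L)) ≤ L * (5 / 8) :=
          mul_le_mul hLV h1 (by positivity) hL0.le
      _ ≤ L * (L * √5) := by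
          apply mul_le_mul_of_nonneg_left _ hL0.le
          nlinarith
  have hμr : μ < 4 * π ^ 2 * (r ^ 2)⁻¹ := by
    refine hμL.trans_le ?_
    rw [div_eq_mul_inv]
    apply mul_le_mul_of_nonneg_left _ (by positivity)
    apply inv_anti₀ (by positivity)
    gcongr
  have hrank := rank_eigenspace hN hε hr hgs
  refine ⟨MM N ε r hN hε hr, μ, hμ0, MM_ricci N ε r hN hε hr, ?_, MM_isSol hN hε hr, ⟨?_, ?_⟩, ?_⟩
  · have h1 := MM_volume N ε r hN hε hr
    have h2 : (ε ^ 2)⁻¹ * r * (LL N * √5) = V := by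
      rw [← hL, hrdef]
      field_simp
    rw [h2] at h1
    exact h1
  · refine (rank_eigBelow hN hε hr hgs hμL hμr).trans ?_
    exact_mod_cast hk
  · have h1 : (k : Cardinal) < (N : Cardinal) := by exact_mod_cast (by omega : k < N)
    exact h1.trans_le (hrank.trans (Submodule.rank_mono (eigenspace_le_eigUpTo _ _)))
  · have h1 : (m : Cardinal) ≤ (N : Cardinal) := by exact_mod_cast hNm
    exact h1.trans hrank

end Pool.Agent.W_MP_416086_gt
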