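import Pool.Agent.W_MP_416086_gt.Defs

set_option autoImplicit false

open scoped ContDiff
open MeasureTheory Real

namespace Pool.Agent.W_MP_416086_gt

/-! ### Partial derivatives -/

theorem pd_eq {n : ℕ} {i : Fin n} {f : E n → ℝ} {f' : E n →L[ℝ] ℝ} {p : E n}
    (h : HasFDerivAt f f' p) : pd i f p = f' (Pi.single i 1) := by
  rw [pd, h.fderiv]

theorem hasFDerivAt_coord {n : ℕ} (k : Fin n) (h : ℝ → ℝ) (h' : ℝ) (p : E n)
    (hh : HasDerivAt h h' (p k)) :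
    HasFDerivAt (fun q : E n => h (q k)) (h' • (ContinuousLinearMap.proj k : E n →L[ℝ] ℝ)) p := by
  have h1 : HasFDerivAt (fun q : E n => q k) (ContinuousLinearMap.proj k : E n →L[ℝ] ℝ) p :=
    (ContinuousLinearMap.proj (R := ℝ) (φ := fun _ : Fin n => ℝ) k).hasFDerivAt
  exact HasDerivAt.comp_hasFDerivAt p hh h1

theorem pd_coord {n : ℕ} (i k : Fin n) (h : ℝ → ℝ) (h' : ℝ) (p : E n)
    (hh : HasDerivAt h h' (p k)) :
    pd i (fun q : E n => h (q k)) p = if k = i then h' else 0 := by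
  rw [pd_eq (hasFDerivAt_coord k h h' p hh)]
  simp [Pi.single_apply]

theorem pd_const {n : ℕ} (i : Fin n) (c : ℝ) (p : E n) : pd i (fun _ : E n => c) p = 0 := by
  rw [pd_eq (hasFDerivAt_const c p)]
  simp

/-! ### The metric -/

/-- Diagonal entries of the metric. -/
noncomputable def dd (ε r : ℝ) : Fin 4 → ℝ → ℝ :=
  ![fun _ => 1, fun x => (ε ^ 2)⁻¹ * exp (2 * x), fun x => (ε ^ 2)⁻¹ * exp (-(2 * x)),
    fun _ => r ^ 2]

/-- Derivatives of the diagonal entries. -/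
noncomputable def dd' (ε : ℝ) : Fin 4 → ℝ → ℝ :=
  ![fun _ => 0, fun x => 2 * ((ε ^ 2)⁻¹ * exp (2 * x)), fun x => -(2 * ((ε ^ 2)⁻¹ * exp (-(2 * x)))),
    fun _ => 0]

/-- Second derivatives of the diagonal entries. -/
noncomputable def dd'' (ε : ℝ) : Fin 4 → ℝ → ℝ :=
  ![fun _ => 0, fun x => 4 * ((ε ^ 2)⁻¹ * exp (2 * x)), fun x => 4 * ((ε ^ 2)⁻¹ * exp (-(2 * x))),
    fun _ => 0]

/-- The metric `dx² + ε⁻²(e^{2x} da² + e^{-2x} db²) + r² dz²`. -/
noncomputable def gm (ε r : ℝ) (p : E 4) : Matrix (Fin 4) (Fin 4) ℝ :=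
  Matrix.diagonal (fun i => dd ε r i (p 0))

theorem dd_pos {ε r : ℝ} (hε : 0 < ε) (hr : 0 < r) (i : Fin 4) (x : ℝ) : 0 < dd ε r i x := by
  fin_cases i <;> simp [dd] <;> positivity

theorem dd_hasDerivAt (ε r : ℝ) (i : Fin 4) (x : ℝ) : HasDerivAt (dd ε r i) (dd' ε i x) x := by
  have h2 : HasDerivAt (fun x : ℝ => 2 * x) 2 x := by
    simpa using (hasDerivAt_id x).const_mul 2
  have h2' : HasDerivAt (fun x : ℝ => -(2 * x)) (-2) x := h2.neg
  fin_cases i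
  · simpa [dd, dd'] using hasDerivAt_const x (1 : ℝ)
  · have := (h2.exp).const_mul ((ε ^ 2)⁻¹)
    show HasDerivAt (fun x => (ε ^ 2)⁻¹ * exp (2 * x)) (2 * ((ε ^ 2)⁻¹ * exp (2 * x))) x
    exact this.congr_deriv (by ring)
  · have := (h2'.exp).const_mul ((ε ^ 2)⁻¹)
    show HasDerivAt (fun x => (ε ^ 2)⁻¹ * exp (-(2 * x))) (-(2 * ((ε ^ 2)⁻¹ * exp (-(2 * x))))) x
    exact this.congr_deriv (by ring)
  · simpa [dd, dd'] using hasDerivAt_const x (r ^ 2)

theorem dd'_hasDerivAt (ε : ℝ) (i : Fin 4) (x : ℝ) : HasDerivAt (dd' ε i) (dd'' ε i x) x := by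
  have h2 : HasDerivAt (fun x : ℝ => 2 * x) 2 x := by
    simpa using (hasDerivAt_id x).const_mul 2
  have h2' : HasDerivAt (fun x : ℝ => -(2 * x)) (-2) x := h2.neg
  fin_cases i
  · simpa [dd', dd''] using hasDerivAt_const x (0 : ℝ)
  · have := ((h2.exp).const_mul ((ε ^ 2)⁻¹)).const_mul 2
    show HasDerivAt (fun x => 2 * ((ε ^ 2)⁻¹ * exp (2 * x))) (4 * ((ε ^ 2)⁻¹ * exp (2 * x))) x
    exact this.congr_deriv (by ring)
  · have := (((h2'.exp).const_mul ((ε ^ 2)⁻¹)).const_mul 2).neg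
    show HasDerivAt (fun x => -(2 * ((ε ^ 2)⁻¹ * exp (-(2 * x))))) (4 * ((ε ^ 2)⁻¹ * exp (-(2 * x)))) x
    exact this.congr_deriv (by ring)
  · simpa [dd', dd''] using hasDerivAt_const x (0 : ℝ)

theorem pd_gm (ε r : ℝ) (l i j : Fin 4) (p : E 4) :
    pd l (fun q => gm ε r q i j) p = if l = 0 ∧ i = j then dd' ε i (p 0) else 0 := by
  unfold gm
  by_cases hij : i = j
  · subst hij
    simp only [Matrix.diagonal_apply_eq, and_true]
    rw [pd_coord l 0 (dd ε r i) (dd' ε i (p 0)) p (dd_hasDerivAt ε r i (p 0))]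
    simp [eq_comm]
  · simp only [Matrix.diagonal_apply_ne _ hij, hij, and_false, if_false]
    exact pd_const _ _ _

theorem gm_inv {ε r : ℝ} (hε : 0 < ε) (hr : 0 < r) (p : E 4) :
    (gm ε r p)⁻¹ = Matrix.diagonal (fun i => (dd ε r i (p 0))⁻¹) := by
  apply Matrix.inv_eq_right_inv
  unfold gm
  rw [Matrix.diagonal_mul_diagonal]
  have h : (fun i => dd ε r i (p 0) * (dd ε r i (p 0))⁻¹) = fun _ => 1 := by
    funext i
    exact mul_inv_cancel₀ (dd_pos hε hr i _).ne'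
  rw [h]
  exact Matrix.diagonal_one

theorem chr_gm {ε r : ℝ} (hε : 0 < ε) (hr : 0 < r) (k i j : Fin 4) (p : E 4) :
    chr (gm ε r) k i j p = (1 / 2) * ((dd ε r k (p 0))⁻¹ *
      ((if i = 0 ∧ j = k then dd' ε k (p 0) else 0) + (if j = 0 ∧ i = k then dd' ε k (p 0) else 0) -
        (if k = 0 ∧ i = j then dd' ε i (p 0) else 0))) := by
  unfold chr
  rw [gm_inv hε hr]
  simp only [pd_gm]
  rw [Finset.sum_eq_single k]
  · rw [Matrix.diagonal_apply_eq]
    congr 3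
    congr 1
    · by_cases h : i = 0 ∧ j = k
      · rw [if_pos h, if_pos h, h.2]
      · rw [if_neg h, if_neg h]
    · by_cases h : j = 0 ∧ i = k
      · rw [if_pos h, if_pos h, h.2]
      · rw [if_neg h, if_neg h]
  · intro l _ hl
    rw [Matrix.diagonal_apply_ne _ (Ne.symm hl), zero_mul]
  · simp

/-- Closed form of the Christoffel symbols: functions of `x`. -/
noncomputable def cs (ε : ℝ) (k i j : Fin 4) (x : ℝ) : ℝ :=
  (if (k = 1 ∧ ((i = 0 ∧ j = 1) ∨ (i = 1 ∧ j = 0))) then 1 else 0) -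
  (if (k = 2 ∧ ((i = 0 ∧ j = 2) ∨ (i = 2 ∧ j = 0))) then 1 else 0) -
  (if k = 0 ∧ i = j then dd' ε i x / 2 else 0)

theorem chr_gm' {ε r : ℝ} (hε : 0 < ε) (hr : 0 < r) (k i j : Fin 4) (p : E 4) :
    chr (gm ε r) k i j p = cs ε k i j (p 0) := by
  rw [chr_gm hε hr]
  have h1 : (ε ^ 2)⁻¹ * exp (2 * p 0) ≠ 0 := by positivity
  have h2 : (ε ^ 2)⁻¹ * exp (-(2 * p 0)) ≠ 0 := by positivity
  have h3 : (r ^ 2) ≠ 0 := by positivity
  fin_cases k <;> fin_cases i <;> fin_cases j <;> simp [cs, dd, dd'] <;> field_simp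

theorem pd_cs (ε : ℝ) (l k i j : Fin 4) (p : E 4) :
    pd l (fun q => cs ε k i j (q 0)) p =
      if l = 0 ∧ k = 0 ∧ i = j then -(dd'' ε i (p 0) / 2) else 0 := by
  have h : HasDerivAt (cs ε k i j) (if k = 0 ∧ i = j then -(dd'' ε i (p 0) / 2) else 0) (p 0) := by
    unfold cs
    by_cases hk : k = 0 ∧ i = j
    · simp only [hk, and_self, if_true]
      have := ((dd'_hasDerivAt ε i (p 0)).div_const 2).const_sub
        ((if (k = 1 ∧ ((i = 0 ∧ j = 1) ∨ (i = 1 ∧ j = 0))) then (1 : ℝ) else 0) -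
          (if (k = 2 ∧ ((i = 0 ∧ j = 2) ∨ (i = 2 ∧ j = 0))) then (1 : ℝ) else 0))
      simpa [hk] using this
    · simp only [hk, if_false]
      exact hasDerivAt_const _ _
  rw [pd_coord l 0 _ _ p h]
  by_cases hl : l = 0
  · simp [hl]
  · simp [hl, Ne.symm hl]

theorem ricci_gm {ε r : ℝ} (hε : 0 < ε) (hr : 0 < r) (i j : Fin 4) (p : E 4) :
    ricci (gm ε r) i j p = if i = 0 ∧ j = 0 then -2 else 0 := by
  have h : ∀ k i j, chr (gm ε r) k i j = fun q => cs ε k i j (q 0) := by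
    intro k i j
    funext q
    exact chr_gm' hε hr k i j q
  unfold ricci
  simp only [h, pd_cs]
  simp only [Fin.sum_univ_four]
  fin_cases i <;> fin_cases j <;> simp [cs, dd', dd''] <;> ring

end Pool.Agent.W_MP_416086_gt
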