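import Pool.Agent.W_MP_416086_gt.Geom

set_option autoImplicit false

open scoped ContDiff
open MeasureTheory Real

namespace Pool.Agent.W_MP_416086_gt

/-- `τ = log φ²`. -/
noncomputable def tau : ℝ := 2 * log goldenRatio

theorem tau_pos : 0 < tau := by
  unfold tau
  have := Real.log_pos one_lt_goldenRatio
  positivity

theorem exp_tau : exp tau = goldenRatio ^ 2 := by
  unfold tau
  rw [mul_comm, Real.exp_mul, Real.exp_log goldenRatio_pos]
  norm_num

theorem exp_neg_tau : exp (-tau) = goldenConj ^ 2 := by
  rw [Real.exp_neg, exp_tau, ← inv_pow, inv_goldenRatio]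
  ring

theorem sqrt5_pos : (0 : ℝ) < √5 := by positivity

/-- Multiplication by the units `φ^{-2j}`. -/
theorem unit_mul (j : ℤ) : ∀ m n : ℤ, ∃ m' n' : ℤ,
    exp (-(j * tau)) * (m + n * goldenRatio) = m' + n' * goldenRatio ∧
    exp (j * tau) * (m + n * goldenConj) = m' + n' * goldenConj := by
  induction j using Int.induction_on with
  | zero => intro m n; exact ⟨m, n, by simp, by simp⟩
  | succ j ih =>
    intro m n
    obtain ⟨m', n', h1, h2⟩ := ih m n
    refine ⟨2 * m' - n', n' - m', ?_, ?_⟩
    · have e1 : exp (-(((j : ℤ) + 1 : ℤ) * tau)) = exp (-((j : ℤ) * tau)) * goldenConj ^ 2 := by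
        rw [← exp_neg_tau, ← Real.exp_add]
        congr 1
        push_cast
        ring
      rw [e1, mul_right_comm, h1]
      push_cast
      have h3 := goldenConj_sq
      have h4 := goldenRatio_mul_goldenConj
      have h5 := goldenRatio_add_goldenConj
      have h6 : goldenConj = 1 - goldenRatio := by linarith
      rw [h3, h6]
      have h7 := goldenRatio_sq
      linear_combination (-(n' : ℝ)) * h7
    · have e1 : exp ((((j : ℤ) + 1 : ℤ) : ℝ) * tau) = exp ((j : ℤ) * tau) * goldenRatio ^ 2 := by
        rw [← exp_tau, ← Real.exp_add]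
        congr 1
        push_cast
        ring
      rw [e1, mul_right_comm, h2]
      push_cast
      have h3 := goldenRatio_sq
      have h5 := goldenRatio_add_goldenConj
      have h6 : goldenRatio = 1 - goldenConj := by linarith
      rw [h3, h6]
      have h7 := goldenConj_sq
      linear_combination (-(n' : ℝ)) * h7
  | pred j ih =>
    intro m n
    obtain ⟨m', n', h1, h2⟩ := ih m n
    refine ⟨m' + n', m' + 2 * n', ?_, ?_⟩
    · have e1 : exp (-(((-(j : ℤ) - 1 : ℤ) : ℝ) * tau)) =
          exp (-((-(j : ℤ) : ℤ) * tau)) * goldenRatio ^ 2 := by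
        rw [← exp_tau, ← Real.exp_add]
        congr 1
        push_cast
        ring
      rw [e1, mul_right_comm, h1]
      push_cast
      have h7 := goldenRatio_sq
      rw [h7]
      linear_combination ((n' : ℝ)) * h7
    · have e1 : exp ((((-(j : ℤ) - 1 : ℤ) : ℝ)) * tau) =
          exp ((-(j : ℤ) : ℤ) * tau) * goldenConj ^ 2 := by
        rw [← exp_neg_tau, ← Real.exp_add]
        congr 1
        push_cast
        ring
      rw [e1, mul_right_comm, h2]
      push_cast
      have h7 := goldenConj_sq
      rw [h7]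
      linear_combination ((n' : ℝ)) * h7

/-- Length of the base circle. -/
noncomputable def LL (N : ℕ) : ℝ := N * tau

theorem LL_pos {N : ℕ} (hN : 1 ≤ N) : 0 < LL N := by
  unfold LL
  have : (1 : ℝ) ≤ N := by exact_mod_cast hN
  have := tau_pos
  positivity

theorem unit_mul' (N : ℕ) (k m n : ℤ) : ∃ m' n' : ℤ,
    exp (-(k * LL N)) * (m + n * goldenRatio) = m' + n' * goldenRatio ∧
    exp (k * LL N) * (m + n * goldenConj) = m' + n' * goldenConj := by
  obtain ⟨m', n', h1, h2⟩ := unit_mul (k * N) m n
  refine ⟨m', n', ?_, ?_⟩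
  · rw [← h1]
    unfold LL
    push_cast
    rw [mul_assoc]
  · rw [← h2]
    unfold LL
    push_cast
    rw [mul_assoc]

/-- The deck transformations. -/
noncomputable def act (N : ℕ) (k m n l : ℤ) (p : E 4) : E 4 :=
  ![p 0 + k * LL N, exp (-(k * LL N)) * p 1 + (m + n * goldenRatio),
    exp (k * LL N) * p 2 + (m + n * goldenConj), p 3 + l]

@[simp] theorem act_0 (N : ℕ) (k m n l : ℤ) (p : E 4) : act N k m n l p 0 = p 0 + k * LL N := rfl
@[simp] theorem act_1 (N : ℕ) (k m n l : ℤ) (p : E 4) :
    act N k m n l p 1 = exp (-(k * LL N)) * p 1 + (m + n * goldenRatio) := rfl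
@[simp] theorem act_2 (N : ℕ) (k m n l : ℤ) (p : E 4) :
    act N k m n l p 2 = exp (k * LL N) * p 2 + (m + n * goldenConj) := rfl
@[simp] theorem act_3 (N : ℕ) (k m n l : ℤ) (p : E 4) : act N k m n l p 3 = p 3 + l := rfl

theorem ext4 {p q : E 4} (h0 : p 0 = q 0) (h1 : p 1 = q 1) (h2 : p 2 = q 2) (h3 : p 3 = q 3) :
    p = q := by
  funext i
  fin_cases i
  · exact h0
  · exact h1
  · exact h2
  · exact h3

/-- The deck transformations as bijections. -/
noncomputable def actEquiv (N : ℕ) (k m n l : ℤ) : Equiv.Perm (E 4) where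
  toFun := act N k m n l
  invFun p := ![p 0 - k * LL N, exp (k * LL N) * (p 1 - (m + n * goldenRatio)),
    exp (-(k * LL N)) * (p 2 - (m + n * goldenConj)), p 3 - l]
  left_inv p := by
    apply ext4
    · simp
    · simp only [act_0, act_1, act_2, act_3, Matrix.cons_val_one, Matrix.cons_val_zero]
      rw [add_sub_cancel_right, ← mul_assoc, ← Real.exp_add]
      simp
    · simp only [act_0, act_1, act_2, act_3, Matrix.cons_val]
      rw [add_sub_cancel_right, ← mul_assoc, ← Real.exp_add]
      simp
    · simp
  right_inv p := by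
    apply ext4
    · simp
    · simp only [act_1, Matrix.cons_val_one, Matrix.cons_val_zero]
      rw [← mul_assoc, ← Real.exp_add]
      simp
    · simp only [act_2, Matrix.cons_val]
      rw [← mul_assoc, ← Real.exp_add]
      simp
    · simp

theorem actEquiv_apply (N : ℕ) (k m n l : ℤ) (p : E 4) : actEquiv N k m n l p = act N k m n l p := rfl

/-- The deck group. -/
noncomputable def Gam (N : ℕ) : Subgroup (Equiv.Perm (E 4)) where
  carrier := {γ | ∃ k m n l : ℤ, γ = actEquiv N k m n l}
  one_mem' := by
    refine ⟨0, 0, 0, 0, ?_⟩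
    ext1 p
    rw [actEquiv_apply]
    apply ext4 <;> simp
  mul_mem' := by
    rintro _ _ ⟨k, m, n, l, rfl⟩ ⟨k', m', n', l', rfl⟩
    obtain ⟨m'', n'', h1, h2⟩ := unit_mul' N k m' n'
    refine ⟨k + k', m + m'', n + n'', l + l', ?_⟩
    ext1 p
    rw [Equiv.Perm.mul_apply, actEquiv_apply, actEquiv_apply, actEquiv_apply]
    apply ext4
    · simp only [act_0]; push_cast; ring
    · simp only [act_1]
      rw [mul_add, h1]
      have : exp (-((k + k' : ℤ) * LL N)) = exp (-(k * LL N)) * exp (-(k' * LL N)) := by
        rw [← Real.exp_add]; congr 1; push_cast; ring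
      rw [this]; push_cast; ring
    · simp only [act_2]
      rw [mul_add, h2]
      have : exp ((k + k' : ℤ) * LL N) = exp (k * LL N) * exp (k' * LL N) := by
        rw [← Real.exp_add]; congr 1; push_cast; ring
      rw [this]; push_cast; ring
    · simp only [act_3]; push_cast; ring
  inv_mem' := by
    rintro _ ⟨k, m, n, l, rfl⟩
    obtain ⟨m', n', h1, h2⟩ := unit_mul' N (-k) m n
    refine ⟨-k, -m', -n', -l, ?_⟩
    rw [inv_eq_iff_mul_eq_one]
    ext1 p
    rw [Equiv.Perm.mul_apply, actEquiv_apply, actEquiv_apply]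
    push_cast at h1 h2
    have e : exp (k * LL N) * exp (-(k * LL N)) = 1 := by rw [← Real.exp_add]; simp
    have e' : exp (-(k * LL N)) * exp (k * LL N) = 1 := by rw [← Real.exp_add]; simp
    rw [neg_mul, neg_neg] at h1
    rw [neg_mul] at h2
    apply ext4
    · simp
    · simp only [act_1, Equiv.Perm.one_apply]
      push_cast
      rw [neg_mul, neg_neg]
      have : (m : ℝ) + n * goldenRatio = exp (-(k * LL N)) * (m' + n' * goldenRatio) := by
        rw [← h1, ← mul_assoc, e', one_mul]
      rw [this]
      linear_combination (p 1) * e'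
    · simp only [act_2, Equiv.Perm.one_apply]
      push_cast
      rw [neg_mul]
      have : (m : ℝ) + n * goldenConj = exp (k * LL N) * (m' + n' * goldenConj) := by
        rw [← h2, ← mul_assoc, e, one_mul]
      rw [this]
      linear_combination (p 2) * e
    · simp

theorem mem_Gam {N : ℕ} {γ : Equiv.Perm (E 4)} :
    γ ∈ Gam N ↔ ∃ k m n l : ℤ, γ = actEquiv N k m n l := Iff.rfl

theorem act_mem (N : ℕ) (k m n l : ℤ) : actEquiv N k m n l ∈ Gam N := ⟨k, m, n, l, rfl⟩

/-- Components of the deck transformations. -/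
noncomputable def comp (N : ℕ) (k m n l : ℤ) : Fin 4 → ℝ → ℝ :=
  ![fun x => x + k * LL N, fun x => exp (-(k * LL N)) * x + (m + n * goldenRatio),
    fun x => exp (k * LL N) * x + (m + n * goldenConj), fun x => x + l]

/-- Slopes of the components. -/
noncomputable def slope (N : ℕ) (k : ℤ) : Fin 4 → ℝ :=
  ![1, exp (-(k * LL N)), exp (k * LL N), 1]

theorem act_comp (N : ℕ) (k m n l : ℤ) (i : Fin 4) (p : E 4) :
    act N k m n l p i = comp N k m n l i (p i) := by
  fin_cases i <;> rfl

theorem comp_hasDerivAt (N : ℕ) (k m n l : ℤ) (i : Fin 4) (x : ℝ) :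
    HasDerivAt (comp N k m n l i) (slope N k i) x := by
  fin_cases i
  · exact (hasDerivAt_id x).add_const _
  · show HasDerivAt (fun x => exp (-(k * LL N)) * x + (m + n * goldenRatio)) (exp (-(k * LL N))) x
    simpa using ((hasDerivAt_id x).const_mul (exp (-(k * LL N)))).add_const
      ((m : ℝ) + n * goldenRatio)
  · show HasDerivAt (fun x => exp (k * LL N) * x + (m + n * goldenConj)) (exp (k * LL N)) x
    simpa using ((hasDerivAt_id x).const_mul (exp (k * LL N))).add_const
      ((m : ℝ) + n * goldenConj)
  · exact (hasDerivAt_id x).add_const _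

theorem gm_inv' (N : ℕ) (k m n l : ℤ) (ε r : ℝ) (p : E 4) (i j : Fin 4) :
    ∑ a, ∑ b, gm ε r (act N k m n l p) a b * pd i (fun q => act N k m n l q a) p *
      pd j (fun q => act N k m n l q b) p = gm ε r p i j := by
  have h : ∀ i a, pd i (fun q => act N k m n l q a) p = if a = i then slope N k a else 0 := by
    intro i a
    simp only [act_comp]
    exact pd_coord i a _ _ p (comp_hasDerivAt N k m n l a (p a))
  simp only [h]
  rw [Finset.sum_eq_single i]
  · rw [Finset.sum_eq_single j]
    · simp only [if_true]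
      unfold gm
      by_cases hij : i = j
      · subst hij
        simp only [Matrix.diagonal_apply_eq, act_0]
        have e1 : exp (2 * (p 0 + k * LL N)) * exp (-(k * LL N)) * exp (-(k * LL N)) =
            exp (2 * p 0) := by
          rw [← Real.exp_add, ← Real.exp_add]; congr 1; ring
        have e2 : exp (-(2 * (p 0 + k * LL N))) * exp (k * LL N) * exp (k * LL N) =
            exp (-(2 * p 0)) := by
          rw [← Real.exp_add, ← Real.exp_add]; congr 1; ring
        fin_cases i
        · simp [dd, slope]
        · simp only [dd, slope, Fin.mk_one, Matrix.cons_val_one, Matrix.cons_val_zero]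
          rw [← e1]; ring
        · simp only [dd, slope, Fin.reduceFinMk, Matrix.cons_val]
          rw [← e2]; ring
        · simp [dd, slope]
      · rw [Matrix.diagonal_apply_ne _ hij, Matrix.diagonal_apply_ne _ hij]
        ring
    · intro b _ hb
      simp [hb]
    · simp
  · intro a _ ha
    simp [ha]
  · simp

end Pool.Agent.W_MP_416086_gt
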