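import Pool.Agent.W_MP_416086_gt.Eigen

set_option autoImplicit false
set_option linter.unusedSectionVars false

open scoped ContDiff Topology
open MeasureTheory Real

namespace Pool.Agent.W_MP_416086_gt

theorem int_ee (k : ℤ) : ∫ t in (0 : ℝ)..1, ee (k * t) = if k = 0 then 1 else 0 := by
  by_cases hk : k = 0
  · subst hk
    simp [ee_zero]
  · rw [if_neg hk]
    have hk' : (2 * π * Complex.I * (k : ℝ) : ℂ) ≠ 0 := by
      have h1 : ((k : ℝ) : ℂ) ≠ 0 := by exact_mod_cast hk
      have h2 : (π : ℂ) ≠ 0 := by exact_mod_cast Real.pi_ne_zero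
      simp [h2, Complex.I_ne_zero, hk]
    have h1 : ∀ t ∈ Set.uIcc (0 : ℝ) 1, HasDerivAt (fun t : ℝ => (2 * π * Complex.I * (k : ℝ) : ℂ)⁻¹ * ee (k * t))
        (ee (k * t)) t := by
      intro t _
      have := (ee_hasDerivAt k t).const_mul (2 * π * Complex.I * (k : ℝ) : ℂ)⁻¹
      refine this.congr_deriv ?_
      rw [← mul_assoc, inv_mul_cancel₀ hk', one_mul]
    have hc : Continuous (fun t : ℝ => ee (k * t)) := by
      have := continuous_ee
      fun_prop
    rw [intervalIntegral.integral_eq_sub_of_hasDerivAt h1 (hc.intervalIntegrable _ _)]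
    rw [mul_one, mul_zero, ee_int, ee_zero]
    ring

theorem av_of_equivar (m a : ℤ) (v : E 4) {H : E 4 → ℂ}
    (h : ∀ (p : E 4) (t : ℝ), H (p + t • v) = ee (a * t) * H p) (p : E 4) :
    av m v H p = if a = m then H p else 0 := by
  unfold av
  have e : ∀ t : ℝ, ee (-(m * t)) • H (p + t • v) = ee (((a - m : ℤ) : ℝ) * t) * H p := by
    intro t
    rw [h, smul_eq_mul, ← mul_assoc, ← ee_add]
    congr 2
    push_cast
    ring
  simp only [e]
  rw [intervalIntegral.integral_mul_const, int_ee]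
  by_cases ham : a = m
  · subst ham; simp
  · have : a - m ≠ 0 := sub_ne_zero.2 ham
    simp [ham, this]

theorem av_add {m : ℤ} {v : E 4} {F G : E 4 → ℂ} (hF : Continuous F) (hG : Continuous G) (p : E 4) :
    av m v (fun q => F q + G q) p = av m v F p + av m v G p := by
  unfold av
  rw [← intervalIntegral.integral_add ((av_integrand_continuous m v hF p).intervalIntegrable _ _)
    ((av_integrand_continuous m v hG p).intervalIntegrable _ _)]
  simp only [smul_add]

theorem av_sum {ι : Type} (s : Finset ι) (m : ℤ) (v : E 4) (c : ι → ℂ) {f : ι → E 4 → ℂ}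
    (hf : ∀ i, Continuous (f i)) (p : E 4) :
    av m v (fun q => ∑ i ∈ s, c i * f i q) p = ∑ i ∈ s, c i * av m v (f i) p := by
  unfold av
  simp only [Finset.smul_sum]
  rw [intervalIntegral.integral_finsetSum]
  · refine Finset.sum_congr rfl fun i _ => ?_
    rw [← intervalIntegral.integral_const_mul]
    congr 1
    funext t
    simp only [smul_eq_mul]
    ring
  · intro i _
    have h1 : Continuous (fun q => c i * f i q) := continuous_const.mul (hf i)
    exact (av_integrand_continuous m v h1 p).intervalIntegrable _ _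

theorem ss_v1 (p : E 4) (t : ℝ) : ss (p + t • v1) = ss p + t ∧ tt (p + t • v1) = tt p := by
  have s5 := sqrt5_pos.ne'
  constructor
  · unfold ss tt
    simp [v1]
    ring
  · unfold tt
    simp [v1]

theorem ss_v2 (p : E 4) (t : ℝ) : ss (p + t • v2) = ss p ∧ tt (p + t • v2) = tt p + t := by
  have s5 := sqrt5_pos.ne'
  have h := goldenRatio_sub_goldenConj
  have h2 : tt (p + t • v2) = tt p + t := by
    unfold tt
    simp [v2]
    field_simp
    linear_combination t * h
  refine ⟨?_, h2⟩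
  unfold ss
  rw [h2]
  simp [v2]
  ring

/-- Exponential with a coefficient depending on `x`. -/
noncomputable def Hx (g : ℝ → ℝ) (a b : ℤ) (p : E 4) : ℂ := (g (p 0) : ℂ) * ee (a * ss p + b * tt p)

theorem Hx_v1 (g : ℝ → ℝ) (a b : ℤ) (p : E 4) (t : ℝ) : Hx g a b (p + t • v1) = ee (a * t) * Hx g a b p := by
  unfold Hx
  rw [(ss_v1 p t).1, (ss_v1 p t).2]
  have e0 : (p + t • v1) 0 = p 0 := by simp [v1]
  have e1 : (a : ℝ) * (ss p + t) + b * tt p = a * t + (a * ss p + b * tt p) := by ring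
  rw [e0, e1, ee_add]
  ring

theorem Hx_v2 (g : ℝ → ℝ) (a b : ℤ) (p : E 4) (t : ℝ) : Hx g a b (p + t • v2) = ee (b * t) * Hx g a b p := by
  unfold Hx
  rw [(ss_v2 p t).1, (ss_v2 p t).2]
  have e0 : (p + t • v2) 0 = p 0 := by simp [v2]
  have e1 : (a : ℝ) * ss p + b * (tt p + t) = b * t + (a * ss p + b * tt p) := by ring
  rw [e0, e1, ee_add]
  ring

theorem Hx_continuous {g : ℝ → ℝ} (hg : Continuous g) (a b : ℤ) : Continuous (Hx g a b) := by
  unfold Hx
  have := continuous_ee
  have := continuous_ss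
  have := continuous_tt
  have h0 : Continuous (fun p : E 4 => (g (p 0) : ℂ)) :=
    Complex.continuous_ofReal.comp (hg.comp (continuous_apply 0))
  fun_prop

/-- Double average. -/
noncomputable def av2 (m n : ℤ) (F : E 4 → ℂ) : E 4 → ℂ := av n v2 (av m v1 F)

theorem av2_Hx (g : ℝ → ℝ) (a b m n : ℤ) (p : E 4) :
    av2 m n (Hx g a b) p = if a = m ∧ b = n then Hx g a b p else 0 := by
  unfold av2
  have h1 : av m v1 (Hx g a b) = fun q => if a = m then Hx g a b q else 0 :=
    funext fun q => av_of_equivar m a v1 (Hx_v1 g a b) q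
  rw [h1]
  by_cases ham : a = m
  · simp only [ham, if_true, true_and]
    rw [← ham]
    exact av_of_equivar n b v2 (Hx_v2 g a b) p
  · simp only [ham, if_false, false_and]
    unfold av
    simp

theorem cos_ee (y : ℝ) : ((cos (2 * π * y) : ℝ) : ℂ) = (ee y + ee (-y)) / 2 := by
  rw [Complex.ofReal_cos, Complex.cos]
  unfold ee
  have e1 : ((2 * π * y : ℝ) : ℂ) * Complex.I = 2 * π * Complex.I * (y : ℂ) := by push_cast; ring
  have e2 : -((2 * π * y : ℝ) : ℂ) * Complex.I = 2 * π * Complex.I * ((-y : ℝ) : ℂ) := by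
    push_cast; ring
  rw [e1, e2]

theorem ww_complex (u : ℝ → ℝ) (j : ℤ) (p : E 4) :
    (ww u j p : ℂ) = Hx (fun x => u (x - j * tau) / 2) (Int.fib (2 * j)) (Int.fib (2 * j + 1)) p +
      Hx (fun x => u (x - j * tau) / 2) (-Int.fib (2 * j)) (-Int.fib (2 * j + 1)) p := by
  unfold ww Hx
  have hth : th j p = 2 * π * ((Int.fib (2 * j) : ℝ) * ss p + (Int.fib (2 * j + 1) : ℝ) * tt p) := by
    unfold th
    rw [← Aj_add_Bj, ← Aj_add_Bj', st_1 p, st_2 p]
    ring_nf
  rw [hth, Complex.ofReal_mul, cos_ee]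
  have e1 : (((-Int.fib (2 * j) : ℤ) : ℝ)) * ss p + ((-Int.fib (2 * j + 1) : ℤ) : ℝ) * tt p =
      -((Int.fib (2 * j) : ℝ) * ss p + (Int.fib (2 * j + 1) : ℝ) * tt p) := by
    push_cast; ring
  rw [e1]
  push_cast
  ring

theorem Aj_fib (j : ℤ) : Aj j * √5 = (Int.fib (2 * j + 1) : ℝ) - (Int.fib (2 * j) : ℝ) * goldenConj := by
  rw [← Aj_add_Bj, ← Aj_add_Bj', ← goldenRatio_sub_goldenConj]
  ring

theorem Aj_pos (j : ℤ) : 0 < Aj j := by
  unfold Aj
  have := sqrt5_pos
  positivity

theorem Aj_inj {i j : ℤ} (h : Aj i = Aj j) : i = j := by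
  unfold Aj at h
  have h1 : exp (i * tau) = exp (j * tau) := by
    have := sqrt5_pos.ne'
    exact (div_left_inj' this).1 h
  have h2 := Real.exp_injective h1
  have h3 := mul_right_cancel₀ tau_pos.ne' h2
  exact_mod_cast h3

theorem fib_idx {i j : ℤ} (h1 : Int.fib (2 * j) = Int.fib (2 * i))
    (h2 : Int.fib (2 * j + 1) = Int.fib (2 * i + 1)) : j = i := by
  apply Aj_inj
  have h3 := Aj_fib j
  rw [h1, h2, ← Aj_fib i] at h3
  exact mul_right_cancel₀ sqrt5_pos.ne' h3

theorem fib_neg {i j : ℤ} (h1 : -Int.fib (2 * j) = Int.fib (2 * i))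
    (h2 : -Int.fib (2 * j + 1) = Int.fib (2 * i + 1)) : False := by
  have h3 := Aj_fib j
  have h4 := Aj_fib i
  rw [← h1, ← h2] at h4
  push_cast at h4
  have h5 : Aj i * √5 = -(Aj j * √5) := by rw [h3, h4]; ring
  have h6 := mul_pos (Aj_pos i) sqrt5_pos
  have h7 := mul_pos (Aj_pos j) sqrt5_pos
  linarith

theorem av2_ww {u : ℝ → ℝ} (hu : Continuous u) (i j : ℤ) (p : E 4) :
    av2 (Int.fib (2 * i)) (Int.fib (2 * i + 1)) (fun q => (ww u j q : ℂ)) p =
      if j = i then Hx (fun x => u (x - i * tau) / 2) (Int.fib (2 * i)) (Int.fib (2 * i + 1)) p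
      else 0 := by
  have hg : Continuous (fun x => u (x - j * tau) / 2) := by fun_prop
  have e : (fun q => (ww u j q : ℂ)) = fun q =>
      Hx (fun x => u (x - j * tau) / 2) (Int.fib (2 * j)) (Int.fib (2 * j + 1)) q +
      Hx (fun x => u (x - j * tau) / 2) (-Int.fib (2 * j)) (-Int.fib (2 * j + 1)) q :=
    funext fun q => ww_complex u j q
  rw [e]
  set m := Int.fib (2 * i)
  set n := Int.fib (2 * i + 1)
  have c1 := Hx_continuous hg (Int.fib (2 * j)) (Int.fib (2 * j + 1))
  have c2 := Hx_continuous hg (-Int.fib (2 * j)) (-Int.fib (2 * j + 1))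
  have h1 : av2 m n (fun q =>
      Hx (fun x => u (x - j * tau) / 2) (Int.fib (2 * j)) (Int.fib (2 * j + 1)) q +
      Hx (fun x => u (x - j * tau) / 2) (-Int.fib (2 * j)) (-Int.fib (2 * j + 1)) q) p =
      av2 m n (Hx (fun x => u (x - j * tau) / 2) (Int.fib (2 * j)) (Int.fib (2 * j + 1))) p +
      av2 m n (Hx (fun x => u (x - j * tau) / 2) (-Int.fib (2 * j)) (-Int.fib (2 * j + 1))) p := by
    unfold av2
    rw [← av_add (av_continuous m v1 c1) (av_continuous m v1 c2)]
    congr 1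
    funext q
    exact av_add c1 c2 q
  rw [h1, av2_Hx, av2_Hx]
  have hn : ¬ (-Int.fib (2 * j) = m ∧ -Int.fib (2 * j + 1) = n) := fun h => fib_neg h.1 h.2
  rw [if_neg hn, add_zero]
  by_cases hji : j = i
  · subst hji
    simp [m, n]
  · rw [if_neg hji, if_neg]
    rintro ⟨h1, h2⟩
    exact hji (fib_idx h1 h2)

theorem ww_continuous {u : ℝ → ℝ} (hu : Continuous u) (j : ℤ) : Continuous (ww u j) := by
  unfold ww th
  fun_prop

theorem av2_FF {N : ℕ} (hN : 1 ≤ N) {q μ : ℝ} (hq : 0 < q) {u u' : ℝ → ℝ} (h : GS q μ u u')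
    {i i0 : ℤ} (hi : 0 ≤ i) (hi' : i < N) (hj : 0 ≤ i0) (hj' : i0 < N) (p : E 4) :
    av2 (Int.fib (2 * i)) (Int.fib (2 * i + 1)) (fun q => (FF u N i0 q : ℂ)) p =
      if i0 = i then Hx (fun x => u (x - i * tau) / 2) (Int.fib (2 * i)) (Int.fib (2 * i + 1)) p
      else 0 := by
  have hu : Continuous u := continuous_iff_continuousAt.2 fun x => (h.der x).continuousAt
  set m := Int.fib (2 * i) with hm
  set n := Int.fib (2 * i + 1) with hn
  have hv1 : ∀ (p : E 4) (t : ℝ), (p + t • v1) 0 = p 0 := fun p t => by simp [v1]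
  have hv2 : ∀ (p : E 4) (t : ℝ), (p + t • v2) 0 = p 0 := fun p t => by simp [v2]
  set w : ℤ → E 4 → ℂ := fun k q => (ww u (i0 + k * N) q : ℂ) with hw
  have hwc : ∀ k, Continuous (w k) := fun k =>
    Complex.continuous_ofReal.comp (ww_continuous hu _)
  have e0 : (fun q => (FF u N i0 q : ℂ)) = fun q => ∑' k, w k q := by
    funext q
    unfold FF
    rw [Complex.ofReal_tsum]
  have hb : ∀ p : E 4, ∃ b : ℤ → ℝ, Summable b ∧ ∀ k (q : E 4), q 0 = p 0 → ‖w k q‖ ≤ b k := by
    intro p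
    obtain ⟨b, hb1, hb2⟩ := ww_bounds_idx hN i0 hq h (|p 0| + 1)
    refine ⟨b, hb1, fun k q hq => ?_⟩
    have h1 := (hb2 k q (by rw [hq]; linarith)).1
    simp only [hw, Complex.norm_real]
    exact h1
  have e1 : av m v1 (fun q => ∑' k, w k q) = fun q => ∑' k, av m v1 (w k) q := by
    funext q
    obtain ⟨b, hb1, hb2⟩ := hb q
    exact (av_hasSum m v1 hb1 hwc q (fun k t => hb2 k _ (hv1 q t))).tsum_eq.symm
  have e2 : HasSum (fun k => av2 m n (w k) p) (av2 m n (fun q => (FF u N i0 q : ℂ)) p) := by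
    rw [e0]
    unfold av2
    rw [e1]
    obtain ⟨b, hb1, hb2⟩ := hb p
    refine av_hasSum n v2 hb1 (fun k => av_continuous m v1 (hwc k)) p (fun k t => ?_)
    refine av_norm_le m v1 _ fun s => ?_
    exact hb2 k _ (by rw [hv1, hv2])
  have e3 : ∀ k, av2 m n (w k) p = if k = 0 then (if i0 = i then
      Hx (fun x => u (x - i * tau) / 2) m n p else 0) else 0 := by
    intro k
    have h1 := av2_ww hu i (i0 + k * N) p
    rw [← hm, ← hn] at h1
    have h2 : av2 m n (w k) p = av2 m n (fun q => (ww u (i0 + k * N) q : ℂ)) p := rfl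
    rw [h2, h1]
    by_cases hk : k = 0
    · subst hk
      simp
    · rw [if_neg hk, if_neg]
      intro hc
      rcases lt_or_gt_of_ne hk with hk' | hk'
      · have : k * N ≤ (-1) * N := by
          apply mul_le_mul_of_nonneg_right (by omega) (by positivity)
        linarith
      · have : 1 * (N : ℤ) ≤ k * N := by
          apply mul_le_mul_of_nonneg_right (by omega) (by positivity)
        linarith
  have e4 : HasSum (fun k => av2 m n (w k) p) (if i0 = i then
      Hx (fun x => u (x - i * tau) / 2) m n p else 0) := by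
    have := hasSum_ite_eq (0 : ℤ) (if i0 = i then Hx (fun x => u (x - i * tau) / 2) m n p else 0)
    refine this.congr_fun ?_
    intro k
    exact e3 k
  exact e2.unique e4

theorem FF_linearIndependent {N : ℕ} (hN : 1 ≤ N) {ε μ : ℝ} (hε : 0 < ε) {u u' : ℝ → ℝ}
    (h : GS (4 * π ^ 2 * ε ^ 2 / 5) μ u u') :
    LinearIndependent ℝ (fun i : Fin N => FF u N (i : ℤ)) := by
  have hq : 0 < 4 * π ^ 2 * ε ^ 2 / 5 := by positivity
  rw [Fintype.linearIndependent_iff]
  intro g hg i
  have hc : ∀ i : Fin N, Continuous (fun q => (FF u N (i : ℤ) q : ℂ)) := fun i =>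
    Complex.continuous_ofReal.comp (FF_smooth_eq (r := 1) hN (i : ℤ) hε h).1.continuous
  set m := Int.fib (2 * (i : ℤ)) with hm
  set n := Int.fib (2 * (i : ℤ) + 1) with hn
  have h1 : (fun q : E 4 => ∑ j : Fin N, (g j : ℂ) * (FF u N (j : ℤ) q : ℂ)) = fun _ => 0 := by
    funext q
    have := congrFun hg q
    simp only [Finset.sum_apply, Pi.smul_apply, smul_eq_mul, Pi.zero_apply] at this
    exact_mod_cast this
  have h2 : av2 m n (fun q : E 4 => ∑ j : Fin N, (g j : ℂ) * (FF u N (j : ℤ) q : ℂ)) 0 = 0 := by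
    rw [h1]
    unfold av2 av
    simp
  have h3 : av2 m n (fun q : E 4 => ∑ j : Fin N, (g j : ℂ) * (FF u N (j : ℤ) q : ℂ)) 0 =
      ∑ j : Fin N, (g j : ℂ) * av2 m n (fun q => (FF u N (j : ℤ) q : ℂ)) 0 := by
    unfold av2
    rw [← av_sum _ n v2 _ (fun j => av_continuous m v1 (hc j))]
    congr 1
    funext q
    exact av_sum _ m v1 _ hc q
  rw [h3] at h2
  have h4 : ∀ j : Fin N, av2 m n (fun q => (FF u N (j : ℤ) q : ℂ)) 0 =
      if j = i then Hx (fun x => u (x - (i : ℤ) * tau) / 2) m n 0 else 0 := by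
    intro j
    have := av2_FF hN hq h (i := (i : ℤ)) (i0 := (j : ℤ)) (by positivity)
      (by exact_mod_cast i.2) (by positivity) (by exact_mod_cast j.2) 0
    rw [← hm, ← hn] at this
    rw [this]
    by_cases hji : j = i
    · simp [hji]
    · have : ¬ ((j : ℤ) = (i : ℤ)) := by
        intro hc
        apply hji
        exact Fin.ext (by exact_mod_cast hc)
      rw [if_neg hji, if_neg this]
  simp only [h4, mul_ite, mul_zero, Finset.sum_ite_eq', Finset.mem_univ, if_true] at h2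
  rcases mul_eq_zero.1 h2 with h5 | h5
  · exact_mod_cast h5
  · exfalso
    unfold Hx at h5
    rcases mul_eq_zero.1 h5 with h6 | h6
    · have h7 := h.pos ((0 : E 4) 0 - ((i : ℤ) : ℝ) * tau)
      have h8 : u ((0 : E 4) 0 - ((i : ℤ) : ℝ) * tau) / 2 = 0 := by exact_mod_cast h6
      linarith
    · exact ee_ne_zero _ h6

end Pool.Agent.W_MP_416086_gt
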