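import Pool.Agent.W_MP_416086_gt.Group

set_option autoImplicit false

open scoped ContDiff
open MeasureTheory Real

namespace Pool.Agent.W_MP_416086_gt

theorem act_free {N : ℕ} (hN : 1 ≤ N) {k m n l k' m' n' l' : ℤ} {p : E 4}
    (h : act N k m n l p = act N k' m' n' l' p) : k = k' ∧ m = m' ∧ n = n' ∧ l = l' := by
  have hL := LL_pos hN
  have h0 := congrFun h 0
  have h1 := congrFun h 1
  have h3 := congrFun h 3
  simp only [act_0, act_1, act_3] at h0 h1 h3
  have hk : (k : ℝ) = k' := by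
    have : (k : ℝ) * LL N = k' * LL N := by linarith
    exact mul_right_cancel₀ hL.ne' this
  have hk' : k = k' := by exact_mod_cast hk
  subst hk'
  have hmn : (m : ℝ) + n * goldenRatio = m' + n' * goldenRatio := by linarith
  have hn : n = n' := by
    by_contra hne
    have hne' : ((n : ℝ) - n') ≠ 0 := by
      intro h0
      apply hne
      have : (n : ℝ) = n' := by linarith
      exact_mod_cast this
    have : goldenRatio = ((m' - m : ℤ) : ℝ) / ((n - n' : ℤ) : ℝ) := by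
      rw [eq_div_iff (by push_cast; exact hne')]
      push_cast
      linarith
    apply goldenRatio_irrational
    refine ⟨((m' - m : ℤ) : ℚ) / ((n - n' : ℤ) : ℚ), ?_⟩
    push_cast
    push_cast at this
    exact this.symm
  subst hn
  have hm : (m : ℝ) = m' := by linarith
  have hl : (l : ℝ) = l' := by linarith
  exact ⟨rfl, by exact_mod_cast hm, rfl, by exact_mod_cast hl⟩

/-- Lattice coordinates. -/
noncomputable def tt (p : E 4) : ℝ := (p 1 - p 2) / √5
noncomputable def ss (p : E 4) : ℝ := p 1 - tt p * goldenRatio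

theorem st_1 (p : E 4) : p 1 = ss p + tt p * goldenRatio := by unfold ss; ring

theorem st_2 (p : E 4) : p 2 = ss p + tt p * goldenConj := by
  have h1 : tt p * √5 = p 1 - p 2 := by
    unfold tt
    exact div_mul_cancel₀ _ sqrt5_pos.ne'
  have h2 := goldenRatio_sub_goldenConj
  unfold ss
  linear_combination h1 + (tt p) * h2

theorem tt_act (N : ℕ) (k m n l : ℤ) (p : E 4) : tt (act N k m n l p) = tt (act N k 0 0 0 p) + n := by
  unfold tt
  simp only [act_1, act_2]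
  have h2 := goldenRatio_sub_goldenConj
  have h3 := sqrt5_pos.ne'
  field_simp
  push_cast
  linear_combination (n : ℝ) * h2

theorem ss_act (N : ℕ) (k m n l : ℤ) (p : E 4) : ss (act N k m n l p) = ss (act N k 0 0 0 p) + m := by
  unfold ss
  rw [tt_act]
  simp only [act_1]
  push_cast
  ring

/-- Fundamental domain. -/
noncomputable def Dom (N : ℕ) : Set (E 4) :=
  {p | (0 ≤ p 0 ∧ p 0 < LL N) ∧ (0 ≤ ss p ∧ ss p < 1) ∧ (0 ≤ tt p ∧ tt p < 1) ∧ (0 ≤ p 3 ∧ p 3 < 1)}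

theorem continuous_tt : Continuous tt := by unfold tt; fun_prop
theorem continuous_ss : Continuous ss := by
  unfold ss
  have := continuous_tt
  fun_prop

theorem measurableSet_Dom (N : ℕ) : MeasurableSet (Dom N) := by
  have h0 : Measurable (fun p : E 4 => p 0) := measurable_pi_apply 0
  have h3 : Measurable (fun p : E 4 => p 3) := measurable_pi_apply 3
  have hs := continuous_ss.measurable
  have ht := continuous_tt.measurable
  unfold Dom
  exact ((measurableSet_le measurable_const h0).inter (measurableSet_lt h0 measurable_const)).inter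
    (((measurableSet_le measurable_const hs).inter (measurableSet_lt hs measurable_const)).inter
      (((measurableSet_le measurable_const ht).inter (measurableSet_lt ht measurable_const)).inter
        ((measurableSet_le measurable_const h3).inter (measurableSet_lt h3 measurable_const))))

theorem exists_in_Dom {N : ℕ} (hN : 1 ≤ N) (p : E 4) : ∃ k m n l : ℤ, act N k m n l p ∈ Dom N := by
  have hL := LL_pos hN
  refine ⟨-⌊p 0 / LL N⌋, -⌊ss (act N (-⌊p 0 / LL N⌋) 0 0 0 p)⌋,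
    -⌊tt (act N (-⌊p 0 / LL N⌋) 0 0 0 p)⌋, -⌊p 3⌋, ?_⟩
  refine ⟨?_, ?_, ?_, ?_⟩
  · simp only [act_0]
    have h1 := Int.floor_le (p 0 / LL N)
    have h2 := Int.lt_floor_add_one (p 0 / LL N)
    rw [le_div_iff₀ hL] at h1
    rw [div_lt_iff₀ hL] at h2
    push_cast
    constructor <;> linarith
  · rw [ss_act]
    push_cast
    have h1 := Int.floor_le (ss (act N (-⌊p 0 / LL N⌋) 0 0 0 p))
    have h2 := Int.lt_floor_add_one (ss (act N (-⌊p 0 / LL N⌋) 0 0 0 p))
    constructor <;> linarith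
  · rw [tt_act]
    push_cast
    have h1 := Int.floor_le (tt (act N (-⌊p 0 / LL N⌋) 0 0 0 p))
    have h2 := Int.lt_floor_add_one (tt (act N (-⌊p 0 / LL N⌋) 0 0 0 p))
    constructor <;> linarith
  · simp only [act_3]
    have h1 := Int.floor_le (p 3)
    have h2 := Int.lt_floor_add_one (p 3)
    push_cast
    constructor <;> linarith

theorem int_eq_of_lt_one {a b : ℤ} {x : ℝ} (h1 : 0 ≤ x + a) (h2 : x + a < 1) (h3 : 0 ≤ x + b)
    (h4 : x + b < 1) : a = b := by
  have h5 : ((a - b : ℤ) : ℝ) < 1 := by push_cast; linarith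
  have h6 : (-1 : ℝ) < ((a - b : ℤ) : ℝ) := by push_cast; linarith
  have h7 : a - b < 1 := by exact_mod_cast h5
  have h8 : -1 < a - b := by exact_mod_cast h6
  omega

theorem unique_in_Dom {N : ℕ} (hN : 1 ≤ N) {p : E 4} {k m n l k' m' n' l' : ℤ}
    (h : act N k m n l p ∈ Dom N) (h' : act N k' m' n' l' p ∈ Dom N) :
    k = k' ∧ m = m' ∧ n = n' ∧ l = l' := by
  have hL := LL_pos hN
  obtain ⟨⟨a1, a2⟩, ⟨b1, b2⟩, ⟨c1, c2⟩, ⟨d1, d2⟩⟩ := h
  obtain ⟨⟨a1', a2'⟩, ⟨b1', b2'⟩, ⟨c1', c2'⟩, ⟨d1', d2'⟩⟩ := h'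
  simp only [act_0] at a1 a2 a1' a2'
  have hk : k = k' := by
    apply int_eq_of_lt_one (x := p 0 / LL N)
    · have : p 0 / LL N + k = (p 0 + k * LL N) / LL N := by field_simp
      rw [this]; positivity
    · have : p 0 / LL N + k = (p 0 + k * LL N) / LL N := by field_simp
      rw [this, div_lt_one hL]; exact a2
    · have : p 0 / LL N + k' = (p 0 + k' * LL N) / LL N := by field_simp
      rw [this]; positivity
    · have : p 0 / LL N + k' = (p 0 + k' * LL N) / LL N := by field_simp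
      rw [this, div_lt_one hL]; exact a2'
  subst hk
  rw [ss_act] at b1 b2 b1' b2'
  rw [tt_act] at c1 c2 c1' c2'
  simp only [act_3] at d1 d2 d1' d2'
  exact ⟨rfl, int_eq_of_lt_one b1 b2 b1' b2', int_eq_of_lt_one c1 c2 c1' c2',
    int_eq_of_lt_one d1 d2 d1' d2'⟩

theorem act_smooth (N : ℕ) (k m n l : ℤ) : ContDiff ℝ ∞ (act N k m n l) := by
  rw [contDiff_pi]
  intro i
  fin_cases i
  · show ContDiff ℝ ∞ (fun p : E 4 => p 0 + k * LL N)
    fun_prop
  · show ContDiff ℝ ∞ (fun p : E 4 => exp (-(k * LL N)) * p 1 + (m + n * goldenRatio))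
    fun_prop
  · show ContDiff ℝ ∞ (fun p : E 4 => exp (k * LL N) * p 2 + (m + n * goldenConj))
    fun_prop
  · show ContDiff ℝ ∞ (fun p : E 4 => p 3 + l)
    fun_prop

theorem act_proper {N : ℕ} (hN : 1 ≤ N) (C : Set (E 4)) (hC : IsCompact C) :
    {γ : Equiv.Perm (E 4) | γ ∈ Gam N ∧ ((γ '' C) ∩ C).Nonempty}.Finite := by
  have hL := LL_pos hN
  obtain ⟨R, hR⟩ := hC.isBounded.exists_norm_le
  have hR' : ∀ p ∈ C, ∀ i, |p i| ≤ R := fun p hp i => (norm_le_pi_norm p i).trans (hR p hp)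
  -- bound for everything
  set K : ℝ := 2 * R / LL N with hK
  set B : ℝ := R + exp (K * LL N) * R with hB
  set Z : ℤ := ⌈K⌉ + ⌈2 * B⌉ + ⌈B + 2 * (2 * B)⌉ + ⌈2 * R⌉ with hZ
  by_cases hne : C.Nonempty
  swap
  · rw [Set.not_nonempty_iff_eq_empty] at hne
    subst hne
    simp
  have hR0 : 0 ≤ R := by
    obtain ⟨p, hp⟩ := hne
    exact (norm_nonneg p).trans (hR p hp)
  have hK0 : 0 ≤ K := by positivity
  have hB0 : 0 ≤ B := by positivity
  apply Set.Finite.subset (Set.Finite.image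
    (fun t : ℤ × ℤ × ℤ × ℤ => actEquiv N t.1 t.2.1 t.2.2.1 t.2.2.2)
    ((Set.finite_Icc (-Z) Z).prod ((Set.finite_Icc (-Z) Z).prod
      ((Set.finite_Icc (-Z) Z).prod (Set.finite_Icc (-Z) Z)))))
  rintro γ ⟨⟨k, m, n, l, rfl⟩, ⟨q, ⟨p, hp, rfl⟩, hq⟩⟩
  rw [actEquiv_apply] at hq
  have a0 := hR' _ hq 0
  have a1 := hR' _ hq 1
  have a2 := hR' _ hq 2
  have a3 := hR' _ hq 3
  have b0 := hR' _ hp 0
  have b1 := hR' _ hp 1
  have b2 := hR' _ hp 2
  have b3 := hR' _ hp 3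
  simp only [act_0, act_1, act_2, act_3] at a0 a1 a2 a3
  have hk : |(k : ℝ)| ≤ K := by
    rw [hK, le_div_iff₀ hL]
    have : |(k : ℝ) * LL N| ≤ 2 * R := by
      have e : (k : ℝ) * LL N = (p 0 + k * LL N) - p 0 := by ring
      rw [e]
      exact (abs_sub _ _).trans (by linarith)
    rwa [abs_mul, abs_of_pos hL] at this
  have hkL : |(k : ℝ) * LL N| ≤ K * LL N := by
    rw [abs_mul, abs_of_pos hL]
    exact mul_le_mul_of_nonneg_right hk hL.le
  have hexp : exp (k * LL N) ≤ exp (K * LL N) := Real.exp_le_exp.2 ((le_abs_self _).trans hkL)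
  have hexp' : exp (-(k * LL N)) ≤ exp (K * LL N) :=
    Real.exp_le_exp.2 ((neg_le_abs _).trans hkL)
  have c1 : |(m : ℝ) + n * goldenRatio| ≤ B := by
    have e : (m : ℝ) + n * goldenRatio =
        (exp (-(k * LL N)) * p 1 + (m + n * goldenRatio)) - exp (-(k * LL N)) * p 1 := by ring
    rw [e]
    refine (abs_sub _ _).trans ?_
    rw [abs_mul, abs_of_pos (Real.exp_pos _)]
    have := mul_le_mul hexp' b1 (abs_nonneg _) (Real.exp_pos _).le
    linarith
  have c2 : |(m : ℝ) + n * goldenConj| ≤ B := by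
    have e : (m : ℝ) + n * goldenConj =
        (exp (k * LL N) * p 2 + (m + n * goldenConj)) - exp (k * LL N) * p 2 := by ring
    rw [e]
    refine (abs_sub _ _).trans ?_
    rw [abs_mul, abs_of_pos (Real.exp_pos _)]
    have := mul_le_mul hexp b2 (abs_nonneg _) (Real.exp_pos _).le
    linarith
  have s5 : (1 : ℝ) ≤ √5 := by
    rw [Real.one_le_sqrt]; norm_num
  have hn : |(n : ℝ)| ≤ 2 * B := by
    have e : (n : ℝ) * √5 = ((m : ℝ) + n * goldenRatio) - (m + n * goldenConj) := by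
      rw [← goldenRatio_sub_goldenConj]; ring
    have h1 : |(n : ℝ) * √5| ≤ 2 * B := by
      rw [e]
      exact (abs_sub _ _).trans (by linarith)
    rw [abs_mul, abs_of_pos sqrt5_pos] at h1
    have := mul_le_mul_of_nonneg_left s5 (abs_nonneg (n : ℝ))
    linarith
  have hm : |(m : ℝ)| ≤ B + 2 * (2 * B) := by
    have e : (m : ℝ) = (m + n * goldenRatio) - n * goldenRatio := by ring
    rw [e]
    refine (abs_sub _ _).trans ?_
    rw [abs_mul, abs_of_pos goldenRatio_pos]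
    have := mul_le_mul hn goldenRatio_lt_two.le goldenRatio_pos.le (by positivity)
    linarith
  have hl : |(l : ℝ)| ≤ 2 * R := by
    have e : (l : ℝ) = (p 3 + l) - p 3 := by ring
    rw [e]
    exact (abs_sub _ _).trans (by linarith)
  have n1 : 0 ≤ ⌈K⌉ := Int.ceil_nonneg hK0
  have n2 : 0 ≤ ⌈2 * B⌉ := Int.ceil_nonneg (by positivity)
  have n3 : 0 ≤ ⌈B + 2 * (2 * B)⌉ := Int.ceil_nonneg (by positivity)
  have n4 : 0 ≤ ⌈2 * R⌉ := Int.ceil_nonneg (by positivity)
  have conv : ∀ (a : ℤ) (x : ℝ), |(a : ℝ)| ≤ x → |a| ≤ ⌈x⌉ := by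
    intro a x h
    have h1 : ((|a| : ℤ) : ℝ) ≤ x := by push_cast; exact h
    have h2 : ((|a| : ℤ) : ℝ) ≤ (⌈x⌉ : ℝ) := h1.trans (Int.le_ceil x)
    exact_mod_cast h2
  have k1 := conv _ _ hk
  have k2 := conv _ _ hn
  have k3 := conv _ _ hm
  have k4 := conv _ _ hl
  refine ⟨(k, m, n, l), ?_, rfl⟩
  simp only [Set.mem_prod, Set.mem_Icc]
  rw [abs_le] at k1 k2 k3 k4
  refine ⟨⟨?_, ?_⟩, ⟨?_, ?_⟩, ⟨?_, ?_⟩, ⟨?_, ?_⟩⟩ <;> omega

theorem act_cocompact {N : ℕ} (hN : 1 ≤ N) :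
    ∃ C : Set (E 4), IsCompact C ∧ ∀ p, ∃ γ ∈ Gam N, γ p ∈ C := by
  refine ⟨Set.Icc ![0, -3, -3, 0] ![LL N, 3, 3, 1], isCompact_Icc, fun p => ?_⟩
  obtain ⟨k, m, n, l, h⟩ := exists_in_Dom hN p
  refine ⟨actEquiv N k m n l, act_mem N k m n l, ?_⟩
  rw [actEquiv_apply]
  set q := act N k m n l p with hq
  obtain ⟨⟨a1, a2⟩, ⟨b1, b2⟩, ⟨c1, c2⟩, ⟨d1, d2⟩⟩ := h
  have e1 := st_1 q
  have e2 := st_2 q
  have g1 := goldenRatio_pos
  have g2 := goldenRatio_lt_two
  have g3 := goldenConj_neg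
  have g4 := neg_one_lt_goldenConj
  rw [Set.mem_Icc]
  constructor
  · intro i
    fin_cases i
    · simpa using a1
    · show (-3 : ℝ) ≤ q 1
      rw [e1]; nlinarith
    · show (-3 : ℝ) ≤ q 2
      rw [e2]; nlinarith
    · simpa using d1
  · intro i
    fin_cases i
    · simpa using a2.le
    · show q 1 ≤ (3 : ℝ)
      rw [e1]; nlinarith
    · show q 2 ≤ (3 : ℝ)
      rw [e2]; nlinarith
    · simpa using d2.le

theorem gm_smooth (ε r : ℝ) (i j : Fin 4) : ContDiff ℝ ∞ (fun p => gm ε r p i j) := by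
  unfold gm
  by_cases hij : i = j
  · subst hij
    simp only [Matrix.diagonal_apply_eq]
    fin_cases i
    · show ContDiff ℝ ∞ (fun p : E 4 => (1 : ℝ))
      fun_prop
    · show ContDiff ℝ ∞ (fun p : E 4 => (ε ^ 2)⁻¹ * exp (2 * p 0))
      fun_prop
    · show ContDiff ℝ ∞ (fun p : E 4 => (ε ^ 2)⁻¹ * exp (-(2 * p 0)))
      fun_prop
    · show ContDiff ℝ ∞ (fun p : E 4 => r ^ 2)
      fun_prop
  · simp only [Matrix.diagonal_apply_ne _ hij]
    fun_prop

/-- The manifold `M_{N,ε,r}`. -/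
noncomputable def MM (N : ℕ) (ε r : ℝ) (hN : 1 ≤ N) (hε : 0 < ε) (hr : 0 < r) : ClosedManifold 4 where
  Γ := Gam N
  smooth := by
    rintro _ ⟨k, m, n, l, rfl⟩
    exact act_smooth N k m n l
  free := by
    rintro _ ⟨k, m, n, l, rfl⟩ p hp
    have h1 : act N k m n l p = act N 0 0 0 0 p := by
      rw [actEquiv_apply] at hp
      rw [hp]
      apply ext4 <;> simp
    obtain ⟨rfl, rfl, rfl, rfl⟩ := act_free hN h1
    ext1 q
    rw [actEquiv_apply]
    apply ext4 <;> simp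
  proper := act_proper hN
  cocompact := act_cocompact hN
  g := gm ε r
  g_smooth := gm_smooth ε r
  g_posDef p := by
    unfold gm
    rw [Matrix.posDef_diagonal_iff]
    exact fun i => dd_pos hε hr i _
  g_inv := by
    rintro _ ⟨k, m, n, l, rfl⟩ p i j
    exact gm_inv' N k m n l ε r p i j

theorem MM_ricci (N : ℕ) (ε r : ℝ) (hN : 1 ≤ N) (hε : 0 < ε) (hr : 0 < r) :
    (MM N ε r hN hε hr).RicciLowerBound 1 := by
  intro p v
  show -((4 : ℕ) - 1 : ℝ) * 1 * (∑ i, ∑ j, gm ε r p i j * v i * v j) ≤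
    ∑ i, ∑ j, ricci (gm ε r) i j p * v i * v j
  simp only [ricci_gm hε hr]
  have h1 : ∑ i, ∑ j, gm ε r p i j * v i * v j = ∑ i, dd ε r i (p 0) * v i * v i := by
    refine Finset.sum_congr rfl fun i _ => ?_
    rw [Finset.sum_eq_single i]
    · unfold gm
      rw [Matrix.diagonal_apply_eq]
    · intro j _ hj
      unfold gm
      rw [Matrix.diagonal_apply_ne _ (Ne.symm hj)]
      ring
    · simp
  rw [h1]
  simp only [Fin.sum_univ_four]
  have d0 : dd ε r 0 (p 0) = 1 := rfl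
  have d1 := dd_pos hε hr 1 (p 0)
  have d2 := dd_pos hε hr 2 (p 0)
  have d3 := dd_pos hε hr 3 (p 0)
  rw [d0]
  have e1 : 0 ≤ dd ε r 1 (p 0) * v 1 * v 1 := by
    have := mul_nonneg d1.le (mul_self_nonneg (v 1)); nlinarith
  have e2 : 0 ≤ dd ε r 2 (p 0) * v 2 * v 2 := by
    have := mul_nonneg d2.le (mul_self_nonneg (v 2)); nlinarith
  have e3 : 0 ≤ dd ε r 3 (p 0) * v 3 * v 3 := by
    have := mul_nonneg d3.le (mul_self_nonneg (v 3)); nlinarith
  have e0 := mul_self_nonneg (v 0)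
  simp
  nlinarith

/-- The volume density is constant. -/
theorem sqrt_det_gm {ε r : ℝ} (hε : 0 < ε) (hr : 0 < r) (p : E 4) :
    Real.sqrt (gm ε r p).det = (ε ^ 2)⁻¹ * r := by
  have h : (gm ε r p).det = ((ε ^ 2)⁻¹ * r) ^ 2 := by
    unfold gm
    rw [Matrix.det_diagonal, Fin.prod_univ_four]
    have e : exp (2 * p 0) * exp (-(2 * p 0)) = 1 := by rw [← Real.exp_add]; simp
    simp only [dd, Matrix.cons_val_zero, Matrix.cons_val_one, Matrix.cons_val]
    linear_combination ((ε ^ 2)⁻¹ * (ε ^ 2)⁻¹ * r ^ 2) * e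
  rw [h, Real.sqrt_sq (by positivity)]

/-- Matrix of the lattice coordinates. -/
noncomputable def TM : Matrix (Fin 4) (Fin 4) ℝ :=
  !![1, 0, 0, 0; 0, 1 - goldenRatio / √5, goldenRatio / √5, 0; 0, 1 / √5, -(1 / √5), 0; 0, 0, 0, 1]

theorem TM_det : TM.det = -(1 / √5) := by
  unfold TM
  have h3 := sqrt5_pos.ne'
  simp [Matrix.det_succ_row_zero, Fin.sum_univ_succ]
  field_simp
  ring

theorem volume_Dom (N : ℕ) (hN : 1 ≤ N) : volume (Dom N) = ENNReal.ofReal (LL N * √5) := by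
  have hL := LL_pos hN
  have h1 : Dom N = (Matrix.toLin' TM) ⁻¹' (Set.pi Set.univ fun i => Set.Ico ((0 : E 4) i) ((![LL N, 1, 1, 1] : E 4) i)) := by
    ext p
    simp only [Set.mem_preimage, Set.mem_pi, Set.mem_univ, true_imp_iff, Set.mem_Ico,
      Matrix.toLin'_apply]
    have e0 : (TM.mulVec p) 0 = p 0 := by
      simp [TM, Matrix.mulVec, dotProduct, Fin.sum_univ_four]
    have e1 : (TM.mulVec p) 1 = ss p := by
      simp [TM, Matrix.mulVec, dotProduct, Fin.sum_univ_four, ss, tt]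
      ring
    have e2 : (TM.mulVec p) 2 = tt p := by
      simp [TM, Matrix.mulVec, dotProduct, Fin.sum_univ_four, tt]
      ring
    have e3 : (TM.mulVec p) 3 = p 3 := by
      simp [TM, Matrix.mulVec, dotProduct, Fin.sum_univ_four]
    constructor
    · rintro ⟨h0, h1, h2, h3⟩ i
      fin_cases i
      · show (0 : ℝ) ≤ (TM.mulVec p) 0 ∧ (TM.mulVec p) 0 < LL N
        rw [e0]; exact h0
      · show (0 : ℝ) ≤ (TM.mulVec p) 1 ∧ (TM.mulVec p) 1 < 1
        rw [e1]; exact h1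
      · show (0 : ℝ) ≤ (TM.mulVec p) 2 ∧ (TM.mulVec p) 2 < 1
        rw [e2]; exact h2
      · show (0 : ℝ) ≤ (TM.mulVec p) 3 ∧ (TM.mulVec p) 3 < 1
        rw [e3]; exact h3
    · intro h
      have h0 : (0 : ℝ) ≤ (TM.mulVec p) 0 ∧ (TM.mulVec p) 0 < LL N := h 0
      have h1 : (0 : ℝ) ≤ (TM.mulVec p) 1 ∧ (TM.mulVec p) 1 < 1 := h 1
      have h2 : (0 : ℝ) ≤ (TM.mulVec p) 2 ∧ (TM.mulVec p) 2 < 1 := h 2
      have h3 : (0 : ℝ) ≤ (TM.mulVec p) 3 ∧ (TM.mulVec p) 3 < 1 := h 3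
      rw [e0] at h0
      rw [e1] at h1
      rw [e2] at h2
      rw [e3] at h3
      exact ⟨h0, h1, h2, h3⟩
  have hdet : LinearMap.det (Matrix.toLin' TM) = -(1 / √5) := by
    rw [LinearMap.det_toLin', TM_det]
  have h3 := sqrt5_pos
  rw [h1, MeasureTheory.Measure.addHaar_preimage_linearMap _ (by
    rw [hdet]; exact neg_ne_zero.2 (by positivity)), hdet, Real.volume_pi_Ico,
    Fin.prod_univ_four]
  have e1 : |(-(1 / √5))⁻¹| = √5 := by
    rw [inv_neg, abs_neg, one_div, inv_inv, abs_of_pos h3]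
  rw [e1]
  simp
  rw [← ENNReal.ofReal_mul h3.le, mul_comm]

theorem MM_volume (N : ℕ) (ε r : ℝ) (hN : 1 ≤ N) (hε : 0 < ε) (hr : 0 < r) :
    (MM N ε r hN hε hr).HasVolume ((ε ^ 2)⁻¹ * r * (LL N * √5)) := by
  refine ⟨Dom N, measurableSet_Dom N, fun p => ?_, ?_⟩
  · obtain ⟨k, m, n, l, h⟩ := exists_in_Dom hN p
    refine ⟨actEquiv N k m n l, ⟨act_mem N k m n l, h⟩, ?_⟩
    rintro _ ⟨⟨k', m', n', l', rfl⟩, h'⟩
    obtain ⟨rfl, rfl, rfl, rfl⟩ := unique_in_Dom hN h h'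
    rfl
  · show ∫⁻ p in Dom N, ENNReal.ofReal (Real.sqrt (gm ε r p).det) = _
    simp only [sqrt_det_gm hε hr]
    rw [MeasureTheory.setLIntegral_const, volume_Dom N hN, ← ENNReal.ofReal_mul (by positivity)]

end Pool.Agent.W_MP_416086_gt
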