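import Pool.Agent.W_MP_416086_gt.Avg
import Pool.Agent.W_MP_416086_gt.Bdd

set_option autoImplicit false
set_option linter.unusedSectionVars false

open scoped ContDiff Topology
open MeasureTheory Real

namespace Pool.Agent.W_MP_416086_gt

/-- Coordinate vectors. -/
noncomputable abbrev e4 (i : Fin 4) : E 4 := Pi.single i 1

/-- Period vectors. -/
noncomputable def v1 : E 4 := ![0, 1, 1, 0]
noncomputable def v2 : E 4 := ![0, goldenRatio, goldenConj, 0]
noncomputable def v3 : E 4 := ![0, 0, 0, 1]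

/-- The Laplacian with constant density, acting on vector valued functions. -/
noncomputable def Lop {G : Type} [NormedAddCommGroup G] [NormedSpace ℝ G] (ε r : ℝ) (F : E 4 → G)
    (p : E 4) : G :=
  D2 (e4 0) F p + (ε ^ 2 * exp (-(2 * p 0))) • D2 (e4 1) F p +
    (ε ^ 2 * exp (2 * p 0)) • D2 (e4 2) F p + (r ^ 2)⁻¹ • D2 (e4 3) F p

/-- Inverse diagonal entries. -/
noncomputable def idd (ε r : ℝ) : Fin 4 → ℝ → ℝ :=
  ![fun _ => 1, fun x => ε ^ 2 * exp (-(2 * x)), fun x => ε ^ 2 * exp (2 * x), fun _ => (r ^ 2)⁻¹]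

theorem dd_inv (ε r : ℝ) (i : Fin 4) (x : ℝ) : (dd ε r i x)⁻¹ = idd ε r i x := by
  fin_cases i
  · simp [dd, idd]
  · show ((ε ^ 2)⁻¹ * exp (2 * x))⁻¹ = ε ^ 2 * exp (-(2 * x))
    rw [mul_inv, inv_inv, Real.exp_neg]
  · show ((ε ^ 2)⁻¹ * exp (-(2 * x)))⁻¹ = ε ^ 2 * exp (2 * x)
    rw [mul_inv, inv_inv, Real.exp_neg, inv_inv]
  · simp [dd, idd]

theorem idd_hasDerivAt (ε r : ℝ) (i : Fin 4) (x : ℝ) :
    ∃ k : ℝ, HasDerivAt (idd ε r i) k x ∧ (i = 0 → k = 0) := by
  have h2 : HasDerivAt (fun x : ℝ => 2 * x) 2 x := by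
    simpa using (hasDerivAt_id x).const_mul 2
  have h2' : HasDerivAt (fun x : ℝ => -(2 * x)) (-2) x := h2.neg
  fin_cases i
  · exact ⟨0, hasDerivAt_const x (1 : ℝ), fun _ => rfl⟩
  · exact ⟨_, (h2'.exp).const_mul (ε ^ 2), fun h => absurd h (by decide)⟩
  · exact ⟨_, (h2.exp).const_mul (ε ^ 2), fun h => absurd h (by decide)⟩
  · exact ⟨0, hasDerivAt_const x ((r ^ 2)⁻¹ : ℝ), fun _ => rfl⟩

theorem lap_gm {ε r : ℝ} (hε : 0 < ε) (hr : 0 < r) {f : E 4 → ℝ} (hf : ContDiff ℝ 2 f) (p : E 4) :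
    lap (gm ε r) f p = Lop ε r f p := by
  unfold lap
  simp only [sqrt_det_gm hε hr, gm_inv hε hr]
  set c := (ε ^ 2)⁻¹ * r with hc
  have hc0 : c ≠ 0 := by positivity
  have h1 : ∀ i : Fin 4, pd i (fun q => c * ∑ j, Matrix.diagonal (fun i => (dd ε r i (q 0))⁻¹) i j *
      pd j f q) p = c * (idd ε r i (p 0) * D2 (e4 i) f p) := by
    intro i
    have e1 : (fun q : E 4 => c * ∑ j, Matrix.diagonal (fun i => (dd ε r i (q 0))⁻¹) i j * pd j f q) =
        fun q => c * (idd ε r i (q 0) * fderiv ℝ f q (e4 i)) := by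
      funext q
      congr 1
      rw [Finset.sum_eq_single i]
      · rw [Matrix.diagonal_apply_eq, dd_inv]; rfl
      · intro j _ hj
        rw [Matrix.diagonal_apply_ne _ (Ne.symm hj), zero_mul]
      · simp
    rw [e1]
    obtain ⟨k, hk, hk0⟩ := idd_hasDerivAt ε r i (p 0)
    have h2 := hasFDerivAt_coord (0 : Fin 4) (idd ε r i) k p hk
    have h3 : HasFDerivAt (fun q : E 4 => fderiv ℝ f q (e4 i))
        (fderiv ℝ (fun q : E 4 => fderiv ℝ f q (e4 i)) p) p :=
      ((contDiff_fderiv_apply hf (e4 i)).differentiable (by norm_num) p).hasFDerivAt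
    have h4 : HasFDerivAt (fun q : E 4 => c * (idd ε r i (q 0) * fderiv ℝ f q (e4 i))) _ p :=
      (h2.mul h3).const_mul c
    rw [pd_eq h4]
    simp only [_root_.smul_apply, _root_.add_apply, smul_eq_mul]
    have h5 : k * (ContinuousLinearMap.proj 0 : E 4 →L[ℝ] ℝ) (Pi.single i 1) = 0 := by
      by_cases hi : i = 0
      · rw [hk0 hi]; simp
      · simp [Ne.symm hi]
    rw [h5]
    unfold D2
    ring
  simp only [h1]
  rw [← Finset.mul_sum, ← mul_assoc, inv_mul_cancel₀ hc0, one_mul, Fin.sum_univ_four]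
  unfold Lop
  simp [idd]

/-! ### Complexification -/

theorem D2_ofReal {f : E 4 → ℝ} (hf : ContDiff ℝ 2 f) (w p : E 4) :
    D2 w (fun q => (f q : ℂ)) p = ((D2 w f p : ℝ) : ℂ) := by
  have h1 : ∀ {g : E 4 → ℝ}, ContDiff ℝ 1 g → ∀ q, fderiv ℝ (fun q => (g q : ℂ)) q w =
      ((fderiv ℝ g q w : ℝ) : ℂ) := by
    intro g hg q
    have h2 : HasFDerivAt g (fderiv ℝ g q) q := (hg.differentiable (by norm_num) q).hasFDerivAt
    have h3 := (Complex.ofRealCLM.hasFDerivAt (x := g q)).comp q h2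
    have h4 : fderiv ℝ (fun q => (g q : ℂ)) q = Complex.ofRealCLM.comp (fderiv ℝ g q) := h3.fderiv
    rw [h4]
    rfl
  unfold D2
  have e1 : (fun q => fderiv ℝ (fun q => (f q : ℂ)) q w) = fun q => ((fderiv ℝ f q w : ℝ) : ℂ) := by
    funext q
    exact h1 (hf.of_le (by norm_num)) q
  rw [e1, h1 (contDiff_fderiv_apply hf w)]

theorem Lop_ofReal (ε r : ℝ) {f : E 4 → ℝ} (hf : ContDiff ℝ 2 f) (p : E 4) :
    Lop ε r (fun q => (f q : ℂ)) p = ((Lop ε r f p : ℝ) : ℂ) := by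
  unfold Lop
  simp only [D2_ofReal hf]
  push_cast
  simp

/-! ### Averages commute with the Laplacian -/

theorem av_Lop (ε r : ℝ) (m : ℤ) (v : E 4) (hv : v 0 = 0) {F : E 4 → ℂ} (hF : ContDiff ℝ 2 F)
    (p : E 4) : Lop ε r (av m v F) p = av m v (Lop ε r F) p := by
  unfold Lop
  simp only [av_D2 m v hF]
  have hc : ∀ i, Continuous (fun t : ℝ => ee (-(m * t)) • D2 (e4 i) F (p + t • v)) :=
    fun i => av_integrand_continuous m v (D2_continuous hF (e4 i)) p
  have hi : ∀ i, IntervalIntegrable (fun t : ℝ => ee (-(m * t)) • D2 (e4 i) F (p + t • v)) volume 0 1 :=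
    fun i => (hc i).intervalIntegrable _ _
  have h0 : ∀ t : ℝ, (p + t • v) 0 = p 0 := by
    intro t; simp [hv]
  unfold av
  simp only [h0]
  have e : ∀ t : ℝ, ee (-(m * t)) • (D2 (e4 0) F (p + t • v) +
      (ε ^ 2 * exp (-(2 * p 0))) • D2 (e4 1) F (p + t • v) +
      (ε ^ 2 * exp (2 * p 0)) • D2 (e4 2) F (p + t • v) + (r ^ 2)⁻¹ • D2 (e4 3) F (p + t • v)) =
      ee (-(m * t)) • D2 (e4 0) F (p + t • v) +
      (ε ^ 2 * exp (-(2 * p 0))) • (ee (-(m * t)) • D2 (e4 1) F (p + t • v)) +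
      (ε ^ 2 * exp (2 * p 0)) • (ee (-(m * t)) • D2 (e4 2) F (p + t • v)) +
      (r ^ 2)⁻¹ • (ee (-(m * t)) • D2 (e4 3) F (p + t • v)) := by
    intro t
    simp only [smul_add]
    rw [smul_comm (ee (-(m * t))) (ε ^ 2 * exp (-(2 * p 0))), smul_comm (ee (-(m * t))) (ε ^ 2 * exp (2 * p 0)),
      smul_comm (ee (-(m * t))) ((r ^ 2)⁻¹)]
  simp only [e]
  have i0 := hi 0
  have i1 : IntervalIntegrable (fun t : ℝ => (ε ^ 2 * exp (-(2 * p 0))) •
      (ee (-(m * t)) • D2 (e4 1) F (p + t • v))) volume 0 1 :=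
    ((hc 1).const_smul (ε ^ 2 * exp (-(2 * p 0)))).intervalIntegrable _ _
  have i2 : IntervalIntegrable (fun t : ℝ => (ε ^ 2 * exp (2 * p 0)) •
      (ee (-(m * t)) • D2 (e4 2) F (p + t • v))) volume 0 1 :=
    ((hc 2).const_smul (ε ^ 2 * exp (2 * p 0))).intervalIntegrable _ _
  have i3 : IntervalIntegrable (fun t : ℝ => (r ^ 2)⁻¹ •
      (ee (-(m * t)) • D2 (e4 3) F (p + t • v))) volume 0 1 :=
    ((hc 3).const_smul ((r ^ 2)⁻¹)).intervalIntegrable _ _
  rw [intervalIntegral.integral_add ((i0.add i1).add i2) i3,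
    intervalIntegral.integral_add (i0.add i1) i2, intervalIntegral.integral_add i0 i1,
    intervalIntegral.integral_smul, intervalIntegral.integral_smul, intervalIntegral.integral_smul]

/-- Directional derivatives of an equivariant function. -/
theorem equivar_fderiv {F : E 4 → ℂ} (hF : ContDiff ℝ 1 F) (w : E 4) (α : ℝ)
    (h : ∀ (q : E 4) (t : ℝ), F (q + t • w) = ee (α * t) • F q) (q : E 4) :
    fderiv ℝ F q w = (2 * π * Complex.I * α) • F q := by
  have h1 := hasDerivAt_line hF q w 0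
  have h2 : HasDerivAt (fun t : ℝ => F (q + t • w)) ((2 * π * Complex.I * α) * ee (α * 0) * F q) 0 := by
    have h3 := (ee_hasDerivAt α 0).mul_const (F q)
    have e : (fun t : ℝ => F (q + t • w)) = fun t : ℝ => ee (α * t) * F q := by
      funext t; rw [h]; rfl
    rw [e]
    exact h3
  have h4 := h1.unique h2
  simp only [zero_smul, add_zero, mul_zero, ee_zero, mul_one] at h4
  rw [h4]
  rfl

theorem equivar_D2 {F : E 4 → ℂ} (hF : ContDiff ℝ 2 F) (w : E 4) (α : ℝ)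
    (h : ∀ (q : E 4) (t : ℝ), F (q + t • w) = ee (α * t) • F q) (q : E 4) :
    D2 w F q = -((2 * π * α) ^ 2 : ℝ) • F q := by
  have h1 := equivar_fderiv (hF.of_le (by norm_num)) w α h
  unfold D2
  have e : (fun q => fderiv ℝ F q w) = fun q => (2 * π * Complex.I * α) • F q := funext h1
  rw [e]
  have h2 : HasFDerivAt F (fderiv ℝ F q) q := (hF.differentiable (by norm_num) q).hasFDerivAt
  have h3 := h2.const_smul (2 * π * Complex.I * α : ℂ)
  have h4 : fderiv ℝ (fun q => (2 * π * Complex.I * α : ℂ) • F q) q =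
      (2 * π * Complex.I * α : ℂ) • fderiv ℝ F q := h3.fderiv
  rw [h4, _root_.smul_apply, h1 q, smul_smul]
  rw [Complex.real_smul, smul_eq_mul]
  push_cast
  have : Complex.I * Complex.I = -1 := Complex.I_mul_I
  linear_combination (4 * (π : ℂ) ^ 2 * α ^ 2 * F q) * this

/-! ### Fourier modes -/

/-- Frequencies. -/
noncomputable def al (m n : ℤ) : ℝ := (n - m * goldenConj) / √5
noncomputable def be (m n : ℤ) : ℝ := (m * goldenRatio - n) / √5

theorem al_mul_be (m n : ℤ) : al m n * be m n = ((m ^ 2 + m * n - n ^ 2 : ℤ) : ℝ) / 5 := by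
  unfold al be
  rw [div_mul_div_comm, Real.mul_self_sqrt (by norm_num)]
  congr 1
  push_cast
  have h1 := goldenRatio_mul_goldenConj
  have h2 := goldenRatio_add_goldenConj
  linear_combination (-(m : ℝ) ^ 2) * h1 + ((m : ℝ) * n) * h2

theorem int_lin_eq {x : ℝ} (hx : Irrational x) {m n : ℤ} (h : (n : ℝ) = m * x) : m = 0 ∧ n = 0 := by
  by_cases hm : m = 0
  · subst hm
    refine ⟨rfl, ?_⟩
    have : (n : ℝ) = 0 := by rw [h]; simp
    exact_mod_cast this
  · exfalso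
    apply hx
    have hm' : (m : ℝ) ≠ 0 := by exact_mod_cast hm
    refine ⟨(n : ℚ) / m, ?_⟩
    push_cast
    rw [h]
    field_simp

theorem norm_form_ne_zero {m n : ℤ} (h : ¬ (m = 0 ∧ n = 0)) : m ^ 2 + m * n - n ^ 2 ≠ 0 := by
  intro h0
  have h1 := al_mul_be m n
  rw [h0] at h1
  have h2 : al m n * be m n = 0 := by rw [h1]; simp
  have s5 := sqrt5_pos.ne'
  rcases mul_eq_zero.1 h2 with h3 | h3
  · unfold al at h3
    rw [div_eq_zero_iff] at h3
    rcases h3 with h3 | h3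
    · exact h (int_lin_eq goldenConj_irrational (by linarith))
    · exact s5 h3
  · unfold be at h3
    rw [div_eq_zero_iff] at h3
    rcases h3 with h3 | h3
    · exact h (int_lin_eq goldenRatio_irrational (by linarith))
    · exact s5 h3

theorem al_be_ge {m n : ℤ} (h : ¬ (m = 0 ∧ n = 0)) : 1 / 5 ≤ |al m n * be m n| := by
  rw [al_mul_be, abs_div]
  have h1 := norm_form_ne_zero h
  have h2 : (1 : ℤ) ≤ |m ^ 2 + m * n - n ^ 2| := Int.one_le_abs h1
  have h3 : (1 : ℝ) ≤ |((m ^ 2 + m * n - n ^ 2 : ℤ) : ℝ)| := by exact_mod_cast h2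
  have h5 : |(5 : ℝ)| = 5 := by norm_num
  rw [h5]
  exact div_le_div_of_nonneg_right h3 (by norm_num)

end Pool.Agent.W_MP_416086_gt
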