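import Pool.Agent.W_MP_416086_gt.Modes
import Pool.Agent.W_MP_416086_gt.Ground

set_option autoImplicit false
set_option linter.unusedSectionVars false

open scoped ContDiff Topology
open MeasureTheory Real

namespace Pool.Agent.W_MP_416086_gt

/-! ### Constant coefficient ODEs -/

theorem exp_solution (k : ℂ) (y : ℝ → ℂ) (hy : ∀ x, HasDerivAt y (k * y x) x) (x : ℝ) :
    y x = y 0 * Complex.exp (k * x) := by
  have h1 : ∀ x : ℝ, HasDerivAt (fun x : ℝ => y x * Complex.exp (-(k * x))) 0 x := by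
    intro x
    have h2 : HasDerivAt (fun x : ℝ => -(k * (x : ℂ))) (-(k * 1)) x :=
      ((Complex.ofRealCLM.hasDerivAt (x := x)).const_mul k).neg
    have h3 := (hy x).mul h2.cexp
    exact h3.congr_deriv (by ring)
  have h4 := is_const_of_deriv_eq_zero (f := fun x : ℝ => y x * Complex.exp (-(k * x)))
    (fun x => (h1 x).differentiableAt) (fun x => (h1 x).deriv) x 0
  simp only [Complex.ofReal_zero, mul_zero, neg_zero, Complex.exp_zero, mul_one] at h4
  rw [← h4, mul_assoc, ← Complex.exp_add]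
  simp

theorem const_coeff_bounded {κ : ℝ} (hκ : 0 < κ) (c c' : ℝ → ℂ) (hc : ∀ x, HasDerivAt c (c' x) x)
    (hc' : ∀ x, HasDerivAt c' ((κ : ℂ) * c x) x) (B : ℝ) (hB : ∀ x, ‖c x‖ ≤ B) (x : ℝ) : c x = 0 := by
  obtain ⟨k, hk, hk2⟩ : ∃ k : ℝ, 0 < k ∧ k * k = κ :=
    ⟨√κ, Real.sqrt_pos.2 hκ, Real.mul_self_sqrt hκ.le⟩
  have hk2' : (k : ℂ) * k = κ := by exact_mod_cast hk2
  have hy := exp_solution (k : ℂ) (fun x => c' x + k * c x) (fun x => by
    have := (hc' x).add ((hc x).const_mul (k : ℂ))
    exact this.congr_deriv (by rw [← hk2']; ring))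
  have hz := exp_solution (-k : ℂ) (fun x => c' x - k * c x) (fun x => by
    have := (hc' x).sub ((hc x).const_mul (k : ℂ))
    exact this.congr_deriv (by rw [← hk2']; ring))
  set y0 := c' 0 + k * c 0 with hy0
  set z0 := c' 0 - k * c 0 with hz0
  have hcx : ∀ x : ℝ, 2 * (k : ℂ) * c x = y0 * Complex.exp (k * x) - z0 * Complex.exp (-k * x) := by
    intro x
    rw [← hy x, ← hz x]
    ring
  have hBpos : 0 ≤ B := (norm_nonneg _).trans (hB 0)
  have hb : ∀ x : ℝ, ‖y0 * Complex.exp (k * x) - z0 * Complex.exp (-k * x)‖ ≤ 2 * k * B := by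
    intro x
    rw [← hcx, norm_mul, norm_mul, Complex.norm_real, Real.norm_eq_abs, abs_of_pos hk]
    have := hB x
    simp only [Complex.norm_ofNat]
    gcongr
  have hne : ∀ x : ℝ, ‖Complex.exp (k * x)‖ = Real.exp (k * x) := by
    intro x
    rw [Complex.norm_exp]
    simp
  have hne' : ∀ x : ℝ, ‖Complex.exp (-k * x)‖ = Real.exp (-(k * x)) := by
    intro x
    rw [Complex.norm_exp]
    simp
  have key : ∀ (a : ℝ), 0 ≤ a → ∀ (b : ℝ), (∀ x : ℝ, 0 ≤ x → a * Real.exp (k * x) ≤ b) → a = 0 := by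
    intro a ha b h
    by_contra hne
    have hapos : 0 < a := lt_of_le_of_ne ha (Ne.symm hne)
    have hb0 : 0 ≤ b := by
      have := h 0 le_rfl
      simp at this
      linarith
    have h1 := h ((b / a + 1) / k) (by positivity)
    have h2 : k * ((b / a + 1) / k) = b / a + 1 := by field_simp
    rw [h2] at h1
    have h3 := Real.add_one_le_exp (b / a + 1)
    have h4 : a * (b / a + 1 + 1) ≤ b := (mul_le_mul_of_nonneg_left h3 ha).trans h1
    have h5 : a * (b / a + 1 + 1) = b + 2 * a := by field_simp; ring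
    linarith
  have hy00 : ‖y0‖ = 0 := by
    apply key _ (norm_nonneg _) (2 * k * B + ‖z0‖)
    intro x hx
    have h1 := hb x
    have h2 : ‖y0 * Complex.exp (k * x)‖ ≤ ‖y0 * Complex.exp (k * x) - z0 * Complex.exp (-k * x)‖ +
        ‖z0 * Complex.exp (-k * x)‖ := by
      have := norm_add_le (y0 * Complex.exp (k * x) - z0 * Complex.exp (-k * x)) (z0 * Complex.exp (-k * x))
      simpa using this
    rw [norm_mul, norm_mul, hne, hne'] at h2
    have h3 : Real.exp (-(k * x)) ≤ 1 := by
      rw [Real.exp_le_one_iff]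
      have : 0 ≤ k * x := by positivity
      linarith
    have h4 := mul_le_mul_of_nonneg_left h3 (norm_nonneg z0)
    linarith
  have hz00 : ‖z0‖ = 0 := by
    apply key _ (norm_nonneg _) (2 * k * B + ‖y0‖)
    intro x hx
    have h1 := hb (-x)
    have h2 : ‖z0 * Complex.exp (-k * (-x : ℝ))‖ ≤
        ‖y0 * Complex.exp (k * (-x : ℝ)) - z0 * Complex.exp (-k * (-x : ℝ))‖ +
        ‖y0 * Complex.exp (k * (-x : ℝ))‖ := by
      have := norm_add_le (-(y0 * Complex.exp (k * (-x : ℝ)) - z0 * Complex.exp (-k * (-x : ℝ))))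
        (y0 * Complex.exp (k * (-x : ℝ)))
      rw [norm_neg] at this
      simpa using this
    rw [norm_mul, norm_mul, hne, hne'] at h2
    have h3 : Real.exp (k * -x) ≤ 1 := by
      rw [Real.exp_le_one_iff]
      have : 0 ≤ k * x := by positivity
      linarith
    have h5 : -(k * -x) = k * x := by ring
    rw [h5] at h2
    have h4 := mul_le_mul_of_nonneg_left h3 (norm_nonneg y0)
    linarith
  rw [norm_eq_zero] at hy00 hz00
  have h6 := hcx x
  rw [hy00, hz00] at h6
  simp at h6
  rcases h6 with h6 | h6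
  · exact absurd h6 hk.ne'
  · exact h6

theorem harmonic_periodic {om L : ℝ} (hom : 0 < om) (hL : 0 < L) (homL : om * L < 2 * π) (c c' : ℝ → ℂ)
    (hc : ∀ x, HasDerivAt c (c' x) x) (hc' : ∀ x, HasDerivAt c' (-((om : ℂ) ^ 2) * c x) x)
    (hper : ∀ x, c (x + L) = c x) (x : ℝ) : c x = 0 := by
  have hper' : ∀ x, c' (x + L) = c' x := by
    intro x
    have h1 : HasDerivAt (fun x => c (x + L)) (c' (x + L)) x := (hc (x + L)).comp_add_const x L
    have h2 : (fun x => c (x + L)) = c := funext hper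
    rw [h2] at h1
    exact h1.unique (hc x)
  have hI : Complex.I * Complex.I = -1 := Complex.I_mul_I
  have hy := exp_solution (Complex.I * om) (fun x => c' x + Complex.I * om * c x) (fun x => by
    have := (hc' x).add ((hc x).const_mul (Complex.I * om))
    exact this.congr_deriv (by linear_combination (-(om : ℂ) ^ 2 * c x) * hI))
  have hz := exp_solution (-(Complex.I * om)) (fun x => c' x - Complex.I * om * c x) (fun x => by
    have := (hc' x).sub ((hc x).const_mul (Complex.I * om))
    exact this.congr_deriv (by linear_combination (-(om : ℂ) ^ 2 * c x) * hI))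
  have hne1 : Complex.exp (Complex.I * om * L) ≠ 1 := by
    intro h
    rw [Complex.exp_eq_one_iff] at h
    obtain ⟨n, hn⟩ := h
    have h1 : ((om * L : ℝ) : ℂ) = ((n * (2 * π) : ℝ) : ℂ) := by
      have : Complex.I * ((om * L : ℝ) : ℂ) = Complex.I * ((n * (2 * π) : ℝ) : ℂ) := by
        push_cast
        rw [← mul_assoc, hn]
        ring
      exact mul_left_cancel₀ Complex.I_ne_zero this
    have h2 : om * L = n * (2 * π) := by exact_mod_cast h1
    have h3 : 0 < om * L := by positivity
    have hpi := Real.pi_pos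
    rw [h2] at h3 homL
    have h4 : (0 : ℝ) < n := by
      by_contra hcon
      push Not at hcon
      have : (n : ℝ) * (2 * π) ≤ 0 := mul_nonpos_of_nonpos_of_nonneg hcon (by positivity)
      linarith
    have h5 : (n : ℝ) < 1 := by
      by_contra hcon
      push Not at hcon
      have : 1 * (2 * π) ≤ (n : ℝ) * (2 * π) := mul_le_mul_of_nonneg_right hcon (by positivity)
      linarith
    have h6 : 0 < n := by exact_mod_cast h4
    have h7 : n < 1 := by exact_mod_cast h5
    omega
  have hne2 : Complex.exp (-(Complex.I * om) * L) ≠ 1 := by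
    intro h
    apply hne1
    have h1 : Complex.exp (Complex.I * om * L) * Complex.exp (-(Complex.I * om) * L) = 1 := by
      rw [← Complex.exp_add]; simp
    rw [h, mul_one] at h1
    exact h1
  have hy0 : c' 0 + Complex.I * om * c 0 = 0 := by
    have h1 := hy L
    have h2 := hper 0
    have h3 := hper' 0
    rw [zero_add] at h2 h3
    rw [h2, h3] at h1
    have h4 : (c' 0 + Complex.I * om * c 0) * (Complex.exp (Complex.I * om * L) - 1) = 0 := by
      rw [mul_sub, ← h1]; ring
    rcases mul_eq_zero.1 h4 with h5 | h5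
    · exact h5
    · exact absurd (sub_eq_zero.1 h5) hne1
  have hz0 : c' 0 - Complex.I * om * c 0 = 0 := by
    have h1 := hz L
    have h2 := hper 0
    have h3 := hper' 0
    rw [zero_add] at h2 h3
    rw [h2, h3] at h1
    have h4 : (c' 0 - Complex.I * om * c 0) * (Complex.exp (-(Complex.I * om) * L) - 1) = 0 := by
      rw [mul_sub, ← h1]; ring
    rcases mul_eq_zero.1 h4 with h5 | h5
    · exact h5
    · exact absurd (sub_eq_zero.1 h5) hne2
  have h1 := hy x
  have h2 := hz x
  rw [hy0, zero_mul] at h1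
  rw [hz0, zero_mul] at h2
  have h3 : 2 * (Complex.I * om) * c x = 0 := by linear_combination h1 - h2
  rcases mul_eq_zero.1 h3 with h4 | h4
  · exfalso
    rcases mul_eq_zero.1 h4 with h5 | h5
    · norm_num at h5
    · rcases mul_eq_zero.1 h5 with h6 | h6
      · exact Complex.I_ne_zero h6
      · exact hom.ne' (by exact_mod_cast h6)
  · exact h4

theorem linear_bounded (c c' : ℝ → ℂ) (hc : ∀ x, HasDerivAt c (c' x) x)
    (hc' : ∀ x, HasDerivAt c' 0 x) (B : ℝ) (hB : ∀ x, ‖c x‖ ≤ B) (x : ℝ) : c x = c 0 := by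
  have h1 : ∀ x, c' x = c' 0 := fun x =>
    is_const_of_deriv_eq_zero (fun x => (hc' x).differentiableAt) (fun x => (hc' x).deriv) x 0
  have h2 : ∀ x : ℝ, HasDerivAt (fun x : ℝ => c x - c' 0 * x) 0 x := by
    intro x
    have h3 : HasDerivAt (fun x : ℝ => c' 0 * (x : ℂ)) (c' 0 * 1) x :=
      (Complex.ofRealCLM.hasDerivAt (x := x)).const_mul (c' 0)
    have h4 := (hc x).sub h3
    exact h4.congr_deriv (by rw [h1 x]; ring)
  have h3 : ∀ x : ℝ, c x - c' 0 * x = c 0 := by
    intro x
    have := is_const_of_deriv_eq_zero (f := fun x : ℝ => c x - c' 0 * x)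
      (fun x => (h2 x).differentiableAt) (fun x => (h2 x).deriv) x 0
    simpa using this
  have h4 : c' 0 = 0 := by
    by_contra hne
    have hpos : 0 < ‖c' 0‖ := norm_pos_iff.2 hne
    have hB0 : 0 ≤ B := (norm_nonneg _).trans (hB 0)
    have h5 := h3 ((2 * B + 1) / ‖c' 0‖)
    have h6 : c' 0 * (((2 * B + 1) / ‖c' 0‖ : ℝ) : ℂ) = c ((2 * B + 1) / ‖c' 0‖) - c 0 := by
      rw [← h5]; ring
    have h7 : ‖c' 0 * (((2 * B + 1) / ‖c' 0‖ : ℝ) : ℂ)‖ = 2 * B + 1 := by
      rw [norm_mul, Complex.norm_real, Real.norm_eq_abs, abs_of_nonneg (by positivity)]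
      field_simp
    rw [h6] at h7
    have h8 := norm_sub_le (c ((2 * B + 1) / ‖c' 0‖)) (c 0)
    have h9 := hB ((2 * B + 1) / ‖c' 0‖)
    have h10 := hB 0
    linarith
  have := h3 x
  rw [h4, zero_mul, sub_zero] at this
  exact this

end Pool.Agent.W_MP_416086_gt
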