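import Pool.Agent.W_MP_416086_gt.Modes2

set_option autoImplicit false
set_option linter.unusedSectionVars false

open scoped ContDiff Topology
open MeasureTheory Real

namespace Pool.Agent.W_MP_416086_gt

theorem av_real_smul {n : ℕ} (m : ℤ) (v : E n) (a : ℝ) (F : E n → ℂ) (p : E n) :
    av m v (fun q => a • F q) p = a • av m v F p := by
  unfold av
  rw [← intervalIntegral.integral_smul]
  congr 1
  funext t
  exact smul_comm _ _ _

/-- Data of a complex eigenfunction on the torus bundle (without the monodromy condition). -/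
structure Eg (ε r ν B : ℝ) (F : E 4 → ℂ) : Prop where
  smooth : ContDiff ℝ 2 F
  eq : ∀ p, Lop ε r F p = (-ν) • F p
  bdd : ∀ p, ‖F p‖ ≤ B

theorem Eg.av {ε r ν B : ℝ} {F : E 4 → ℂ} (h : Eg ε r ν B F) (m : ℤ) (v : E 4) (hv : v 0 = 0) :
    Eg ε r ν B (av m v F) where
  smooth := av_contDiff_two m v h.smooth
  eq p := by
    rw [av_Lop ε r m v hv h.smooth]
    have : Lop ε r F = fun q => (-ν) • F q := funext h.eq
    rw [this, av_real_smul]
  bdd p := av_norm_le m v p (fun t => h.bdd _)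

/-- Mode function. -/
noncomputable def GG (m n l : ℤ) (F : E 4 → ℂ) : E 4 → ℂ := av l v3 (av n v2 (av m v1 F))

/-- Periodicity of a function on the torus bundle. -/
structure Per {G : Type} (F : E 4 → G) : Prop where
  h1 : ∀ p, F (p + v1) = F p
  h2 : ∀ p, F (p + v2) = F p
  h3 : ∀ p, F (p + v3) = F p

theorem v1_0 : v1 0 = 0 := rfl
theorem v2_0 : v2 0 = 0 := rfl
theorem v3_0 : v3 0 = 0 := rfl

theorem av_per {m : ℤ} {v w : E 4} {F : E 4 → ℂ} (h : ∀ p, F (p + w) = F p) (p : E 4) :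
    av m v F (p + w) = av m v F p := by
  have := av_equivar m v (F := F) w 1 (fun p => by rw [h, one_smul]) p
  rwa [one_smul] at this

theorem GG_shift {m n l : ℤ} {F : E 4 → ℂ} (h : Per F) (s t z : ℝ) (p : E 4) :
    GG m n l F (p + s • v1 + t • v2 + z • v3) = ee (m * s) • ee (n * t) • ee (l * z) • GG m n l F p := by
  unfold GG
  have a1 : ∀ (s : ℝ) (p : E 4), av m v1 F (p + s • v1) = ee (m * s) • av m v1 F p := fun s p =>
    av_shift m v1 h.h1 s p
  have a2 : ∀ p, av m v1 F (p + v2) = av m v1 F p := av_per h.h2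
  have a3 : ∀ p, av m v1 F (p + v3) = av m v1 F p := av_per h.h3
  have b1 : ∀ (s : ℝ) (p : E 4), av n v2 (av m v1 F) (p + s • v1) = ee (m * s) • av n v2 (av m v1 F) p :=
    fun s p => av_equivar n v2 _ _ (a1 s) p
  have b2 : ∀ (t : ℝ) (p : E 4), av n v2 (av m v1 F) (p + t • v2) = ee (n * t) • av n v2 (av m v1 F) p :=
    fun t p => av_shift n v2 a2 t p
  have b3 : ∀ p, av n v2 (av m v1 F) (p + v3) = av n v2 (av m v1 F) p := av_per a3
  have c1 := fun (s : ℝ) (p : E 4) => av_equivar l v3 (F := av n v2 (av m v1 F)) _ _ (b1 s) p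
  have c2 := fun (t : ℝ) (p : E 4) => av_equivar l v3 (F := av n v2 (av m v1 F)) _ _ (b2 t) p
  have c3 := fun (z : ℝ) (p : E 4) => av_shift l v3 b3 z p
  rw [c3, c2, c1]
  simp only [smul_smul]
  congr 1
  ring

/-- Decomposition of the coordinate vectors. -/
theorem e4_1 : e4 1 = (1 - goldenRatio / √5) • v1 + (1 / √5) • v2 := by
  have h := goldenRatio_sub_goldenConj
  have s5 := sqrt5_pos.ne'
  apply ext4
  · simp [e4, v1, v2]
  · simp [e4, v1, v2]; field_simp; ring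
  · simp [e4, v1, v2]; field_simp; linear_combination h
  · simp [e4, v1, v2]

theorem e4_2 : e4 2 = (goldenRatio / √5) • v1 + (-(1 / √5)) • v2 := by
  have h := goldenRatio_sub_goldenConj
  have s5 := sqrt5_pos.ne'
  apply ext4
  · simp [e4, v1, v2]
  · simp [e4, v1, v2]; field_simp; ring
  · simp [e4, v1, v2]; field_simp; linear_combination -h
  · simp [e4, v1, v2]

theorem e4_3 : e4 3 = v3 := by
  apply ext4 <;> simp [e4, v3]

theorem GG_dir1 {m n l : ℤ} {F : E 4 → ℂ} (h : Per F) (q : E 4) (t : ℝ) :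
    GG m n l F (q + t • e4 1) = ee (al m n * t) • GG m n l F q := by
  have h1 := GG_shift (m := m) (n := n) (l := l) h (t * (1 - goldenRatio / √5)) (t * (1 / √5)) 0 q
  have e : q + (t * (1 - goldenRatio / √5)) • v1 + (t * (1 / √5)) • v2 + (0 : ℝ) • v3 = q + t • e4 1 := by
    rw [e4_1, smul_add, smul_smul, smul_smul, zero_smul, add_zero, add_assoc]
  rw [e] at h1
  rw [h1, mul_zero, ee_zero, one_smul, smul_smul, ← ee_add]
  congr 2
  unfold al
  have h := goldenRatio_sub_goldenConj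
  have s5 := sqrt5_pos.ne'
  field_simp
  linear_combination (-(m : ℝ) * t) * h

theorem GG_dir2 {m n l : ℤ} {F : E 4 → ℂ} (h : Per F) (q : E 4) (t : ℝ) :
    GG m n l F (q + t • e4 2) = ee (be m n * t) • GG m n l F q := by
  have h1 := GG_shift (m := m) (n := n) (l := l) h (t * (goldenRatio / √5)) (t * (-(1 / √5))) 0 q
  have e : q + (t * (goldenRatio / √5)) • v1 + (t * (-(1 / √5))) • v2 + (0 : ℝ) • v3 = q + t • e4 2 := by
    rw [e4_2, smul_add, smul_smul, smul_smul, zero_smul, add_zero, add_assoc]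
  rw [e] at h1
  rw [h1, mul_zero, ee_zero, one_smul, smul_smul, ← ee_add]
  congr 2
  unfold be
  have s5 := sqrt5_pos.ne'
  field_simp
  ring

theorem GG_dir3 {m n l : ℤ} {F : E 4 → ℂ} (h : Per F) (q : E 4) (t : ℝ) :
    GG m n l F (q + t • e4 3) = ee (l * t) • GG m n l F q := by
  have h1 := GG_shift (m := m) (n := n) (l := l) h 0 0 t q
  rw [e4_3]
  simpa [ee_zero] using h1

theorem decomp (p : E 4) : p = (p 0) • e4 0 + ss p • v1 + tt p • v2 + p 3 • v3 := by
  apply ext4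
  · show p 0 = p 0 * (Pi.single 0 1 : E 4) 0 + ss p * 0 + tt p * 0 + p 3 * 0
    simp
  · show p 1 = p 0 * (Pi.single 0 1 : E 4) 1 + ss p * 1 + tt p * goldenRatio + p 3 * 0
    rw [st_1 p]
    simp
  · show p 2 = p 0 * (Pi.single 0 1 : E 4) 2 + ss p * 1 + tt p * goldenConj + p 3 * 0
    rw [st_2 p]
    simp
  · show p 3 = p 0 * (Pi.single 0 1 : E 4) 3 + ss p * 0 + tt p * 0 + p 3 * 1
    simp

theorem GG_zero_of_axis {m n l : ℤ} {F : E 4 → ℂ} (h : Per F)
    (h0 : ∀ x : ℝ, GG m n l F (x • e4 0) = 0) (p : E 4) : GG m n l F p = 0 := by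
  rw [decomp p, GG_shift h, h0]
  simp

/-- The potential. -/
noncomputable def Wp (ε r : ℝ) (m n l : ℤ) (x : ℝ) : ℝ :=
  4 * π ^ 2 * (ε ^ 2 * exp (-(2 * x)) * al m n ^ 2 + ε ^ 2 * exp (2 * x) * be m n ^ 2 +
    (l : ℝ) ^ 2 * (r ^ 2)⁻¹)

theorem GG_ode {ε r ν B : ℝ} {F : E 4 → ℂ} (hF : Eg ε r ν B F) (h : Per F) (m n l : ℤ) (q : E 4) :
    D2 (e4 0) (GG m n l F) q = (Wp ε r m n l (q 0) - ν) • GG m n l F q := by
  have hG : Eg ε r ν B (GG m n l F) := ((hF.av m v1 v1_0).av n v2 v2_0).av l v3 v3_0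
  have h1 := hG.eq q
  unfold Lop at h1
  rw [equivar_D2 hG.smooth (e4 1) _ (GG_dir1 h) q, equivar_D2 hG.smooth (e4 2) _ (GG_dir2 h) q,
    equivar_D2 hG.smooth (e4 3) _ (GG_dir3 h) q] at h1
  rw [smul_smul, smul_smul, smul_smul] at h1
  have h2 : D2 (e4 0) (GG m n l F) q = (-ν) • GG m n l F q -
      (ε ^ 2 * exp (-(2 * q 0)) * -(2 * π * al m n) ^ 2) • GG m n l F q -
      (ε ^ 2 * exp (2 * q 0) * -(2 * π * be m n) ^ 2) • GG m n l F q -
      ((r ^ 2)⁻¹ * -(2 * π * l) ^ 2) • GG m n l F q := by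
    rw [← h1]; abel
  rw [h2, ← sub_smul, ← sub_smul, ← sub_smul]
  congr 1
  unfold Wp
  ring

/-- The axis function and its derivatives. -/
theorem axis_hasDerivAt {G : E 4 → ℂ} (hG : ContDiff ℝ 2 G) (x : ℝ) :
    HasDerivAt (fun x : ℝ => G (x • e4 0)) (fderiv ℝ G (x • e4 0) (e4 0)) x ∧
    HasDerivAt (fun x : ℝ => fderiv ℝ G (x • e4 0) (e4 0)) (D2 (e4 0) G (x • e4 0)) x := by
  constructor
  · have := hasDerivAt_line (hG.of_le (by norm_num)) 0 (e4 0) x
    simpa using this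
  · have := hasDerivAt_line (contDiff_fderiv_apply hG (e4 0)) 0 (e4 0) x
    simpa [D2] using this

theorem axis_ode {ε r ν B : ℝ} {F : E 4 → ℂ} (hF : Eg ε r ν B F) (h : Per F) (m n l : ℤ) :
    ∃ c' : ℝ → ℂ, (∀ x : ℝ, HasDerivAt (fun x : ℝ => GG m n l F (x • e4 0)) (c' x) x) ∧
      (∀ x : ℝ, HasDerivAt c' ((Wp ε r m n l x - ν) • GG m n l F (x • e4 0)) x) ∧
      (∀ x : ℝ, ‖GG m n l F (x • e4 0)‖ ≤ B) := by
  have hG : Eg ε r ν B (GG m n l F) := ((hF.av m v1 v1_0).av n v2 v2_0).av l v3 v3_0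
  refine ⟨fun x => fderiv ℝ (GG m n l F) (x • e4 0) (e4 0), fun x => (axis_hasDerivAt hG.smooth x).1,
    fun x => ?_, fun x => hG.bdd _⟩
  have h1 := (axis_hasDerivAt hG.smooth x).2
  rw [GG_ode hF h] at h1
  simpa [e4] using h1

/-- Lower bound for the potential. -/
theorem Wp_lower {ε r : ℝ} (hε : 0 < ε) (hr : 0 < r) {m n : ℤ} (l : ℤ) (h : ¬ (m = 0 ∧ n = 0)) :
    ∃ x0 : ℝ, ∀ x, 2 * (4 * π ^ 2 * ε ^ 2 / 5) * Real.cosh (2 * x) ≤ Wp ε r m n l (x + x0) := by
  have h1 := al_be_ge h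
  have ha : al m n ≠ 0 := by
    intro h0; rw [h0] at h1; simp at h1; norm_num at h1
  have hb : be m n ≠ 0 := by
    intro h0; rw [h0] at h1; simp at h1; norm_num at h1
  have ha' : 0 < |al m n| := abs_pos.2 ha
  have hb' : 0 < |be m n| := abs_pos.2 hb
  refine ⟨Real.log (|al m n| / |be m n|) / 2, fun x => ?_⟩
  set y := Real.log (|al m n| / |be m n|) with hy
  have hey : exp y = |al m n| / |be m n| := Real.exp_log (by positivity)
  have e1 : exp (-(2 * (x + y / 2))) * al m n ^ 2 = exp (-(2 * x)) * (|al m n| * |be m n|) := by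
    have : exp (-(2 * (x + y / 2))) = exp (-(2 * x)) * (exp y)⁻¹ := by
      rw [← Real.exp_neg, ← Real.exp_add]; congr 1; ring
    rw [this, hey, ← sq_abs (al m n)]
    field_simp
  have e2 : exp (2 * (x + y / 2)) * be m n ^ 2 = exp (2 * x) * (|al m n| * |be m n|) := by
    have : exp (2 * (x + y / 2)) = exp (2 * x) * exp y := by
      rw [← Real.exp_add]; congr 1; ring
    rw [this, hey, ← sq_abs (be m n)]
    field_simp
  unfold Wp
  rw [mul_assoc (ε ^ 2), mul_assoc (ε ^ 2), e1, e2, ← abs_mul]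
  have hc : 2 * Real.cosh (2 * x) = exp (2 * x) + exp (-(2 * x)) := by
    rw [Real.cosh_eq]; ring
  have hc0 : 0 < exp (2 * x) + exp (-(2 * x)) := by positivity
  have e3 : 2 * (4 * π ^ 2 * ε ^ 2 / 5) * Real.cosh (2 * x) =
      4 * π ^ 2 * (ε ^ 2 * ((exp (2 * x) + exp (-(2 * x))) * (1 / 5))) := by
    rw [← hc]; ring
  rw [e3]
  have e4 : (exp (2 * x) + exp (-(2 * x))) * (1 / 5) ≤
      (exp (2 * x) + exp (-(2 * x))) * |al m n * be m n| :=
    mul_le_mul_of_nonneg_left h1 hc0.le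
  have e5 : 0 ≤ (l : ℝ) ^ 2 * (r ^ 2)⁻¹ := by positivity
  have hpi : 0 < 4 * π ^ 2 := by positivity
  apply mul_le_mul_of_nonneg_left _ hpi.le
  have e6 := mul_le_mul_of_nonneg_left e4 (sq_nonneg ε)
  linarith

end Pool.Agent.W_MP_416086_gt
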