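import Pool.Agent.W_MP_416086_gt.Modes3

set_option autoImplicit false
set_option linter.unusedSectionVars false

open scoped ContDiff Topology
open MeasureTheory Real

namespace Pool.Agent.W_MP_416086_gt

theorem av0 (v : E 4) (F : E 4 → ℂ) (p : E 4) : av 0 v F p = ∫ t in (0 : ℝ)..1, F (p + t • v) := by
  unfold av
  congr 1
  funext t
  simp [ee_zero]

theorem av0_invariant {v : E 4} {F : E 4 → ℂ} (h : ∀ p, F (p + v) = F p) (s : ℝ) (p : E 4) :
    av 0 v F (p + s • v) = av 0 v F p := by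
  rw [av_shift 0 v h]
  simp [ee_zero]

theorem av0_add {u v : E 4} {F : E 4 → ℂ} (h : ∀ p, F (p + v) = F p) (p : E 4) :
    av 0 (u + v) (av 0 v F) p = av 0 u (av 0 v F) p := by
  rw [av0, av0]
  congr 1
  funext t
  have : p + t • (u + v) = (p + t • u) + t • v := by rw [smul_add]; abel
  rw [this, av0_invariant h]

theorem av0_comm {u v : E 4} {F : E 4 → ℂ} (hF : Continuous F) (p : E 4) :
    av 0 u (av 0 v F) p = av 0 v (av 0 u F) p := by
  rw [av0, av0]
  simp only [av0]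
  rw [MeasureTheory.intervalIntegral_intervalIntegral_swap]
  · congr 1
    funext s
    congr 1
    funext t
    congr 1
    abel
  · have hc : Continuous (Function.uncurry fun (t s : ℝ) => F (p + t • u + s • v)) := by
      simp only [Function.uncurry_def]
      fun_prop
    have hK : IntegrableOn (Function.uncurry fun (t s : ℝ) => F (p + t • u + s • v))
        (Set.uIcc (0 : ℝ) 1 ×ˢ Set.uIcc (0 : ℝ) 1) :=
      hc.continuousOn.integrableOn_compact (isCompact_uIcc.prod isCompact_uIcc)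
    exact hK.mono_set (Set.prod_mono Set.uIoc_subset_uIcc Set.uIoc_subset_uIcc)

/-- `w_j = (φ^j, ψ^j)`. -/
noncomputable def wv (j : ℕ) : E 4 := ![0, goldenRatio ^ j, goldenConj ^ j, 0]

theorem wv_zero : wv 0 = v1 := by
  apply ext4 <;> simp [wv, v1]

theorem wv_one : wv 1 = v2 := by
  apply ext4 <;> simp [wv, v2]

theorem wv_add (j : ℕ) : wv (j + 2) = wv j + wv (j + 1) := by
  have h1 := goldenRatio_sq
  have h2 := goldenConj_sq
  apply ext4
  · simp [wv]
  · show goldenRatio ^ (j + 2) = goldenRatio ^ j + goldenRatio ^ (j + 1)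
    rw [pow_add, h1]; ring
  · show goldenConj ^ (j + 2) = goldenConj ^ j + goldenConj ^ (j + 1)
    rw [pow_add, h2]; ring
  · simp [wv]

theorem per_wv {G : Type} {F : E 4 → G} (h : Per F) (j : ℕ) :
    (∀ p, F (p + wv j) = F p) ∧ (∀ p, F (p + wv (j + 1)) = F p) := by
  induction j with
  | zero =>
    refine ⟨fun p => ?_, fun p => ?_⟩
    · rw [wv_zero]; exact h.h1 p
    · rw [zero_add, wv_one]; exact h.h2 p
  | succ j ih =>
    refine ⟨ih.2, fun p => ?_⟩
    rw [wv_add, ← add_assoc, ih.2, ih.1]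

/-- The torus average does not depend on the basis. -/
theorem av_basis {F : E 4 → ℂ} (hF : Continuous F) (h : Per F) (j : ℕ) (p : E 4) :
    av 0 (wv (j + 1)) (av 0 (wv j) F) p = av 0 v2 (av 0 v1 F) p := by
  induction j with
  | zero => rw [wv_zero, zero_add, wv_one]
  | succ j ih =>
    rw [← ih, wv_add, av0_add (per_wv h j).2, av0_comm hF]

/-- The monodromy. -/
noncomputable def Tm (N : ℕ) : E 4 → E 4 := act N 1 0 0 0

/-- Linear part of the monodromy. -/
noncomputable def Tl (N : ℕ) (w : E 4) : E 4 := ![w 0, exp (-LL N) * w 1, exp (LL N) * w 2, w 3]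

theorem Tm_add (N : ℕ) (p w : E 4) (s : ℝ) : Tm N (p + s • w) = Tm N p + s • Tl N w := by
  unfold Tm
  apply ext4
  · show (p 0 + s * w 0) + _ = (p 0 + _) + s * w 0
    ring
  · show exp (-((1 : ℤ) * LL N)) * (p 1 + s * w 1) + _ = (exp (-((1 : ℤ) * LL N)) * p 1 + _) +
      s * (exp (-LL N) * w 1)
    push_cast
    rw [one_mul]; ring
  · show exp ((1 : ℤ) * LL N) * (p 2 + s * w 2) + _ = (exp ((1 : ℤ) * LL N) * p 2 + _) +
      s * (exp (LL N) * w 2)
    push_cast
    rw [one_mul]; ring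
  · show (p 3 + s * w 3) + _ = (p 3 + _) + s * w 3
    ring

theorem exp_LL (N : ℕ) : exp (LL N) = goldenRatio ^ (2 * N) := by
  unfold LL
  rw [mul_comm, Real.exp_mul, exp_tau, pow_mul]
  norm_cast

theorem exp_neg_LL (N : ℕ) : exp (-LL N) = goldenConj ^ (2 * N) := by
  rw [Real.exp_neg, exp_LL, ← inv_pow, inv_goldenRatio, pow_mul, pow_mul]
  congr 1
  ring

theorem phi_psi_pow (N : ℕ) : goldenConj ^ (2 * N) * goldenRatio ^ (2 * N) = 1 := by
  rw [← mul_pow, goldenConj_mul_goldenRatio, pow_mul]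
  simp

theorem Tl_wv (N j : ℕ) : Tl N (wv (2 * N + j)) = wv j := by
  apply ext4
  · simp [Tl, wv]
  · show exp (-LL N) * goldenRatio ^ (2 * N + j) = goldenRatio ^ j
    rw [exp_neg_LL, pow_add, ← mul_assoc, phi_psi_pow, one_mul]
  · show exp (LL N) * goldenConj ^ (2 * N + j) = goldenConj ^ j
    rw [exp_LL, pow_add, ← mul_assoc, mul_comm (goldenRatio ^ (2 * N)), phi_psi_pow, one_mul]
  · simp [Tl, wv]

theorem Tl_v3 (N : ℕ) : Tl N v3 = v3 := by
  apply ext4 <;> simp [Tl, v3]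

theorem av_Tm (N : ℕ) (w : E 4) (H : E 4 → ℂ) (p : E 4) :
    av 0 (Tl N w) H (Tm N p) = av 0 w (fun q => H (Tm N q)) p := by
  rw [av0, av0]
  congr 1
  funext t
  rw [Tm_add]

theorem GG_Tm {N : ℕ} {F : E 4 → ℂ} (hF : Continuous F) (h : Per F) (hT : ∀ p, F (Tm N p) = F p)
    (p : E 4) : GG 0 0 0 F (Tm N p) = GG 0 0 0 F p := by
  unfold GG
  have e1 : ∀ p, av 0 v1 F (Tm N p) = av 0 (wv (2 * N)) F p := by
    intro p
    have h1 := av_Tm N (wv (2 * N)) F p
    have h2 := Tl_wv N 0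
    rw [add_zero, wv_zero] at h2
    rw [h2] at h1
    rw [h1]
    congr 1
    funext q
    exact hT q
  have e2 : ∀ p, av 0 v2 (av 0 v1 F) (Tm N p) = av 0 v2 (av 0 v1 F) p := by
    intro p
    have h1 := av_Tm N (wv (2 * N + 1)) (av 0 v1 F) p
    rw [Tl_wv N 1, wv_one] at h1
    rw [h1]
    have h3 : (fun q => av 0 v1 F (Tm N q)) = av 0 (wv (2 * N)) F := funext e1
    rw [h3]
    exact av_basis hF h (2 * N) p
  have h1 := av_Tm N v3 (av 0 v2 (av 0 v1 F)) p
  rw [Tl_v3] at h1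
  rw [h1]
  congr 1
  funext q
  exact e2 q

theorem all_modes_zero {F : E 4 → ℂ} (hF : Continuous F) (h : Per F)
    (h0 : ∀ m n l p, GG m n l F p = 0) (p : E 4) : F p = 0 := by
  have c1 : ∀ m, Continuous (av m v1 F) := fun m => av_continuous m v1 hF
  have c2 : ∀ m n, Continuous (av n v2 (av m v1 F)) := fun m n => av_continuous n v2 (c1 m)
  have p2 : ∀ m p, av m v1 F (p + v2) = av m v1 F p := fun m => av_per h.h2
  have p3 : ∀ m p, av m v1 F (p + v3) = av m v1 F p := fun m => av_per h.h3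
  have p3' : ∀ m n p, av n v2 (av m v1 F) (p + v3) = av n v2 (av m v1 F) p := fun m n => av_per (p3 m)
  have z2 : ∀ m n p, av n v2 (av m v1 F) p = 0 := fun m n p =>
    av_zero v3 (c2 m n) (p3' m n) p (fun l => h0 m n l p)
  have z1 : ∀ m p, av m v1 F p = 0 := fun m p =>
    av_zero v2 (c1 m) (p2 m) p (fun n => z2 m n p)
  exact av_zero v1 hF h.h1 p (fun m => z1 m p)

/-- Ground state data. -/
structure GS (q μ : ℝ) (u u' : ℝ → ℝ) : Prop where
  pos : ∀ x, 0 < u x
  der : ∀ x, HasDerivAt u (u' x) x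
  der' : ∀ x, HasDerivAt u' ((2 * q * Real.cosh (2 * x) - μ) * u x) x
  dec : ∀ M : ℝ, ∃ C : ℝ, ∀ x, |u x| ≤ C * Real.exp (-M * |x|) ∧ |u' x| ≤ C * Real.exp (-M * |x|)

theorem mode_zero_of_ne {ε r ν B μ : ℝ} {u u' : ℝ → ℝ} (hε : 0 < ε) (hr : 0 < r)
    (hgs : GS (4 * π ^ 2 * ε ^ 2 / 5) μ u u') (hν : ν < μ) {F : E 4 → ℂ} (hF : Eg ε r ν B F)
    (h : Per F) {m n : ℤ} (l : ℤ) (hmn : ¬ (m = 0 ∧ n = 0)) (p : E 4) : GG m n l F p = 0 := by
  apply GG_zero_of_axis h
  intro x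
  obtain ⟨c', h1, h2, h3⟩ := axis_ode hF h m n l
  obtain ⟨x0, hx0⟩ := Wp_lower hε hr l hmn
  set c : ℝ → ℂ := fun x : ℝ => GG m n l F (x • e4 0) with hc
  have hq : 0 < 4 * π ^ 2 * ε ^ 2 / 5 := by positivity
  have hre : ∀ x, (c (x + x0)).re = 0 := by
    apply bounded_zero (4 * π ^ 2 * ε ^ 2 / 5) μ ν hq u u' hgs.pos hgs.der hgs.der' hgs.dec hν
      (fun x => Wp ε r m n l (x + x0)) (fun x => (c (x + x0)).re) (fun x => (c' (x + x0)).re) hx0
      _ _ B
    · intro x
      exact (Complex.abs_re_le_norm _).trans (h3 _)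
    · intro x
      have := (h1 (x + x0)).comp_add_const x x0
      exact (Complex.reCLM.hasFDerivAt.comp_hasDerivAt x this)
    · intro x
      have := (h2 (x + x0)).comp_add_const x x0
      have h5 := (Complex.reCLM.hasFDerivAt.comp_hasDerivAt x this)
      refine h5.congr_deriv ?_
      simp [hc]
  have him : ∀ x, (c (x + x0)).im = 0 := by
    apply bounded_zero (4 * π ^ 2 * ε ^ 2 / 5) μ ν hq u u' hgs.pos hgs.der hgs.der' hgs.dec hν
      (fun x => Wp ε r m n l (x + x0)) (fun x => (c (x + x0)).im) (fun x => (c' (x + x0)).im) hx0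
      _ _ B
    · intro x
      exact (Complex.abs_im_le_norm _).trans (h3 _)
    · intro x
      have := (h1 (x + x0)).comp_add_const x x0
      exact (Complex.imCLM.hasFDerivAt.comp_hasDerivAt x this)
    · intro x
      have := (h2 (x + x0)).comp_add_const x x0
      have h5 := (Complex.imCLM.hasFDerivAt.comp_hasDerivAt x this)
      refine h5.congr_deriv ?_
      simp [hc]
  have := hre (x - x0)
  have := him (x - x0)
  have e : x - x0 + x0 = x := by ring
  apply Complex.ext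
  · have := hre (x - x0)
    rw [e] at this
    exact this
  · have := him (x - x0)
    rw [e] at this
    exact this

theorem Wp_zero (ε r : ℝ) (l : ℤ) (x : ℝ) : Wp ε r 0 0 l x = 4 * π ^ 2 * ((l : ℝ) ^ 2 * (r ^ 2)⁻¹) := by
  unfold Wp al be
  simp

theorem mode_zero_l {ε r ν B : ℝ} (hr : 0 < r)
    (hν : ν < 4 * π ^ 2 * (r ^ 2)⁻¹) {F : E 4 → ℂ} (hF : Eg ε r ν B F)
    (h : Per F) {l : ℤ} (hl : l ≠ 0) (p : E 4) : GG 0 0 l F p = 0 := by
  apply GG_zero_of_axis h
  intro x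
  obtain ⟨c', h1, h2, h3⟩ := axis_ode hF h 0 0 l
  have hl1 : (1 : ℝ) ≤ (l : ℝ) ^ 2 := by
    have h4 : (1 : ℤ) ≤ l ^ 2 := by
      have : 0 < l ^ 2 := by positivity
      omega
    exact_mod_cast h4
  have hκ : 0 < 4 * π ^ 2 * ((l : ℝ) ^ 2 * (r ^ 2)⁻¹) - ν := by
    have h5 : 4 * π ^ 2 * (1 * (r ^ 2)⁻¹) ≤ 4 * π ^ 2 * ((l : ℝ) ^ 2 * (r ^ 2)⁻¹) := by
      gcongr
    rw [one_mul] at h5
    linarith
  apply const_coeff_bounded hκ (fun x : ℝ => GG 0 0 l F (x • e4 0)) c' h1 _ B h3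
  intro x
  have := h2 x
  rw [Wp_zero] at this
  refine this.congr_deriv ?_
  rw [Complex.real_smul]

theorem trivial_ode {ε r ν B : ℝ} {F : E 4 → ℂ} (hF : Eg ε r ν B F) (h : Per F) :
    ∃ c' : ℝ → ℂ, (∀ x : ℝ, HasDerivAt (fun x : ℝ => GG 0 0 0 F (x • e4 0)) (c' x) x) ∧
      (∀ x : ℝ, HasDerivAt c' (((-ν : ℝ) : ℂ) * GG 0 0 0 F (x • e4 0)) x) ∧
      (∀ x : ℝ, ‖GG 0 0 0 F (x • e4 0)‖ ≤ B) := by
  obtain ⟨c', h1, h2, h3⟩ := axis_ode hF h 0 0 0
  refine ⟨c', h1, fun x => ?_, h3⟩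
  have := h2 x
  rw [Wp_zero] at this
  refine this.congr_deriv ?_
  rw [Complex.real_smul]
  simp

theorem trivial_neg {ε r ν B : ℝ} (hν : ν < 0) {F : E 4 → ℂ} (hF : Eg ε r ν B F) (h : Per F)
    (p : E 4) : GG 0 0 0 F p = 0 := by
  apply GG_zero_of_axis h
  intro x
  obtain ⟨c', h1, h2, h3⟩ := trivial_ode hF h
  exact const_coeff_bounded (neg_pos.2 hν) (fun x : ℝ => GG 0 0 0 F (x • e4 0)) c' h1 h2 B h3 x

theorem trivial_pos {N : ℕ} (hN : 1 ≤ N) {ε r ν B : ℝ} (hν : 0 < ν) (hν2 : ν < 4 * π ^ 2 / LL N ^ 2)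
    {F : E 4 → ℂ} (hF : Eg ε r ν B F) (h : Per F) (hT : ∀ p, F (Tm N p) = F p)
    (p : E 4) : GG 0 0 0 F p = 0 := by
  apply GG_zero_of_axis h
  intro x
  obtain ⟨c', h1, h2, h3⟩ := trivial_ode hF h
  have hL := LL_pos hN
  apply harmonic_periodic (om := √ν) (L := LL N) (Real.sqrt_pos.2 hν) hL _
    (fun x : ℝ => GG 0 0 0 F (x • e4 0)) c' h1
  · intro x
    refine (h2 x).congr_deriv ?_
    have : ((√ν : ℝ) : ℂ) ^ 2 = (ν : ℂ) := by
      rw [← Complex.ofReal_pow, Real.sq_sqrt hν.le]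
    rw [this]
    push_cast
    ring
  · intro x
    show GG 0 0 0 F ((x + LL N) • e4 0) = GG 0 0 0 F (x • e4 0)
    rw [← GG_Tm hF.smooth.continuous h hT (x • e4 0)]
    congr 1
    unfold Tm
    apply ext4
    · show (x + LL N) * (Pi.single 0 1 : E 4) 0 = x * (Pi.single 0 1 : E 4) 0 + ((1 : ℤ) : ℝ) * LL N
      simp
    · simp [e4]
    · simp [e4]
    · simp [e4]
  · have h4 : √ν < 2 * π / LL N := by
      rw [Real.sqrt_lt' (by positivity)]
      rw [div_pow]
      calc ν < 4 * π ^ 2 / LL N ^ 2 := hν2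
        _ = (2 * π) ^ 2 / LL N ^ 2 := by ring
    rwa [lt_div_iff₀ hL] at h4

theorem trivial_zero {ε r B : ℝ} {F : E 4 → ℂ} (hF : Eg ε r 0 B F) (h : Per F)
    (p : E 4) : GG 0 0 0 F p = GG 0 0 0 F 0 := by
  obtain ⟨c', h1, h2, h3⟩ := trivial_ode hF h
  have h4 := linear_bounded (fun x : ℝ => GG 0 0 0 F (x • e4 0)) c' h1 (fun x => by
    refine (h2 x).congr_deriv ?_
    simp) B h3 (p 0)
  simp only [zero_smul] at h4
  conv_lhs => rw [decomp p, GG_shift h]
  rw [h4]
  simp [ee_zero]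

/-- Main rigidity: small eigenvalues have only constant eigenfunctions. -/
theorem rigid {N : ℕ} (hN : 1 ≤ N) {ε r ν B μ : ℝ} {u u' : ℝ → ℝ} (hε : 0 < ε) (hr : 0 < r)
    (hgs : GS (4 * π ^ 2 * ε ^ 2 / 5) μ u u') (hν : ν < μ) (hμ : μ < 4 * π ^ 2 / LL N ^ 2)
    (hμr : μ < 4 * π ^ 2 * (r ^ 2)⁻¹) {F : E 4 → ℂ} (hF : Eg ε r ν B F) (h : Per F)
    (hT : ∀ p, F (Tm N p) = F p) : (∃ κ : ℂ, ∀ p, F p = κ) ∧ (ν ≠ 0 → ∀ p, F p = 0) := by
  by_cases hν0 : ν = 0
  · subst hν0
    refine ⟨⟨GG 0 0 0 F 0, fun p => ?_⟩, fun h => absurd rfl h⟩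
    set κ := GG 0 0 0 F 0 with hκ
    have hF' : Eg ε r 0 (B + ‖κ‖) (fun q => F q - κ) := by
      have hd : ∀ w p, D2 w (fun q => F q - κ) p = D2 w F p := by
        intro w p
        unfold D2
        simp only [fderiv_sub_const]
      refine ⟨hF.smooth.sub contDiff_const, fun p => ?_, fun p => ?_⟩
      · have := hF.eq p
        unfold Lop at this ⊢
        simp only [hd]
        rw [this]
        simp
      · exact (norm_sub_le _ _).trans (by have := hF.bdd p; linarith)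
    have h' : Per (fun q => F q - κ) := ⟨fun p => by simp only [h.h1], fun p => by simp only [h.h2],
      fun p => by simp only [h.h3]⟩
    have hav : ∀ (v : E 4) (H : E 4 → ℂ), Continuous H → ∀ p, av 0 v (fun q => H q - κ) p = av 0 v H p - κ := by
      intro v H hH p
      rw [av0, av0, intervalIntegral.integral_sub]
      · simp
      · have : Continuous (fun t : ℝ => H (p + t • v)) := by fun_prop
        exact this.intervalIntegrable _ _
      · exact intervalIntegrable_const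
    have h00 : ∀ p, GG 0 0 0 (fun q => F q - κ) p = 0 := by
      intro p
      unfold GG
      have c0 := hF.smooth.continuous
      have c1 := av_continuous 0 v1 c0
      have c2 := av_continuous 0 v2 c1
      have a1 : av 0 v1 (fun q => F q - κ) = fun q => av 0 v1 F q - κ := funext (hav v1 F c0)
      have a2 : av 0 v2 (fun q => av 0 v1 F q - κ) = fun q => av 0 v2 (av 0 v1 F) q - κ :=
        funext (hav v2 _ c1)
      rw [a1, a2, hav v3 _ c2]
      have := trivial_zero hF h p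
      unfold GG at this hκ
      rw [this, hκ]
      exact sub_self _
    have hz := all_modes_zero hF'.smooth.continuous h' (fun m n l p => by
      by_cases hmn : m = 0 ∧ n = 0
      · obtain ⟨rfl, rfl⟩ := hmn
        by_cases hl : l = 0
        · subst hl; exact h00 p
        · exact mode_zero_l hr (hν.trans hμr) hF' h' hl p
      · exact mode_zero_of_ne hε hr hgs hν hF' h' l hmn p) p
    exact sub_eq_zero.1 hz
  · have hz : ∀ p, F p = 0 := by
      intro p
      apply all_modes_zero hF.smooth.continuous h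
      intro m n l p
      by_cases hmn : m = 0 ∧ n = 0
      · obtain ⟨rfl, rfl⟩ := hmn
        by_cases hl : l = 0
        · subst hl
          rcases lt_or_gt_of_ne hν0 with hneg | hpos
          · exact trivial_neg hneg hF h p
          · exact trivial_pos hN hpos (hν.trans hμ) hF h hT p
        · exact mode_zero_l hr (hν.trans hμr) hF h hl p
      · exact mode_zero_of_ne hε hr hgs hν hF h l hmn p
    exact ⟨⟨0, hz⟩, fun _ => hz⟩

end Pool.Agent.W_MP_416086_gt
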