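import Pool.Agent.W_MP_416086_gt.Final

set_option autoImplicit false
set_option linter.unusedSectionVars false

open scoped ContDiff Topology
open MeasureTheory Real

namespace Pool.Agent.W_MP_416086_gt

theorem pd_mul {n : ℕ} (i : Fin n) (c : ℝ) (f : E n → ℝ) (p : E n) :
    pd i (fun q => c * f q) p = c * pd i f p := by
  unfold pd
  have h : (fun q => c * f q) = c • f := rfl
  rw [h, fderiv_const_smul_field]
  rfl

theorem inv_smul_mat {n : ℕ} {c : ℝ} (hc : 0 < c) {A : Matrix (Fin n) (Fin n) ℝ} (hA : A.PosDef) :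
    (c • A)⁻¹ = c⁻¹ • A⁻¹ := by
  have h := Matrix.inv_smul' A (Units.mk0 c hc.ne') (isUnit_iff_ne_zero.2 hA.det_pos.ne')
  exact h

namespace ClosedManifold
variable {n : ℕ}

/-- The manifold with the metric multiplied by the constant `c`. -/
noncomputable def scale (M : ClosedManifold n) (c : ℝ) (hc : 0 < c) : ClosedManifold n where
  Γ := M.Γ
  smooth := M.smooth
  free := M.free
  proper := M.proper
  cocompact := M.cocompact
  g p := c • M.g p
  g_smooth i j := by
    simp only [Matrix.smul_apply, smul_eq_mul]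
    exact contDiff_const.mul (M.g_smooth i j)
  g_posDef p := (M.g_posDef p).smul hc
  g_inv γ hγ p i j := by
    simp only [Matrix.smul_apply, smul_eq_mul]
    rw [← M.g_inv γ hγ p i j, Finset.mul_sum]
    refine Finset.sum_congr rfl fun k _ => ?_
    rw [Finset.mul_sum]
    refine Finset.sum_congr rfl fun l _ => ?_
    ring

theorem chr_scale (M : ClosedManifold n) {c : ℝ} (hc : 0 < c) (k i j : Fin n) :
    chr (M.scale c hc).g k i j = chr M.g k i j := by
  funext p
  unfold chr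
  congr 1
  refine Finset.sum_congr rfl fun l _ => ?_
  have e1 : ∀ a b c' : Fin n, pd a (fun q => (M.scale c hc).g q b c') p =
      c * pd a (fun q => M.g q b c') p := by
    intro a b c'
    rw [← pd_mul]
    rfl
  rw [e1, e1, e1]
  have e2 : ((M.scale c hc).g p)⁻¹ = c⁻¹ • (M.g p)⁻¹ := inv_smul_mat hc (M.g_posDef p)
  rw [e2, Matrix.smul_apply, smul_eq_mul]
  field_simp

theorem ricci_scale (M : ClosedManifold n) {c : ℝ} (hc : 0 < c) (i j : Fin n) (p : E n) :
    ricci (M.scale c hc).g i j p = ricci M.g i j p := by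
  unfold ricci
  simp only [chr_scale M hc]

theorem scale_ricci (M : ClosedManifold n) {c κ : ℝ} (hc : 0 < c) (h : M.RicciLowerBound κ) :
    (M.scale c hc).RicciLowerBound (κ / c) := by
  intro p v
  simp only [ricci_scale]
  refine le_trans (le_of_eq ?_) (h p v)
  have e : ∑ i, ∑ j, (M.scale c hc).g p i j * v i * v j = c * ∑ i, ∑ j, M.g p i j * v i * v j := by
    rw [Finset.mul_sum]
    refine Finset.sum_congr rfl fun k _ => ?_
    rw [Finset.mul_sum]
    refine Finset.sum_congr rfl fun l _ => ?_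
    show c * M.g p k l * v k * v l = _
    ring
  rw [e]
  field_simp

theorem sqrt_det_scale (M : ClosedManifold n) {c : ℝ} (hc : 0 < c) (p : E n) :
    Real.sqrt ((M.scale c hc).g p).det = Real.sqrt (c ^ n) * Real.sqrt (M.g p).det := by
  have e : ((M.scale c hc).g p).det = c ^ n * (M.g p).det := by
    show (c • M.g p).det = _
    rw [Matrix.det_smul, Fintype.card_fin]
  rw [e, Real.sqrt_mul (by positivity)]

theorem scale_volume (M : ClosedManifold n) {c V : ℝ} (hc : 0 < c) (h : M.HasVolume V) :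
    (M.scale c hc).HasVolume (Real.sqrt (c ^ n) * V) := by
  obtain ⟨D, hD, h1, h2⟩ := h
  refine ⟨D, hD, h1, ?_⟩
  simp only [sqrt_det_scale]
  have e : ∀ p, ENNReal.ofReal (Real.sqrt (c ^ n) * Real.sqrt (M.g p).det) =
      ENNReal.ofReal (Real.sqrt (c ^ n)) * ENNReal.ofReal (Real.sqrt (M.g p).det) := fun p =>
    ENNReal.ofReal_mul (Real.sqrt_nonneg _)
  simp only [e]
  rw [MeasureTheory.lintegral_const_mul' _ _ ENNReal.ofReal_ne_top, h2,
    ← ENNReal.ofReal_mul (Real.sqrt_nonneg _)]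

theorem lap_scale (M : ClosedManifold n) {c : ℝ} (hc : 0 < c) (f : E n → ℝ) (p : E n) :
    lap (M.scale c hc).g f p = c⁻¹ * lap M.g f p := by
  unfold lap
  simp only [sqrt_det_scale]
  have e2 : ∀ q, ((M.scale c hc).g q)⁻¹ = c⁻¹ • (M.g q)⁻¹ := fun q => inv_smul_mat hc (M.g_posDef q)
  have hs : 0 < Real.sqrt (c ^ n) := Real.sqrt_pos.2 (by positivity)
  have e3 : ∀ i, pd i (fun q => Real.sqrt (c ^ n) * Real.sqrt (M.g q).det *
      ∑ j, ((M.scale c hc).g q)⁻¹ i j * pd j f q) p =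
      (Real.sqrt (c ^ n) * c⁻¹) * pd i (fun q => Real.sqrt (M.g q).det *
        ∑ j, (M.g q)⁻¹ i j * pd j f q) p := by
    intro i
    rw [← pd_mul]
    congr 1
    funext q
    rw [e2]
    have e4 : ∑ j, (c⁻¹ • (M.g q)⁻¹) i j * pd j f q = c⁻¹ * ∑ j, (M.g q)⁻¹ i j * pd j f q := by
      rw [Finset.mul_sum]
      refine Finset.sum_congr rfl fun j _ => ?_
      rw [Matrix.smul_apply, smul_eq_mul, mul_assoc]
    rw [e4]
    ring
  simp only [e3]
  rw [← Finset.mul_sum, mul_inv]
  field_simp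

theorem scale_isEigenfunction (M : ClosedManifold n) {c ν : ℝ} (hc : 0 < c) {f : E n → ℝ} :
    (M.scale c hc).IsEigenfunction (ν / c) f ↔ M.IsEigenfunction ν f := by
  unfold IsEigenfunction
  simp only [lap_scale]
  refine and_congr Iff.rfl (and_congr Iff.rfl (forall_congr' fun p => ?_))
  constructor
  · intro h
    field_simp at h
    linarith
  · intro h
    field_simp
    linarith

theorem scale_eigenspace (M : ClosedManifold n) {c ν : ℝ} (hc : 0 < c) :
    (M.scale c hc).eigenspace (ν / c) = M.eigenspace ν := by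
  unfold eigenspace
  simp only [scale_isEigenfunction]

theorem scale_eigBelow (M : ClosedManifold n) {c ν : ℝ} (hc : 0 < c) :
    (M.scale c hc).eigBelow (ν / c) = M.eigBelow ν := by
  unfold eigBelow
  congr 1
  ext f
  simp only [Set.mem_ofPred_eq]
  constructor
  · rintro ⟨ν', h1, h2⟩
    refine ⟨ν' * c, ?_, ?_⟩
    · rwa [← lt_div_iff₀ hc]
    · rw [← scale_isEigenfunction M hc, mul_div_assoc, div_self hc.ne', mul_one]
      exact h2
  · rintro ⟨ν', h1, h2⟩
    refine ⟨ν' / c, ?_, ?_⟩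
    · exact div_lt_div_of_pos_right h1 hc
    · exact (scale_isEigenfunction M hc).2 h2

theorem scale_eigUpTo (M : ClosedManifold n) {c ν : ℝ} (hc : 0 < c) :
    (M.scale c hc).eigUpTo (ν / c) = M.eigUpTo ν := by
  unfold eigUpTo
  congr 1
  ext f
  simp only [Set.mem_ofPred_eq]
  constructor
  · rintro ⟨ν', h1, h2⟩
    refine ⟨ν' * c, ?_, ?_⟩
    · rwa [← le_div_iff₀ hc]
    · rw [← scale_isEigenfunction M hc, mul_div_assoc, div_self hc.ne', mul_one]
      exact h2
  · rintro ⟨ν', h1, h2⟩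
    refine ⟨ν' / c, ?_, ?_⟩
    · exact div_le_div_of_nonneg_right h1 hc.le
    · exact (scale_isEigenfunction M hc).2 h2

theorem scale_isLambda (M : ClosedManifold n) {c ν : ℝ} (hc : 0 < c) {k : ℕ} (h : M.IsLambda k ν) :
    (M.scale c hc).IsLambda k (ν / c) := by
  unfold IsLambda
  rw [scale_eigBelow, scale_eigUpTo]
  exact h

end ClosedManifold

/-- The metric of `Sol³ × ℝ` with the Ricci lower bound `-3κ`:
`κ⁻¹ (dx² + e^{2x} dy² + e^{-2x} dz² + dt²)`. -/
noncomputable def solMetricK (κ : ℝ) (p : E 4) : Matrix (Fin 4) (Fin 4) ℝ :=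
  κ⁻¹ • solMetric p

/-- `(ℝ⁴, M.g)` is isometric to `Sol³ × ℝ` with the metric `κ⁻¹ (dx² + e^{2x} dy² + e^{-2x} dz² + dt²)`,
by a diagonal linear map. -/
def ClosedManifold.IsSolK (M : ClosedManifold 4) (κ : ℝ) : Prop :=
  ∃ c : Fin 4 → ℝ, (∀ i, 0 < c i) ∧
    ∀ p i j, M.g p i j = c i * c j * solMetricK κ (fun k => c k * p k) i j

theorem main_all (k m : ℕ) (hk : 1 ≤ k) (κ V : ℝ) (hκ : 0 < κ) (hV : 0 < V) :
    ∃ (M : ClosedManifold 4) (lam : ℝ), 0 < lam ∧ M.RicciLowerBound κ ∧ M.HasVolume V ∧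
      M.IsSolK κ ∧ M.IsLambda k lam ∧ (m : Cardinal) ≤ Module.rank ℝ (M.eigenspace lam) := by
  have hc : 0 < κ⁻¹ := by positivity
  obtain ⟨M, lam, h0, h1, h2, h3, h4, h5⟩ := main_one k m hk (κ ^ 2 * V) (by positivity)
  refine ⟨M.scale κ⁻¹ hc, lam / κ⁻¹, by positivity, ?_, ?_, ?_, ?_, ?_⟩
  · have := M.scale_ricci hc h1
    simpa using this
  · have := M.scale_volume hc h2
    have e : Real.sqrt (κ⁻¹ ^ 4) * (κ ^ 2 * V) = V := by
      have e1 : κ⁻¹ ^ 4 = (κ⁻¹ ^ 2) ^ 2 := by ring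
      rw [e1, Real.sqrt_sq (by positivity)]
      field_simp
    rwa [e] at this
  · obtain ⟨c, hc1, hc2⟩ := h3
    refine ⟨c, hc1, fun p i j => ?_⟩
    show κ⁻¹ * M.g p i j = _
    rw [hc2]
    show _ = c i * c j * (κ⁻¹ * solMetric (fun k => c k * p k) i j)
    ring
  · exact M.scale_isLambda hc h4
  · rw [M.scale_eigenspace hc]
    exact h5

end Pool.Agent.W_MP_416086_gt
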