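import Pool.Agent.W_MP_416086_gt.Modes4

set_option autoImplicit false
set_option linter.unusedSectionVars false

open scoped ContDiff Topology
open MeasureTheory Real

namespace Pool.Agent.W_MP_416086_gt

theorem isOpen_slab (R : ℝ) : IsOpen {q : E 4 | |q 0| < R} :=
  isOpen_lt (by fun_prop) continuous_const

theorem isPreconnected_slab (R : ℝ) : IsPreconnected {q : E 4 | |q 0| < R} := by
  apply Convex.isPreconnected
  have : {q : E 4 | |q 0| < R} = (LinearMap.proj 0 : E 4 →ₗ[ℝ] ℝ) ⁻¹' (Set.Ioo (-R) R) := by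
    ext q
    simp [abs_lt]
  rw [this]
  exact (convex_Ioo _ _).linear_preimage _

theorem series_deriv {ι : Type} {G : Type} [NormedAddCommGroup G] [NormedSpace ℝ G] [CompleteSpace G]
    (w : ι → E 4 → G) (w' : ι → E 4 → (E 4 →L[ℝ] G))
    (h1 : ∀ k p, HasFDerivAt (w k) (w' k p) p)
    (hb : ∀ R : ℝ, ∃ b : ι → ℝ, Summable b ∧ ∀ k (p : E 4), |p 0| < R →
      ‖w k p‖ ≤ b k ∧ ‖w' k p‖ ≤ b k) (p : E 4) :
    HasFDerivAt (fun p => ∑' k, w k p) (∑' k, w' k p) p := by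
  obtain ⟨b, hb1, hb2⟩ := hb (|p 0| + 1)
  have hp : p ∈ {q : E 4 | |q 0| < |p 0| + 1} := by simp
  exact hasFDerivAt_tsum_of_isPreconnected hb1 (isOpen_slab _) (isPreconnected_slab _)
    (fun k q _ => h1 k q) (fun k q hq => (hb2 k q hq).2) hp
    (Summable.of_norm_bounded hb1 (fun k => (hb2 k p (by linarith)).1)) hp

theorem series_summable {ι : Type} {G : Type} [NormedAddCommGroup G] [CompleteSpace G]
    (w : ι → E 4 → G)
    (hb : ∀ R : ℝ, ∃ b : ι → ℝ, Summable b ∧ ∀ k (p : E 4), |p 0| < R → ‖w k p‖ ≤ b k) (p : E 4) :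
    Summable (fun k => w k p) := by
  obtain ⟨b, hb1, hb2⟩ := hb (|p 0| + 1)
  exact Summable.of_norm_bounded hb1 (fun k => hb2 k p (by linarith))

theorem series_continuous {ι : Type} {G : Type} [NormedAddCommGroup G] [CompleteSpace G]
    (w : ι → E 4 → G) (hw : ∀ k, Continuous (w k))
    (hb : ∀ R : ℝ, ∃ b : ι → ℝ, Summable b ∧ ∀ k (p : E 4), |p 0| < R → ‖w k p‖ ≤ b k) :
    Continuous (fun p => ∑' k, w k p) := by
  rw [continuous_iff_continuousAt]
  intro p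
  obtain ⟨b, hb1, hb2⟩ := hb (|p 0| + 1)
  have hp : p ∈ {q : E 4 | |q 0| < |p 0| + 1} := by simp
  have := continuousOn_tsum (s := {q : E 4 | |q 0| < |p 0| + 1})
    (fun k => (hw k).continuousOn) hb1 (fun k q hq => hb2 k q hq)
  exact this.continuousAt ((isOpen_slab _).mem_nhds hp)

/-- Locally uniformly convergent series of `C²` functions. -/
theorem series_C2 {ι : Type} (w : ι → E 4 → ℝ) (w' : ι → E 4 → (E 4 →L[ℝ] ℝ))
    (w'' : ι → E 4 → (E 4 →L[ℝ] E 4 →L[ℝ] ℝ))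
    (h1 : ∀ k p, HasFDerivAt (w k) (w' k p) p) (h2 : ∀ k p, HasFDerivAt (w' k) (w'' k p) p)
    (h3 : ∀ k, Continuous (w'' k))
    (hb : ∀ R : ℝ, ∃ b : ι → ℝ, Summable b ∧ ∀ k (p : E 4), |p 0| < R →
      ‖w k p‖ ≤ b k ∧ ‖w' k p‖ ≤ b k ∧ ‖w'' k p‖ ≤ b k) :
    ContDiff ℝ 2 (fun p => ∑' k, w k p) ∧
    (∀ p, HasSum (fun k => w k p) (∑' k, w k p)) ∧
    ∀ v p, HasSum (fun k => w'' k p v v) (D2 v (fun p => ∑' k, w k p) p) := by
  have hb0 : ∀ R : ℝ, ∃ b : ι → ℝ, Summable b ∧ ∀ k (p : E 4), |p 0| < R → ‖w k p‖ ≤ b k := by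
    intro R
    obtain ⟨b, hb1, hb2⟩ := hb R
    exact ⟨b, hb1, fun k p hp => (hb2 k p hp).1⟩
  have hb01 : ∀ R : ℝ, ∃ b : ι → ℝ, Summable b ∧ ∀ k (p : E 4), |p 0| < R →
      ‖w k p‖ ≤ b k ∧ ‖w' k p‖ ≤ b k := by
    intro R
    obtain ⟨b, hb1, hb2⟩ := hb R
    exact ⟨b, hb1, fun k p hp => ⟨(hb2 k p hp).1, (hb2 k p hp).2.1⟩⟩
  have hb12 : ∀ R : ℝ, ∃ b : ι → ℝ, Summable b ∧ ∀ k (p : E 4), |p 0| < R →
      ‖w' k p‖ ≤ b k ∧ ‖w'' k p‖ ≤ b k := by
    intro R
    obtain ⟨b, hb1, hb2⟩ := hb R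
    exact ⟨b, hb1, fun k p hp => (hb2 k p hp).2⟩
  have hb2 : ∀ R : ℝ, ∃ b : ι → ℝ, Summable b ∧ ∀ k (p : E 4), |p 0| < R → ‖w'' k p‖ ≤ b k := by
    intro R
    obtain ⟨b, hb1, hb2⟩ := hb R
    exact ⟨b, hb1, fun k p hp => (hb2 k p hp).2.2⟩
  have hs := series_summable w hb0
  have hs'' := series_summable w'' hb2
  have d1 := series_deriv w w' h1 hb01
  have d2 := series_deriv w' w'' h2 hb12
  have d3 := series_continuous w'' h3 hb2
  have f1 : fderiv ℝ (fun p => ∑' k, w k p) = fun p => ∑' k, w' k p := funext fun p => (d1 p).fderiv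
  have f2 : fderiv ℝ (fun p => ∑' k, w' k p) = fun p => ∑' k, w'' k p := funext fun p => (d2 p).fderiv
  refine ⟨?_, fun p => (hs p).hasSum, ?_⟩
  · rw [show (2 : WithTop ℕ∞) = 1 + 1 by norm_num, contDiff_succ_iff_fderiv]
    refine ⟨fun p => (d1 p).differentiableAt, by simp, ?_⟩
    rw [f1, contDiff_one_iff_fderiv]
    refine ⟨fun p => (d2 p).differentiableAt, ?_⟩
    rw [f2]
    exact d3
  · intro v p
    have h4 : D2 v (fun p => ∑' k, w k p) p = (∑' k, w'' k p) v v := by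
      unfold D2
      rw [f1]
      have h5 : HasFDerivAt (fun q => (∑' k, w' k q) v) ((∑' k, w'' k p).flip v) p := by
        have := (d2 p).clm_apply (hasFDerivAt_const v p)
        simpa using this
      rw [h5.fderiv]
      rfl
    rw [h4]
    have h5 := (hs'' p).hasSum
    have h6 := (ContinuousLinearMap.apply ℝ (E 4 →L[ℝ] ℝ) v).hasSum h5
    have h7 := (ContinuousLinearMap.apply ℝ ℝ v).hasSum h6
    exact h7

/-! ### The building blocks -/

noncomputable def Aj (j : ℤ) : ℝ := exp (j * tau) / √5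
noncomputable def Bj (j : ℤ) : ℝ := -(exp (-(j * tau)) / √5)

theorem real_exp_int_mul (x : ℝ) (j : ℤ) : exp (j * x) = exp x ^ j := by
  rw [mul_comm, Real.exp_mul, Real.rpow_intCast]

theorem exp_int_tau (j : ℤ) : exp (j * tau) = goldenRatio ^ (2 * j) := by
  rw [real_exp_int_mul, exp_tau, zpow_mul]
  norm_cast

theorem exp_neg_int_tau (j : ℤ) : exp (-(j * tau)) = goldenConj ^ (2 * j) := by
  have : -((j : ℝ) * tau) = j * (-tau) := by ring
  rw [this, real_exp_int_mul, exp_neg_tau, zpow_mul]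
  norm_cast

theorem Aj_add_Bj (j : ℤ) : Aj j + Bj j = (Int.fib (2 * j) : ℝ) := by
  unfold Aj Bj
  rw [coe_intFib_eq, exp_int_tau, exp_neg_int_tau]
  ring

theorem Aj_add_Bj' (j : ℤ) : Aj j * goldenRatio + Bj j * goldenConj = (Int.fib (2 * j + 1) : ℝ) := by
  unfold Aj Bj
  rw [coe_intFib_eq, exp_int_tau, exp_neg_int_tau, zpow_add_one₀ goldenRatio_ne_zero,
    zpow_add_one₀ goldenConj_ne_zero]
  ring

/-- Phase. -/
noncomputable def th (j : ℤ) (p : E 4) : ℝ := 2 * π * (Aj j * p 1 + Bj j * p 2)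

/-- Building block. -/
noncomputable def ww (u : ℝ → ℝ) (j : ℤ) (p : E 4) : ℝ := u (p 0 - j * tau) * cos (th j p)

theorem ww_act (u : ℝ → ℝ) (N : ℕ) (j k m n l : ℤ) (p : E 4) :
    ww u j (act N k m n l p) = ww u (j - k * N) p := by
  unfold ww
  have e1 : act N k m n l p 0 - j * tau = p 0 - ((j - k * N : ℤ) : ℝ) * tau := by
    simp only [act_0, LL]
    push_cast
    ring
  have e2 : th j (act N k m n l p) = th (j - k * N) p +
      ((m * Int.fib (2 * j) + n * Int.fib (2 * j + 1) : ℤ) : ℝ) * (2 * π) := by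
    have h1 := Aj_add_Bj j
    have h2 := Aj_add_Bj' j
    have h3 : Aj j * exp (-(k * LL N)) = Aj (j - k * N) := by
      unfold Aj LL
      rw [div_mul_eq_mul_div, ← Real.exp_add]
      congr 2
      push_cast
      ring
    have h4 : Bj j * exp (k * LL N) = Bj (j - k * N) := by
      unfold Bj LL
      rw [neg_mul, div_mul_eq_mul_div, ← Real.exp_add]
      congr 3
      push_cast
      ring
    unfold th
    simp only [act_1, act_2]
    rw [← h3, ← h4]
    push_cast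
    rw [← h1, ← h2]
    ring
  rw [e1, e2, Real.cos_add_int_mul_two_pi]

/-- Projection to the base. -/
noncomputable abbrev p0 : E 4 →L[ℝ] ℝ := ContinuousLinearMap.proj 0
/-- Phase as a linear map. -/
noncomputable def lj (j : ℤ) : E 4 →L[ℝ] ℝ :=
  (2 * π * Aj j) • (ContinuousLinearMap.proj 1 : E 4 →L[ℝ] ℝ) +
    (2 * π * Bj j) • (ContinuousLinearMap.proj 2 : E 4 →L[ℝ] ℝ)

theorem th_eq (j : ℤ) (p : E 4) : th j p = lj j p := by
  unfold th lj
  simp
  ring

/-- First derivative. -/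
noncomputable def ww' (u u' : ℝ → ℝ) (j : ℤ) (p : E 4) : E 4 →L[ℝ] ℝ :=
  (u' (p 0 - j * tau) * cos (th j p)) • p0 - (u (p 0 - j * tau) * sin (th j p)) • lj j

/-- Second derivative. -/
noncomputable def ww'' (u u' u'' : ℝ → ℝ) (j : ℤ) (p : E 4) : E 4 →L[ℝ] E 4 →L[ℝ] ℝ :=
  ((u'' (p 0 - j * tau) * cos (th j p)) • p0 -
    (u' (p 0 - j * tau) * sin (th j p)) • lj j).smulRight p0 -
  ((u' (p 0 - j * tau) * sin (th j p)) • p0 +
    (u (p 0 - j * tau) * cos (th j p)) • lj j).smulRight (lj j)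

theorem hasFDerivAt_shift {u u' : ℝ → ℝ} (hu : ∀ x, HasDerivAt u (u' x) x) (j : ℤ) (p : E 4) :
    HasFDerivAt (fun p : E 4 => u (p 0 - j * tau)) (u' (p 0 - j * tau) • p0) p := by
  have h1 : HasDerivAt (fun x : ℝ => u (x - j * tau)) (u' (p 0 - j * tau)) (p 0) :=
    (hu (p 0 - j * tau)).comp_sub_const (p 0) (j * tau)
  exact hasFDerivAt_coord 0 (fun x : ℝ => u (x - j * tau)) _ p h1

theorem hasFDerivAt_th (j : ℤ) (p : E 4) : HasFDerivAt (th j) (lj j) p := by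
  have : th j = fun p => lj j p := funext (th_eq j)
  rw [this]
  exact (lj j).hasFDerivAt

theorem hasFDerivAt_ucos {u u' : ℝ → ℝ} (hu : ∀ x, HasDerivAt u (u' x) x) (j : ℤ) (p : E 4) :
    HasFDerivAt (fun p : E 4 => u (p 0 - j * tau) * cos (th j p))
      ((u' (p 0 - j * tau) * cos (th j p)) • p0 - (u (p 0 - j * tau) * sin (th j p)) • lj j) p := by
  have h := (hasFDerivAt_shift hu j p).mul (hasFDerivAt_th j p).cos
  refine h.congr_fderiv ?_
  ext v
  simp
  ring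

theorem hasFDerivAt_usin {u u' : ℝ → ℝ} (hu : ∀ x, HasDerivAt u (u' x) x) (j : ℤ) (p : E 4) :
    HasFDerivAt (fun p : E 4 => u (p 0 - j * tau) * sin (th j p))
      ((u' (p 0 - j * tau) * sin (th j p)) • p0 + (u (p 0 - j * tau) * cos (th j p)) • lj j) p := by
  have h := (hasFDerivAt_shift hu j p).mul (hasFDerivAt_th j p).sin
  refine h.congr_fderiv ?_
  ext v
  simp
  ring

theorem ww_hasFDerivAt {u u' : ℝ → ℝ} (hu : ∀ x, HasDerivAt u (u' x) x) (j : ℤ) (p : E 4) :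
    HasFDerivAt (ww u j) (ww' u u' j p) p := hasFDerivAt_ucos hu j p

theorem ww'_hasFDerivAt {u u' u'' : ℝ → ℝ} (hu : ∀ x, HasDerivAt u (u' x) x)
    (hu' : ∀ x, HasDerivAt u' (u'' x) x) (j : ℤ) (p : E 4) :
    HasFDerivAt (ww' u u' j) (ww'' u u' u'' j p) p :=
  ((hasFDerivAt_ucos hu' j p).smul_const p0).sub ((hasFDerivAt_usin hu j p).smul_const (lj j))

theorem cont_sub' {G : Type} [NormedAddCommGroup G] {f g : E 4 → G} (hf : Continuous f)
    (hg : Continuous g) : Continuous (fun p => f p - g p) := hf.sub hg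

theorem ww''_continuous {u u' u'' : ℝ → ℝ} (hu : Continuous u) (hu' : Continuous u')
    (hu'' : Continuous u'') (j : ℤ) : Continuous (ww'' u u' u'' j) := by
  have hth : Continuous (th j) := by
    have : th j = fun p => lj j p := funext (th_eq j)
    rw [this]
    exact (lj j).continuous
  have c1 : Continuous (fun p : E 4 => (u'' (p 0 - j * tau) * cos (th j p)) • p0 -
      (u' (p 0 - j * tau) * sin (th j p)) • lj j) := by fun_prop
  have c2 : Continuous (fun p : E 4 => (u' (p 0 - j * tau) * sin (th j p)) • p0 +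
      (u (p 0 - j * tau) * cos (th j p)) • lj j) := by fun_prop
  have k1 : Continuous (fun c : E 4 →L[ℝ] ℝ => c.smulRight p0) :=
    ((ContinuousLinearMap.smulRightL ℝ (E 4) (E 4 →L[ℝ] ℝ)).flip p0).continuous
  have k2 : Continuous (fun c : E 4 →L[ℝ] ℝ => c.smulRight (lj j)) :=
    ((ContinuousLinearMap.smulRightL ℝ (E 4) (E 4 →L[ℝ] ℝ)).flip (lj j)).continuous
  exact cont_sub' (G := E 4 →L[ℝ] E 4 →L[ℝ] ℝ) (k1.comp c1) (k2.comp c2)

end Pool.Agent.W_MP_416086_gt
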